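import Pool.Agent.H22.ARB.Stm

/-!
# Packing mixed arborescences (MP_1cda34_co): growth lemma

Lovasz' argument: a branching is grown arc by arc, while a lower bound `p` (intersecting
supermodular) of the indegree of every nonempty set is kept.
-/

namespace ARB

open Finset

section Grow

variable {V I : Type} [Fintype V] [DecidableEq V] [Fintype I] [DecidableEq I]

set_option linter.unusedSectionVars false

theorem grow_submod (tl hd : I → V) (J : Finset I) (X Y : Finset V) :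
    din tl hd J (X ∩ Y) + din tl hd J (X ∪ Y) ≤ din tl hd J X + din tl hd J Y := by
  unfold din
  rw [card_filter, card_filter, card_filter, card_filter, ← sum_add_distrib, ← sum_add_distrib]
  apply sum_le_sum
  intro e _
  by_cases h1 : tl e ∈ X <;> by_cases h2 : tl e ∈ Y <;> by_cases h3 : hd e ∈ X <;>
    by_cases h4 : hd e ∈ Y <;> simp [h1, h2, h3, h4]

theorem grow_step (tl hd : I → V) (J F : Finset I) (e : I) (he : e ∈ J) (heF : e ∉ F)
    (Y : Finset V) :
    din tl hd (J \ insert e F) Y + (if tl e ∉ Y ∧ hd e ∈ Y then 1 else 0)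
      = din tl hd (J \ F) Y := by
  have h : J \ F = insert e (J \ insert e F) := by
    ext x
    simp only [mem_sdiff, mem_insert, not_or]
    constructor
    · rintro ⟨h1, h2⟩
      by_cases hx : x = e
      · exact Or.inl hx
      · exact Or.inr ⟨h1, hx, h2⟩
    · rintro (rfl | ⟨h1, _, h2⟩)
      · exact ⟨he, heF⟩
      · exact ⟨h1, h2⟩
  have hn : e ∉ J \ insert e F := by simp
  unfold din
  rw [h, filter_insert]
  split_ifs with hc
  · rw [card_insert_of_notMem (fun hh => hn (mem_filter.1 hh).1)]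
  · rfl

/-- the choice of the next arc. -/
theorem grow_choose (tl hd : I → V) (J : Finset I) (p : Finset V → ℤ) (Q U : Finset V)
    (hp : ∀ X Y : Finset V, (X ∩ Y).Nonempty → p X + p Y ≤ p (X ∩ Y) + p (X ∪ Y))
    (h4 : ∀ S : Finset V, Q ⊆ S → S ⊂ U → ∃ e ∈ J, tl e ∈ S ∧ hd e ∈ U \ S)
    (h5 : ∀ (S X : Finset V) (F : Finset I), Q ⊆ S → S ⊂ U → F ⊆ J →
      (∀ e ∈ F, tl e ∈ S ∧ hd e ∈ S) → (X ∩ (U \ S)).Nonempty →
      (din tl hd (J \ F) X : ℤ) = p X → ∃ e ∈ J, tl e ∈ X ∩ S ∧ hd e ∈ X ∩ (U \ S))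
    (S : Finset V) (F : Finset I) (hQS : Q ⊆ S) (hSU : S ⊂ U) (hFJ : F ⊆ J)
    (hF : ∀ e ∈ F, tl e ∈ S ∧ hd e ∈ S)
    (hin : ∀ X : Finset V, X.Nonempty → p X ≤ (din tl hd (J \ F) X : ℤ)) :
    ∃ e ∈ J, tl e ∈ S ∧ hd e ∈ U \ S ∧
      ∀ Y : Finset V, tl e ∉ Y → hd e ∈ Y → (din tl hd (J \ F) Y : ℤ) ≠ p Y := by
  classical
  set T : Finset (Finset V) := univ.filter
    (fun X => (X ∩ (U \ S)).Nonempty ∧ (din tl hd (J \ F) X : ℤ) = p X) with hT
  by_cases hne : T.Nonempty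
  · obtain ⟨X, hXT, hmin⟩ := exists_min_image T (fun X => X.card) hne
    have hX := (mem_filter.1 hXT).2
    obtain ⟨e, heJ, het, heh⟩ := h5 S X F hQS hSU hFJ hF hX.1 hX.2
    rw [mem_inter] at het heh
    refine ⟨e, heJ, het.2, heh.2, ?_⟩
    intro Y hY1 hY2 hYt
    have hne2 : (X ∩ Y).Nonempty := ⟨hd e, mem_inter.2 ⟨heh.1, hY2⟩⟩
    have hne3 : (X ∪ Y).Nonempty := ⟨hd e, mem_union_left _ heh.1⟩
    have hs := grow_submod tl hd (J \ F) X Y
    have hs' : (din tl hd (J \ F) (X ∩ Y) : ℤ) + (din tl hd (J \ F) (X ∪ Y) : ℤ)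
        ≤ (din tl hd (J \ F) X : ℤ) + (din tl hd (J \ F) Y : ℤ) := by exact_mod_cast hs
    have h1 := hin _ hne2
    have h2 := hin _ hne3
    have h3 := hp X Y hne2
    have h6 : (din tl hd (J \ F) (X ∩ Y) : ℤ) = p (X ∩ Y) := by
      have := hX.2
      omega
    have hmem : X ∩ Y ∈ T := by
      refine mem_filter.2 ⟨mem_univ _, ⟨hd e, mem_inter.2 ⟨mem_inter.2 ⟨heh.1, hY2⟩, heh.2⟩⟩, h6⟩
    have hlt : (X ∩ Y).card < X.card := by
      apply card_lt_card
      refine ⟨inter_subset_left, fun hsub => hY1 (mem_inter.1 (hsub het.1)).2⟩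
    have := hmin _ hmem
    omega
  · obtain ⟨e, heJ, het, heh⟩ := h4 S hQS hSU
    refine ⟨e, heJ, het, heh, ?_⟩
    intro Y _ hY2 hYt
    apply hne
    exact ⟨Y, mem_filter.2 ⟨mem_univ _, ⟨hd e, mem_inter.2 ⟨hY2, heh⟩⟩, hYt⟩⟩

/-- one more arc. -/
theorem grow_isBr (tl hd : I → V) (F : Finset I) (Q S : Finset V) (e : I)
    (hbr : IsBr tl hd F Q S) (h1 : tl e ∈ S) (h2 : hd e ∉ S) :
    IsBr tl hd (insert e F) Q (insert (hd e) S) := by
  obtain ⟨hQ, hE, hI, hR⟩ := hbr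
  refine ⟨hQ.trans (subset_insert _ _), ?_, ?_, ?_⟩
  · intro f hf
    rcases mem_insert.1 hf with rfl | hf
    · exact ⟨mem_insert_of_mem h1, mem_insert_self _ _, fun hh => h2 (hQ hh)⟩
    · obtain ⟨a, b, c⟩ := hE f hf
      exact ⟨mem_insert_of_mem a, mem_insert_of_mem b, c⟩
  · intro f hf f' hf' hff
    rcases mem_insert.1 hf with h | h
    · rcases mem_insert.1 hf' with h' | h'
      · rw [h, h']
      · exact absurd ((congrArg hd h).symm.trans hff ▸ (hE f' h').2.1) h2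
    · rcases mem_insert.1 hf' with h' | h'
      · exact absurd ((congrArg hd h').symm.trans hff.symm ▸ (hE f h).2.1) h2
      · exact hI f h f' h' hff
  · have hmono : ∀ x y, stepRel tl hd F x y → stepRel tl hd (insert e F) x y := by
      rintro x y ⟨f, hf, ha, hb⟩
      exact ⟨f, mem_insert_of_mem hf, ha, hb⟩
    intro v hv
    rcases mem_insert.1 hv with rfl | hv
    · obtain ⟨r, hr, hpath⟩ := hR (tl e) h1
      exact ⟨r, hr, (Relation.ReflTransGen.mono hmono _ _ hpath).tail ⟨e, mem_insert_self _ _, rfl, rfl⟩⟩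
    · obtain ⟨r, hr, hpath⟩ := hR v hv
      exact ⟨r, hr, Relation.ReflTransGen.mono hmono _ _ hpath⟩

theorem grow_main (tl hd : I → V) (J : Finset I) (p : Finset V → ℤ) (Q U : Finset V)
    (hp : ∀ X Y : Finset V, (X ∩ Y).Nonempty → p X + p Y ≤ p (X ∩ Y) + p (X ∪ Y))
    (h4 : ∀ S : Finset V, Q ⊆ S → S ⊂ U → ∃ e ∈ J, tl e ∈ S ∧ hd e ∈ U \ S)
    (h5 : ∀ (S X : Finset V) (F : Finset I), Q ⊆ S → S ⊂ U → F ⊆ J →
      (∀ e ∈ F, tl e ∈ S ∧ hd e ∈ S) → (X ∩ (U \ S)).Nonempty →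
      (din tl hd (J \ F) X : ℤ) = p X → ∃ e ∈ J, tl e ∈ X ∩ S ∧ hd e ∈ X ∩ (U \ S)) :
    ∀ (n : ℕ) (S : Finset V) (F : Finset I), (U \ S).card = n → Q ⊆ S → S ⊆ U → F ⊆ J →
      IsBr tl hd F Q S →
      (∀ X : Finset V, X.Nonempty → p X ≤ (din tl hd (J \ F) X : ℤ)) →
      ∃ F ⊆ J, IsBr tl hd F Q U ∧
        ∀ X : Finset V, X.Nonempty → p X ≤ (din tl hd (J \ F) X : ℤ) := by
  intro n
  induction n with
  | zero =>
    intro S F hn hQ hS hF hbr hin
    have hUS : U ⊆ S := sdiff_eq_empty_iff_subset.1 (card_eq_zero.1 hn)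
    have hEq : S = U := Subset.antisymm hS hUS
    subst hEq
    exact ⟨F, hF, hbr, hin⟩
  | succ n ih =>
    intro S F hn hQ hS hF hbr hin
    have hss : S ⊂ U := by
      refine ⟨hS, fun hUS => ?_⟩
      rw [sdiff_eq_empty_iff_subset.2 hUS] at hn
      simp at hn
    obtain ⟨e, heJ, het, heh, hnt⟩ := grow_choose tl hd J p Q U hp h4 h5 S F hQ hss hF
      (fun f hf => ⟨(hbr.2.1 f hf).1, (hbr.2.1 f hf).2.1⟩) hin
    obtain ⟨hU, hnS⟩ := mem_sdiff.1 heh
    have heF : e ∉ F := fun hh => hnS (hbr.2.1 e hh).2.1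
    refine ih (insert (hd e) S) (insert e F) ?_ (hQ.trans (subset_insert _ _))
      (insert_subset hU hS) (insert_subset heJ hF) (grow_isBr tl hd F Q S e hbr het hnS) ?_
    · have h1 : U \ insert (hd e) S = (U \ S).erase (hd e) := by
        ext x
        simp only [mem_sdiff, mem_insert, mem_erase, not_or]
        tauto
      rw [h1, card_erase_of_mem heh, hn]
      rfl
    · intro X hX
      have hstep := grow_step tl hd J F e heJ heF X
      have h0 := hin X hX
      by_cases hc : tl e ∉ X ∧ hd e ∈ X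
      · rw [if_pos hc] at hstep
        have hne := hnt X hc.1 hc.2
        have : (din tl hd (J \ insert e F) X : ℤ) + 1 = (din tl hd (J \ F) X : ℤ) := by
          exact_mod_cast hstep
        omega
      · rw [if_neg hc] at hstep
        have : (din tl hd (J \ insert e F) X : ℤ) = (din tl hd (J \ F) X : ℤ) := by
          exact_mod_cast hstep
        omega

end Grow

theorem sGrow : SGrow := by
  intro V I _ _ _ _ tl hd J p Q U hQU hp hin h4 h5
  refine grow_main tl hd J p Q U hp h4 h5 _ Q ∅ rfl (Subset.refl _) hQU (empty_subset _) ?_ ?_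
  · refine ⟨Subset.refl _, by simp, by simp, fun v hv => ⟨v, hv, Relation.ReflTransGen.refl⟩⟩
  · intro X hX
    rw [sdiff_empty]
    exact hin X hX

end ARB
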