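import Pool.Agent.H22.ARB.Stm

/-!
# Packing mixed arborescences: classes have integral sums (row ARB-CLS)
-/

namespace ARB

open Finset

private theorem cls_sup (Ω : Type) [Fintype Ω] [DecidableEq Ω] (c : Ω → ℝ) :
    ∀ (n : ℕ) (T : Finset (Finset Ω)), T.card ≤ n →
    (∀ S ∈ T, ∀ S' ∈ T, (S ∩ S').Nonempty → S ∪ S' ∈ T) →
    (∀ S ∈ T, ∃ m : ℤ, ∑ w ∈ S, c w = m) → ∃ m : ℤ, ∑ w ∈ T.sup id, c w = m := by
  intro n
  induction n with
  | zero =>
    intro T hT _ _
    have h0 : T = ∅ := Finset.card_eq_zero.mp (Nat.le_zero.mp hT)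
    subst h0
    exact ⟨0, by simp⟩
  | succ n ih =>
    intro T hT hU hI
    rcases T.eq_empty_or_nonempty with h0 | hne
    · subst h0
      exact ⟨0, by simp⟩
    obtain ⟨A, hA, hmax⟩ := T.exists_max_image (fun S => S.card) hne
    have hdich : ∀ S ∈ T, S ⊆ A ∨ Disjoint A S := by
      intro S hS
      by_cases h : (A ∩ S).Nonempty
      · left
        have h1 := hU A hA S hS h
        have h2 := hmax _ h1
        have h3 : A = A ∪ S := Finset.eq_of_subset_of_card_le Finset.subset_union_left h2
        rw [h3]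
        exact Finset.subset_union_right
      · right
        rw [Finset.disjoint_iff_inter_eq_empty]
        exact Finset.not_nonempty_iff_eq_empty.mp h
    rcases A.eq_empty_or_nonempty with hA0 | hA1
    · refine ⟨0, ?_⟩
      have h1 : T.sup id = ∅ := by
        apply Finset.eq_empty_of_forall_notMem
        intro w hw
        obtain ⟨S, hS, hwS⟩ := Finset.mem_sup.mp hw
        have h2 := hmax S hS
        rw [hA0, Finset.card_empty] at h2
        have h3 : S = ∅ := Finset.card_eq_zero.mp (Nat.le_zero.mp h2)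
        have h4 : w ∈ S := hwS
        rw [h3] at h4
        exact absurd h4 (Finset.notMem_empty w)
      rw [h1]
      simp
    · have hlt : (T.filter (fun S => Disjoint A S)).card ≤ n := by
        have h1 : T.filter (fun S => Disjoint A S) ⊂ T := by
          rw [Finset.filter_ssubset]
          refine ⟨A, hA, ?_⟩
          intro h
          rw [disjoint_self] at h
          rw [h] at hA1
          exact absurd hA1 (by simp)
        have h2 := Finset.card_lt_card h1
        omega
      obtain ⟨m1, hm1⟩ := hI A hA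
      obtain ⟨m2, hm2⟩ := ih (T.filter (fun S => Disjoint A S)) hlt
        (by
          intro S hS S' hS' h
          rw [Finset.mem_filter] at hS hS' ⊢
          exact ⟨hU S hS.1 S' hS'.1 h, Finset.disjoint_union_right.mpr ⟨hS.2, hS'.2⟩⟩)
        (by
          intro S hS
          exact hI S (Finset.mem_filter.mp hS).1)
      have hdis : Disjoint A ((T.filter (fun S => Disjoint A S)).sup id) := by
        rw [Finset.disjoint_sup_right]
        intro S hS
        exact (Finset.mem_filter.mp hS).2
      have hun : T.sup id = A ∪ (T.filter (fun S => Disjoint A S)).sup id := by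
        apply Finset.Subset.antisymm
        · intro w hw
          obtain ⟨S, hS, hwS⟩ := Finset.mem_sup.mp hw
          rcases hdich S hS with h | h
          · exact Finset.mem_union_left _ (h hwS)
          · exact Finset.mem_union_right _
              (Finset.mem_sup.mpr ⟨S, Finset.mem_filter.mpr ⟨hS, h⟩, hwS⟩)
        · intro w hw
          rcases Finset.mem_union.mp hw with h | h
          · exact Finset.mem_sup.mpr ⟨A, hA, h⟩
          · obtain ⟨S, hS, hwS⟩ := Finset.mem_sup.mp h
            exact Finset.mem_sup.mpr ⟨S, (Finset.mem_filter.mp hS).1, hwS⟩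
      refine ⟨m1 + m2, ?_⟩
      rw [hun, Finset.sum_union hdis, hm1, hm2]
      push_cast
      ring

theorem sCls : SCls := by
  intro Ω _ _ c T hT hI s hs
  classical
  obtain ⟨S0, hS0, hsS0⟩ := hs
  have hne : (T.filter (fun S => s ∈ S)).Nonempty :=
    ⟨S0, Finset.mem_filter.mpr ⟨hS0, hsS0⟩⟩
  set M : Finset Ω := (T.filter (fun S => s ∈ S)).inf' hne id with hM
  have hMT : M ∈ {S : Finset Ω | S ∈ T ∧ s ∈ S} := by
    apply Finset.inf'_mem
    · intro S hS S' hS'
      have h1 : s ∈ S ∩ S' := Finset.mem_inter.mpr ⟨hS.2, hS'.2⟩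
      exact ⟨(hT S hS.1 S' hS'.1 ⟨s, h1⟩).1, h1⟩
    · intro S hS
      exact Finset.mem_filter.mp hS
  have hMle : ∀ S ∈ T, s ∈ S → M ⊆ S := by
    intro S hS hsS
    exact Finset.inf'_le id (Finset.mem_filter.mpr ⟨hS, hsS⟩)
  set T' : Finset (Finset Ω) := T.filter (fun S => S ⊆ M ∧ s ∉ S) with hT'
  obtain ⟨m2, hm2⟩ := cls_sup Ω c T'.card T' le_rfl
    (by
      intro S hS S' hS' h
      rw [hT', Finset.mem_filter] at hS hS' ⊢
      refine ⟨(hT S hS.1 S' hS'.1 h).2, Finset.union_subset hS.2.1 hS'.2.1, ?_⟩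
      intro h1
      rcases Finset.mem_union.mp h1 with h2 | h2
      · exact hS.2.2 h2
      · exact hS'.2.2 h2)
    (by
      intro S hS
      exact hI S (Finset.mem_filter.mp hS).1)
  obtain ⟨m1, hm1⟩ := hI M hMT.1
  have hsub : T'.sup id ⊆ M := by
    intro w hw
    obtain ⟨S, hS, hwS⟩ := Finset.mem_sup.mp hw
    exact (Finset.mem_filter.mp hS).2.1 hwS
  have hcls : univ.filter (fun w => ∀ S ∈ T, s ∈ S ↔ w ∈ S) = M \ T'.sup id := by
    ext w
    rw [Finset.mem_filter, Finset.mem_sdiff]
    constructor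
    · rintro ⟨-, h⟩
      refine ⟨(h M hMT.1).mp hMT.2, ?_⟩
      intro hw
      obtain ⟨S, hS, hwS⟩ := Finset.mem_sup.mp hw
      rw [hT', Finset.mem_filter] at hS
      exact hS.2.2 ((h S hS.1).mpr hwS)
    · rintro ⟨hwM, hwU⟩
      refine ⟨Finset.mem_univ w, ?_⟩
      intro S hS
      constructor
      · intro hsS
        exact hMle S hS hsS hwM
      · intro hwS
        by_contra hsS
        apply hwU
        have h1 : w ∈ S ∩ M := Finset.mem_inter.mpr ⟨hwS, hwM⟩
        refine Finset.mem_sup.mpr ⟨S ∩ M, ?_, h1⟩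
        rw [hT', Finset.mem_filter]
        exact ⟨(hT S hS M hMT.1 ⟨w, h1⟩).1, Finset.inter_subset_right,
          fun h2 => hsS (Finset.mem_inter.mp h2).1⟩
  refine ⟨m1 - m2, ?_⟩
  rw [hcls]
  have h3 := Finset.sum_sdiff (f := c) hsub
  rw [hm1, hm2] at h3
  push_cast
  linarith

end ARB
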