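import Pool.Agent.H22.ARB.Stm

/-!
# Packing mixed arborescences (MP_1cda34_co): components of a branching
-/

namespace ARB

open Finset

section CompInternal

variable {V I : Type} [Fintype V] [DecidableEq V] [Fintype I] [DecidableEq I]

private theorem comp_snoc {tl hd : I → V} {J : Finset I} (l : List I) (e : I) (x y : V) :
    DWalk tl hd J x y (l ++ [e]) ↔ e ∈ J ∧ hd e = y ∧ DWalk tl hd J x (tl e) l := by
  induction l generalizing x with
  | nil =>
    constructor
    · intro h
      cases h with
      | cons h1 h2 h3 =>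
        cases h3
        subst h2
        exact ⟨h1, rfl, DWalk.nil _⟩
    · rintro ⟨h1, h2, h3⟩
      cases h3
      subst h2
      exact DWalk.cons h1 rfl (DWalk.nil _)
  | cons a l ih =>
    constructor
    · intro h
      cases h with
      | cons h1 h2 h3 =>
        obtain ⟨h4, h5, h6⟩ := (ih _).1 h3
        exact ⟨h4, h5, DWalk.cons h1 h2 h6⟩
    · rintro ⟨h1, h2, h3⟩
      cases h3 with
      | cons h4 h5 h6 => exact DWalk.cons h4 h5 ((ih _).2 ⟨h1, h2, h6⟩)

private theorem comp_uniq {tl hd : I → V} {J : Finset I} {r : V}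
    (hr : ∀ e ∈ J, hd e ≠ r) (hinj : ∀ e ∈ J, ∀ e' ∈ J, hd e = hd e' → e = e') (l : List I) :
    ∀ (y : V) (l' : List I), DWalk tl hd J r y l → DWalk tl hd J r y l' → l = l' := by
  induction l using List.reverseRecOn with
  | nil =>
    intro y l' h1 h2
    cases h1
    rcases List.eq_nil_or_concat l' with h3 | ⟨m, e, h3⟩
    · exact h3.symm
    · rw [h3, List.concat_eq_append] at h2
      obtain ⟨h4, h5, -⟩ := (comp_snoc m e _ _).1 h2
      exact absurd h5 (hr e h4)
  | append_singleton l e ih =>
    intro y l' h1 h2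
    obtain ⟨h3, h4, h5⟩ := (comp_snoc l e _ _).1 h1
    rcases List.eq_nil_or_concat l' with h6 | ⟨m, e', h6⟩
    · rw [h6] at h2
      cases h2
      exact absurd h4 (hr e h3)
    · rw [List.concat_eq_append] at h6
      rw [h6] at h2
      obtain ⟨h7, h8, h9⟩ := (comp_snoc m e' _ _).1 h2
      have h10 : e = e' := hinj e h3 e' h7 (h4.trans h8.symm)
      subst h10
      rw [h6, ih _ m h5 h9]

private theorem comp_root {tl hd : I → V} {F : Finset I} {R : Finset V}
    (hF : ∀ e ∈ F, hd e ∉ R) (hinj : ∀ e ∈ F, ∀ e' ∈ F, hd e = hd e' → e = e')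
    {r v : V} (hr : r ∈ R) (h : Relation.ReflTransGen (stepRel tl hd F) r v) :
    ∀ r' ∈ R, Relation.ReflTransGen (stepRel tl hd F) r' v → r = r' := by
  induction h with
  | refl =>
    intro r' hr' h'
    rcases Relation.ReflTransGen.cases_tail h' with h1 | ⟨c, -, e, he, -, h3⟩
    · exact h1
    · exact absurd (h3 ▸ hr) (hF e he)
  | tail hab hbc ih =>
    intro r' hr' h'
    obtain ⟨e, he, h1, h2⟩ := hbc
    rcases Relation.ReflTransGen.cases_tail h' with h3 | ⟨c, hc, e', he', h4, h5⟩
    · rw [← h2] at h3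
      exact absurd (h3 ▸ hr') (hF e he)
    · have h6 : e = e' := hinj e he e' he' (h2.trans h5.symm)
      subst h6
      rw [h1] at h4
      subst h4
      exact ih r' hr' hc

end CompInternal

theorem sComp : SComp := by
  intro V I _ _ _ _ H o F R hBr
  classical
  obtain ⟨-, hF, hinj, hreach⟩ := hBr
  have hFR : ∀ e ∈ F, o.head e ∉ R := fun e he => (hF e he).2.2
  have hreach' : ∀ v, ∃ r ∈ R, Relation.ReflTransGen (stepRel o.tail o.head F) r v :=
    fun v => hreach v (mem_univ v)
  choose rho hrhoR hrho using hreach'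
  have huniq : ∀ v, ∀ r ∈ R, Relation.ReflTransGen (stepRel o.tail o.head F) r v → rho v = r :=
    fun v r hr h => comp_root hFR hinj (hrhoR v) (hrho v) r hr h
  have hin : ∀ v, v ∉ R → ∃ e ∈ F, o.head e = v := by
    intro v hv
    rcases Relation.ReflTransGen.cases_tail (hrho v) with h1 | ⟨c, -, e, he, -, h3⟩
    · exact absurd (h1 ▸ hrhoR v) hv
    · exact ⟨e, he, h3⟩
  have hrR : ∀ r ∈ R, rho r = r := fun r hr => huniq r r hr Relation.ReflTransGen.refl
  have hth : ∀ e ∈ F, rho (o.head e) = rho (o.tail e) := fun e he =>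
    huniq _ _ (hrhoR _) ((hrho (o.tail e)).tail ⟨e, he, rfl, rfl⟩)
  -- the cardinality
  have hcard : F.card + R.card = Fintype.card V := by
    have h1 : F.image o.head = univ \ R := by
      ext v
      simp only [mem_image, mem_sdiff, mem_univ, true_and]
      constructor
      · rintro ⟨e, he, rfl⟩
        exact hFR e he
      · exact hin v
    have h2 : (F.image o.head).card = F.card :=
      card_image_of_injOn fun e he e' he' h => hinj e he e' he' h
    have h3 : (univ \ R).card + R.card = Fintype.card V := by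
      have := card_sdiff_add_card_eq_card (subset_univ R)
      rw [this, card_univ]
    rw [← h2, h1, h3]
  -- joined
  have hfs : ∀ e ∈ F, rho (H.fst e) = rho (o.head e) ∧ rho (H.snd e) = rho (o.head e) := by
    intro e he
    rcases o.ok e with ⟨h1, h2⟩ | ⟨-, h1, h2⟩
    · rw [← h1, ← h2]
      exact ⟨(hth e he).symm, rfl⟩
    · rw [← h1, ← h2]
      exact ⟨rfl, (hth e he).symm⟩
  have hJ1 : ∀ x y, Joined H.fst H.snd F x y → rho x = rho y := by
    intro x y h
    induction h with
    | rel x y h =>
      obtain ⟨e, he, rfl, rfl⟩ := h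
      rw [(hfs e he).1, (hfs e he).2]
    | refl x => rfl
    | symm x y _ ih => exact ih.symm
    | trans x y z _ _ ih1 ih2 => exact ih1.trans ih2
  have hJ2 : ∀ r x, Relation.ReflTransGen (stepRel o.tail o.head F) r x →
      Joined H.fst H.snd F r x := by
    intro r x h
    induction h with
    | refl => exact Relation.EqvGen.refl _
    | tail _ hbc ih =>
      obtain ⟨e, he, h1, h2⟩ := hbc
      refine Relation.EqvGen.trans _ _ _ ih ?_
      rcases o.ok e with ⟨h3, h4⟩ | ⟨-, h3, h4⟩
      · exact Relation.EqvGen.rel _ _ ⟨e, he, h3.symm.trans h1, h4.symm.trans h2⟩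
      · exact Relation.EqvGen.symm _ _
          (Relation.EqvGen.rel _ _ ⟨e, he, h4.symm.trans h2, h3.symm.trans h1⟩)
  have hJ : ∀ x y, Joined H.fst H.snd F x y ↔ rho x = rho y := by
    intro x y
    refine ⟨hJ1 x y, fun h => ?_⟩
    have h1 := hJ2 _ _ (hrho x)
    have h2 := hJ2 _ _ (hrho y)
    rw [← h] at h2
    exact Relation.EqvGen.trans _ _ _ (Relation.EqvGen.symm _ _ h1) h2
  have hCV : ∀ v x, x ∈ compVerts H F v ↔ rho x = rho v := by
    intro v x
    unfold compVerts
    rw [mem_filter, hJ]
    exact ⟨fun h => h.2.symm, fun h => ⟨mem_univ _, h.symm⟩⟩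
  have hCE : ∀ v e, e ∈ compElems H F v ↔ e ∈ F ∧ rho (o.head e) = rho v := by
    intro v e
    unfold compElems
    rw [mem_filter, hJ]
    constructor
    · rintro ⟨h1, h2⟩
      exact ⟨h1, by rw [h2, (hfs e h1).1]⟩
    · rintro ⟨h1, h2⟩
      exact ⟨h1, by rw [← h2, (hfs e h1).1]⟩
  have hcc : ∀ v, (compElems H F v).card + 1 = (compVerts H F v).card := by
    intro v
    have h1 : (compElems H F v).image o.head = (compVerts H F v).erase (rho v) := by
      ext x
      rw [mem_image, mem_erase, hCV]
      constructor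
      · rintro ⟨e, he, rfl⟩
        rw [hCE] at he
        refine ⟨fun h => hFR e he.1 ?_, he.2⟩
        rw [h]
        exact hrhoR v
      · rintro ⟨h2, h3⟩
        obtain ⟨e, he, h4⟩ := hin x fun h => h2 (by rw [← h3, hrR x h])
        exact ⟨e, (hCE v e).2 ⟨he, by rw [h4, h3]⟩, h4⟩
    have h2 : ((compElems H F v).image o.head).card = (compElems H F v).card :=
      card_image_of_injOn fun e he e' he' h =>
        hinj e ((hCE v e).1 he).1 e' ((hCE v e').1 he').1 h
    have h3 : rho v ∈ compVerts H F v := (hCV v _).2 (hrR _ (hrhoR v))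
    rw [← h2, h1, card_erase_add_one h3]
  -- every component is an arborescence
  have harb : ∀ v, IsArborescence o.tail o.head (compVerts H F v) (compElems H F v) (rho v) := by
    intro v
    have hjr : ∀ x, rho x = rho v → Joined o.tail o.head (compElems H F v) (rho v) x ∧
        ∃ l, DWalk o.tail o.head (compElems H F v) (rho v) x l := by
      intro x hx
      have h1 := hrho x
      rw [hx] at h1
      clear hx
      induction h1 with
      | refl => exact ⟨Relation.EqvGen.refl _, [], DWalk.nil _⟩
      | @tail b c hab hbc ih =>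
        obtain ⟨ih1, l, ih2⟩ := ih
        have h5 : rho c = rho v := huniq _ _ (hrhoR v) (hab.tail hbc)
        obtain ⟨e, he, h2, h3⟩ := hbc
        have h4 : e ∈ compElems H F v := (hCE v e).2 ⟨he, by rw [h3, h5]⟩
        refine ⟨Relation.EqvGen.trans _ _ _ ih1 (Relation.EqvGen.rel _ _ ⟨e, h4, h2, h3⟩),
          l ++ [e], (comp_snoc l e _ _).2 ⟨h4, h3, ?_⟩⟩
        rw [h2]
        exact ih2
    refine ⟨(hCV v _).2 (hrR _ (hrhoR v)), ?_, ?_, hcc v, ?_⟩
    · intro e he
      rw [hCE] at he
      exact ⟨(hCV v _).2 (by rw [← hth e he.1, he.2]), (hCV v _).2 he.2⟩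
    · intro x hx y hy
      rw [hCV] at hx hy
      exact Relation.EqvGen.trans _ _ _ (Relation.EqvGen.symm _ _ (hjr x hx).1) (hjr y hy).1
    · intro y hy
      rw [hCV] at hy
      obtain ⟨l, hl⟩ := (hjr y hy).2
      refine ⟨l, hl, fun l' hl' => ?_⟩
      refine (comp_uniq ?_ ?_ l y l' hl hl').symm
      · intro e he h
        rw [hCE] at he
        refine hFR e he.1 ?_
        rw [h]
        exact hrhoR v
      · intro e he e' he' h
        exact hinj e ((hCE v e).1 he).1 e' ((hCE v e').1 he').1 h
  refine ⟨⟨o, fun v => ⟨rho v, harb v⟩⟩, hcard, fun v => ⟨rho v, hrhoR v, (hCV _ _).2 ?_⟩, hcc,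
    fun hR => ?_⟩
  · rw [hrR _ (hrhoR v)]
  · obtain ⟨r, hr⟩ := card_eq_one.1 hR
    have hall : ∀ v, rho v = r := fun v => by
      have := hrhoR v
      rw [hr, mem_singleton] at this
      exact this
    have h1 : compVerts H F r = univ := by
      ext x
      rw [hCV, hall, hall]
      simp
    have h2 : compElems H F r = F := by
      ext e
      rw [hCE, hall, hall]
      simp
    refine ⟨o, r, ?_⟩
    have h3 := harb r
    rw [h1, h2, hall] at h3
    exact h3

end ARB
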