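import Pool.Agent.H22.ARB.Stm

/-!
# Packing mixed arborescences (MP_1cda34_co): a nonzero circulation (row LA)
-/

namespace ARB

open Finset

private theorem la_sum {F N : Type} [Fintype F] [Fintype N] [DecidableEq N] (s : F → Option N)
    (hs : ∀ f, s f ≠ none) (y : F → ℝ) :
    ∑ ν : N, ∑ f ∈ univ.filter (fun f => s f = some ν), y f = ∑ f, y f := by
  simp only [Finset.sum_filter]
  rw [Finset.sum_comm]
  refine Finset.sum_congr rfl fun f _ => ?_
  cases h : s f with
  | none => exact absurd h (hs f)
  | some μ => simp

private theorem la_card {F N : Type} [Fintype F] [Fintype N] [DecidableEq N]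
    (s : F → Option N) :
    ∑ ν : N, (univ.filter (fun f => s f = some ν)).card =
      ∑ f : F, (if s f = none then 0 else 1) := by
  simp only [Finset.card_filter]
  rw [Finset.sum_comm]
  refine Finset.sum_congr rfl fun f _ => ?_
  cases h : s f with
  | none => simp
  | some μ => simp

/-- ARB-LA -/
theorem sLA : SLA := by
  intro F N _ _ _ _ _ s t hdeg
  classical
  by_contra hcon
  push Not at hcon
  set D : N → ℕ := fun ν => (univ.filter (fun f => s f = some ν)).card +
    (univ.filter (fun f => t f = some ν)).card with hD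
  have hz : ∀ ν, D ν = 0 → (univ.filter (fun f => s f = some ν)) = ∅ ∧
      (univ.filter (fun f => t f = some ν)) = ∅ := by
    intro ν h
    have h1 : (univ.filter (fun f => s f = some ν)).card +
      (univ.filter (fun f => t f = some ν)).card = 0 := h
    exact ⟨Finset.card_eq_zero.1 (by omega), Finset.card_eq_zero.1 (by omega)⟩
  let B : (F → ℝ) →ₗ[ℝ] ({ν : N // D ν ≠ 0} → ℝ) :=
    { toFun := fun y ν => ∑ f ∈ univ.filter (fun f => t f = some ν.1), y f -
        ∑ f ∈ univ.filter (fun f => s f = some ν.1), y f
      map_add' := by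
        intro y z
        funext ν
        simp only [Pi.add_apply, Finset.sum_add_distrib]
        ring
      map_smul' := by
        intro c y
        funext ν
        simp only [Pi.smul_apply, smul_eq_mul, RingHom.id_apply, ← Finset.mul_sum]
        ring }
  have hB : ∀ y ν, B y ν = ∑ f ∈ univ.filter (fun f => t f = some ν.1), y f -
        ∑ f ∈ univ.filter (fun f => s f = some ν.1), y f := fun _ _ => rfl
  have hinj : Function.Injective B := by
    rw [← LinearMap.ker_eq_bot, LinearMap.ker_eq_bot']
    intro y hy
    by_contra hne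
    obtain ⟨ν, hν⟩ := hcon y hne
    by_cases h : D ν = 0
    · obtain ⟨h1, h2⟩ := hz ν h
      rw [h1, h2] at hν
      exact hν rfl
    · have h1 := congrFun hy ⟨ν, h⟩
      rw [hB] at h1
      exact hν (sub_eq_zero.1 h1)
  have hle : Fintype.card F ≤ Fintype.card {ν : N // D ν ≠ 0} := by
    have h := LinearMap.finrank_le_finrank_of_injective hinj
    simpa using h
  -- double counting
  have hsum : ∑ ν, D ν = ∑ f : F, ((if s f = none then 0 else 1) +
      (if t f = none then 0 else 1)) := by
    rw [hD, Finset.sum_add_distrib, la_card s, la_card t, Finset.sum_add_distrib]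
  have hlow : 2 * Fintype.card {ν : N // D ν ≠ 0} ≤ ∑ ν, D ν := by
    rw [Fintype.card_subtype]
    calc 2 * (univ.filter fun ν => D ν ≠ 0).card
        = ∑ ν ∈ univ.filter (fun ν => D ν ≠ 0), 2 := by
          rw [Finset.sum_const, smul_eq_mul, mul_comm]
      _ ≤ ∑ ν ∈ univ.filter (fun ν => D ν ≠ 0), D ν := by
          refine Finset.sum_le_sum fun ν hν => ?_
          have h1 : D ν ≠ 0 := (Finset.mem_filter.1 hν).2
          have h2 : D ν ≠ 1 := hdeg ν
          omega
      _ ≤ ∑ ν, D ν := Finset.sum_le_sum_of_subset (Finset.filter_subset _ _)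
  have hup : ∀ f ∈ (univ : Finset F), ((if s f = none then 0 else 1) +
      (if t f = none then 0 else 1)) ≤ 2 := by
    intro f _
    split_ifs <;> omega
  have hcardF : ∑ f : F, 2 = 2 * Fintype.card F := by
    rw [Finset.sum_const, smul_eq_mul, mul_comm, Finset.card_univ]
  have hupS : ∑ ν, D ν ≤ 2 * Fintype.card F := by
    rw [hsum, ← hcardF]
    exact Finset.sum_le_sum hup
  have hcard : Fintype.card F = Fintype.card {ν : N // D ν ≠ 0} := by omega
  have heq : ∑ f : F, ((if s f = none then 0 else 1) + (if t f = none then 0 else 1)) =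
      ∑ f : F, 2 := by
    rw [hcardF, ← hsum]
    omega
  have hall : ∀ f, s f ≠ none ∧ t f ≠ none := by
    intro f
    have h := (Finset.sum_eq_sum_iff_of_le hup).1 heq f (Finset.mem_univ f)
    constructor
    · intro h1
      rw [if_pos h1] at h
      split_ifs at h <;> omega
    · intro h1
      rw [if_pos h1] at h
      split_ifs at h <;> omega
  have hsurj : Function.Surjective B := by
    refine (LinearMap.injective_iff_surjective_of_finrank_eq_finrank ?_).1 hinj
    simpa using hcard
  obtain ⟨y, hy⟩ := hsurj fun _ => 1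
  have h0 : ∑ ν : N, (∑ f ∈ univ.filter (fun f => t f = some ν), y f -
        ∑ f ∈ univ.filter (fun f => s f = some ν), y f) = 0 := by
    rw [Finset.sum_sub_distrib, la_sum t (fun f => (hall f).2) y,
      la_sum s (fun f => (hall f).1) y, sub_self]
  have h1 : ∑ ν : {ν : N // D ν ≠ 0}, (B y ν) = 0 := by
    rw [← h0]
    simp only [hB]
    rw [← Finset.sum_subtype (univ.filter fun ν => D ν ≠ 0)
      (fun ν => by rw [Finset.mem_filter]; exact ⟨fun h => h.2, fun h => ⟨Finset.mem_univ _, h⟩⟩)
      (fun ν => ∑ f ∈ univ.filter (fun f => t f = some ν), y f -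
        ∑ f ∈ univ.filter (fun f => s f = some ν), y f)]
    refine Finset.sum_subset (Finset.filter_subset _ _) fun ν _ hν => ?_
    have h : D ν = 0 := by
      by_contra h
      exact hν (Finset.mem_filter.2 ⟨Finset.mem_univ _, h⟩)
    obtain ⟨h1, h2⟩ := hz ν h
    rw [h1, h2]
    simp
  rw [hy] at h1
  simp only [Finset.sum_const, Finset.card_univ, nsmul_eq_mul, mul_one] at h1
  have h2 : Fintype.card {ν : N // D ν ≠ 0} = 0 := by exact_mod_cast h1
  have h3 : 0 < Fintype.card F := Fintype.card_pos
  omega

end ARB
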