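import Pool.Agent.H22.ARB.Stm

/-!
# ARB-D2 (MP_1cda34_co): `d = 2`, exact case, all `k ≥ 1`

`sD2 : SMove → SD2`.
-/

set_option linter.unusedSectionVars false

namespace ARB

open Finset

namespace DTwo

variable {V I : Type} [Fintype V] [DecidableEq V] [Fintype I] [DecidableEq I]

/-! ### General counting lemmas -/

theorem o_ne {H : MixedGraph V I} (o : Orientation H) (e : I) : o.tail e ≠ o.head e := by
  rcases o.ok e with ⟨h1, h2⟩ | ⟨_, h1, h2⟩
  · rw [h1, h2]; exact H.noLoop e
  · rw [h1, h2]; exact (H.noLoop e).symm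

theorem sum_head (hd : I → V) (J : Finset I) (X : Finset V) :
    ∑ v ∈ X, (J.filter (fun e => hd e = v)).card = (J.filter (fun e => hd e ∈ X)).card := by
  have h := Finset.card_eq_sum_card_fiberwise (f := hd) (s := J.filter (fun e => hd e ∈ X))
    (t := X) (by intro e he; exact (Finset.mem_filter.mp he).2)
  rw [h]
  apply Finset.sum_congr rfl
  intro v hv
  apply congrArg Finset.card
  ext e
  simp only [Finset.mem_filter]
  constructor
  · rintro ⟨h1, h2⟩
    exact ⟨⟨h1, by rw [h2]; exact hv⟩, h2⟩
  · rintro ⟨⟨h1, _⟩, h2⟩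
    exact ⟨h1, h2⟩

theorem din_split (tl hd : I → V) (J : Finset I) (X : Finset V) :
    din tl hd J X + (J.filter (fun e => tl e ∈ X ∧ hd e ∈ X)).card
      = ∑ v ∈ X, (J.filter (fun e => hd e = v)).card := by
  rw [sum_head]
  unfold din
  rw [← Finset.card_union_of_disjoint]
  · apply congrArg Finset.card
    ext e
    simp only [Finset.mem_union, Finset.mem_filter]
    by_cases h : tl e ∈ X
    · simp [h]
    · simp [h]
  · rw [Finset.disjoint_left]
    intro e he he'
    exact (Finset.mem_filter.mp he).2.1 (Finset.mem_filter.mp he').2.1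

theorem din_sub (tl hd : I → V) (J : Finset I) (X Y : Finset V) :
    din tl hd J (X ∩ Y) + din tl hd J (X ∪ Y) ≤ din tl hd J X + din tl hd J Y := by
  unfold din
  simp only [Finset.card_filter]
  rw [← Finset.sum_add_distrib, ← Finset.sum_add_distrib]
  apply Finset.sum_le_sum
  intro e _
  by_cases h1 : tl e ∈ X <;> by_cases h2 : tl e ∈ Y <;> by_cases h3 : hd e ∈ X <;>
    by_cases h4 : hd e ∈ Y <;> simp [h1, h2, h3, h4]

theorem din_single {H : MixedGraph V I} (o : Orientation H) (J : Finset I) (y : V) :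
    din o.tail o.head J {y} = (J.filter (fun e => o.head e = y)).card := by
  unfold din
  apply congrArg Finset.card
  ext e
  simp only [Finset.mem_filter, Finset.mem_singleton]
  constructor
  · rintro ⟨h1, _, h2⟩; exact ⟨h1, h2⟩
  · rintro ⟨h1, h2⟩
    exact ⟨h1, by rw [← h2]; exact o_ne o e, h2⟩

/-- exchanging an element. -/
theorem din_swap (tl hd : I → V) (F : Finset I) (e f : I) (he : e ∉ F) (hf : f ∈ F)
    (X : Finset V) :
    din tl hd (univ \ (insert e (F.erase f))) X + (if tl e ∉ X ∧ hd e ∈ X then 1 else 0)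
      = din tl hd (univ \ F) X + (if tl f ∉ X ∧ hd f ∈ X then 1 else 0) := by
  have hef : e ≠ f := fun h => he (h ▸ hf)
  obtain ⟨K, hK⟩ : ∃ K, K = (univ \ F).erase e := ⟨_, rfl⟩
  have h1 : univ \ F = insert e K := by
    rw [hK, Finset.insert_erase]; simp [he]
  have h2 : univ \ (insert e (F.erase f)) = insert f K := by
    rw [hK]
    ext x
    simp only [Finset.mem_sdiff, Finset.mem_univ, true_and, Finset.mem_insert, Finset.mem_erase,
      not_or, not_and]
    by_cases hx : x = f
    · subst hx; simp [hef.symm]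
    · simp only [hx, false_or, not_false_eq_true, forall_const, ne_eq]
  have h3 : e ∉ K := by rw [hK]; simp
  have h4 : f ∉ K := by rw [hK]; simp [hf]
  unfold din
  rw [h2, h1]
  simp only [Finset.card_filter]
  rw [Finset.sum_insert h3, Finset.sum_insert h4]
  omega

/-! ### Branchings -/

theorem isBr_mk (tl hd : I → V) (F : Finset I) (R : Finset V)
    (h1 : ∀ e ∈ F, hd e ∉ R) (h2 : ∀ e ∈ F, ∀ e' ∈ F, hd e = hd e' → e = e')
    (h3 : ∀ v, v ∉ R → ∃ e ∈ F, hd e = v ∧ (tl e ∈ R ∨ ∃ e' ∈ F, hd e' = tl e ∧ tl e' ∈ R)) :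
    IsBr tl hd F R univ := by
  refine ⟨Finset.subset_univ _, fun e he => ⟨Finset.mem_univ _, Finset.mem_univ _, h1 e he⟩,
    h2, ?_⟩
  intro v _
  by_cases hv : v ∈ R
  · exact ⟨v, hv, Relation.ReflTransGen.refl⟩
  · obtain ⟨e, he, hev, h | ⟨e', he', h', h''⟩⟩ := h3 v hv
    · exact ⟨tl e, h, Relation.ReflTransGen.single ⟨e, he, rfl, hev⟩⟩
    · exact ⟨tl e', h'', (Relation.ReflTransGen.single ⟨e', he', rfl, h'⟩).tail
        ⟨e, he, rfl, hev⟩⟩

theorem br_head {tl hd : I → V} {F : Finset I} {R : Finset V} (h : IsBr tl hd F R univ)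
    {v : V} (hv : v ∉ R) : ∃ e ∈ F, hd e = v := by
  obtain ⟨r, hr, hp⟩ := h.2.2.2 v (Finset.mem_univ v)
  rcases Relation.ReflTransGen.cases_tail hp with h1 | ⟨c, _, e, he, _, h3⟩
  · exact absurd (h1 ▸ hr) hv
  · exact ⟨e, he, h3⟩

theorem br_card {tl hd : I → V} {F : Finset I} {R : Finset V} (h : IsBr tl hd F R univ) :
    F.card + R.card = Fintype.card V := by
  have h1 : F.image hd = univ \ R := by
    ext v
    simp only [Finset.mem_image, Finset.mem_sdiff, Finset.mem_univ, true_and]
    constructor
    · rintro ⟨e, he, rfl⟩; exact (h.2.1 e he).2.2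
    · intro hv; exact br_head h hv
  have h2 : (F.image hd).card = F.card := by
    apply Finset.card_image_of_injOn
    intro e he e' he' hee
    exact h.2.2.1 e he e' he' hee
  have h3 : (univ \ R).card + R.card = Fintype.card V := by
    rw [Finset.card_sdiff_add_card_eq_card (Finset.subset_univ R)]; rfl
  rw [← h2, h1, h3]

/-! ### The base facts -/

/-- all facts about a solution with `q + 1` roots in the case at hand. -/
structure Base (H : MixedGraph V I) (k q : ℕ) (o : Orientation H) (r : V → ℕ) (F : Finset I)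
    (R : Finset V) : Prop where
  cR : R.card = q + 1
  sum : ∑ v, r v = k
  cut : ∀ X : Finset V, X.Nonempty → k ≤ din o.tail o.head (univ \ F) X + ∑ v ∈ X, r v
  deg : ∀ y, ((univ \ F).filter (fun e => o.head e = y)).card + r y = k
  tR : ∀ e ∈ F, o.tail e ∈ R
  hR : ∀ e ∈ F, o.head e ∉ R
  ti : ∀ e ∈ F, ∀ e' ∈ F, o.tail e = o.tail e' → e = e'
  hi : ∀ e ∈ F, ∀ e' ∈ F, o.head e = o.head e' → e = e'
  tS : ∀ z ∈ R, ∃ e ∈ F, o.tail e = z
  hS : ∀ y, y ∉ R → ∃ e ∈ F, o.head e = y

theorem base {H : MixedGraph V I} {k q : ℕ} (hE : Exact H k 2 q)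
    (hng : ¬ GoodSol H k q) {o : Orientation H} {r : V → ℕ} {F : Finset I} {R : Finset V}
    (hs : IsSol H k o r F R) (hc : R.card = q + 1) : Base H k q o r F R := by
  obtain ⟨hbr, hsum, hcut⟩ := hs
  have hcard := br_card hbr
  obtain ⟨hn, hI, -, -⟩ := hE
  have hF : F.card = q + 1 := by omega
  -- degrees
  have hdeg : ∀ y, ((univ \ F).filter (fun e => o.head e = y)).card + r y = k := by
    have hle : ∀ y ∈ (univ : Finset V),
        k ≤ ((univ \ F).filter (fun e => o.head e = y)).card + r y := by
      intro y _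
      have := hcut {y} (Finset.singleton_nonempty y)
      rw [din_single, Finset.sum_singleton] at this
      exact this
    have hJ : (univ \ F).card + F.card = Fintype.card I := by
      rw [Finset.card_sdiff_add_card_eq_card (Finset.subset_univ F)]; rfl
    have hsumeq : ∑ y : V, k = ∑ y : V,
        (((univ \ F).filter (fun e => o.head e = y)).card + r y) := by
      rw [Finset.sum_add_distrib, hsum, sum_head, Finset.sum_const, Finset.card_univ, smul_eq_mul]
      have h1 : ((univ \ F).filter (fun e => o.head e ∈ (univ : Finset V))) = univ \ F := by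
        apply Finset.filter_true_of_mem
        intro e _; exact Finset.mem_univ _
      rw [h1]
      have h2 : Fintype.card V = (Fintype.card V - 1) + 1 := by omega
      obtain ⟨m, hm⟩ : ∃ m, m = Fintype.card V - 1 := ⟨_, rfl⟩
      rw [← hm] at h2 hI
      rw [h2]
      have h3 : (k + 1) * m = m * k + m := by ring
      have h4 : (m + 1) * k = m * k + k := by ring
      rw [h3] at hI
      rw [h4]
      omega
    have := (Finset.sum_eq_sum_iff_of_le hle).mp hsumeq
    intro y
    exact (this y (Finset.mem_univ y)).symm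
  have htS : ∀ z ∈ R, ∃ e ∈ F, o.tail e = z := by
    intro z hz
    by_contra hcon
    push Not at hcon
    apply hng
    refine ⟨o, r, F, R, z, ⟨hbr, hsum, hcut⟩, hc, hz, ?_⟩
    intro e he
    have h1 := hcon e he
    have h2 : o.head e ≠ z := fun h => (hbr.2.1 e he).2.2 (h ▸ hz)
    rcases o.ok e with ⟨h3, h4⟩ | ⟨_, h3, h4⟩
    · exact ⟨h3 ▸ h1, h4 ▸ h2⟩
    · exact ⟨h4 ▸ h2, h3 ▸ h1⟩
  have hsub : R ⊆ F.image o.tail := by
    intro z hz
    obtain ⟨e, he, hez⟩ := htS z hz
    exact Finset.mem_image.mpr ⟨e, he, hez⟩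
  have hle : (F.image o.tail).card ≤ R.card := by
    rw [hc, ← hF]; exact Finset.card_image_le
  have hEq : R = F.image o.tail := Finset.eq_of_subset_of_card_le hsub hle
  have hinj : Set.InjOn o.tail (F : Set I) := by
    apply Finset.card_image_iff.mp
    rw [← hEq, hc, hF]
  refine ⟨hc, hsum, hcut, hdeg, ?_, fun e he => (hbr.2.1 e he).2.2, ?_, hbr.2.2.1, htS,
    fun y hy => br_head hbr hy⟩
  · intro e he
    rw [hEq]
    exact Finset.mem_image_of_mem _ he
  · intro e he e' he' h
    exact hinj he he' h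

/-- tight sets. -/
def Tight (k : ℕ) (tl hd : I → V) (r : V → ℕ) (F : Finset I) (X : Finset V) : Prop :=
  din tl hd (univ \ F) X + ∑ v ∈ X, r v = k

instance (k : ℕ) (tl hd : I → V) (r : V → ℕ) (F : Finset I) (X : Finset V) :
    Decidable (Tight k tl hd r F X) := by
  unfold Tight; infer_instance

theorem tight_inter {H : MixedGraph V I} {k q : ℕ} {o : Orientation H} {r : V → ℕ}
    {F : Finset I} {R : Finset V} (B : Base H k q o r F R) {X Y : Finset V}
    (hX : Tight k o.tail o.head r F X) (hY : Tight k o.tail o.head r F Y)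
    (hXY : (X ∩ Y).Nonempty) : Tight k o.tail o.head r F (X ∩ Y) := by
  unfold Tight at *
  have h1 := din_sub o.tail o.head (univ \ F) X Y
  have h2 := Finset.sum_union_inter (s₁ := X) (s₂ := Y) (f := r)
  have h3 := B.cut (X ∩ Y) hXY
  have h4 := B.cut (X ∪ Y) (by
    obtain ⟨x, hx⟩ := hXY
    exact ⟨x, Finset.mem_union_left _ (Finset.mem_inter.mp hx).1⟩)
  omega

/-! ### The two exchange facts -/

theorem fact1 {H : MixedGraph V I} {k q : ℕ} (hng : ¬ GoodSol H k q) {o : Orientation H}
    {r : V → ℕ} {F : Finset I} {R : Finset V} (B : Base H k q o r F R) {e f : I}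
    (hf : f ∈ F) (he : e ∉ F) (heh : o.head e = o.head f) (het : o.tail e ≠ o.tail f) :
    ∃ X : Finset V, Tight k o.tail o.head r F X ∧ o.tail f ∈ X ∧ o.head f ∈ X ∧
      o.tail e ∉ X := by
  have hbr : IsBr o.tail o.head (insert e (F.erase f)) R univ := by
    apply isBr_mk
    · intro e' he'
      rcases Finset.mem_insert.mp he' with rfl | h
      · rw [heh]; exact B.hR f hf
      · exact B.hR e' (Finset.mem_of_mem_erase h)
    · intro a ha b hb hab
      rcases Finset.mem_insert.mp ha with rfl | ha1
      · rcases Finset.mem_insert.mp hb with rfl | hb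
        · rfl
        · exfalso
          rw [heh] at hab
          exact (Finset.ne_of_mem_erase hb) (B.hi b (Finset.mem_of_mem_erase hb) f hf hab.symm)
      · rcases Finset.mem_insert.mp hb with rfl | hb
        · exfalso
          rw [heh] at hab
          exact (Finset.ne_of_mem_erase ha1) (B.hi a (Finset.mem_of_mem_erase ha1) f hf hab)
        · exact B.hi a (Finset.mem_of_mem_erase ha1) b (Finset.mem_of_mem_erase hb) hab
    · intro v hv
      by_cases hvy : v = o.head f
      · refine ⟨e, Finset.mem_insert_self _ _, by rw [heh, hvy], ?_⟩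
        by_cases h : o.tail e ∈ R
        · exact Or.inl h
        · right
          obtain ⟨e', he', h'⟩ := B.hS _ h
          refine ⟨e', Finset.mem_insert_of_mem (Finset.mem_erase.mpr ⟨?_, he'⟩), h', B.tR e' he'⟩
          rintro rfl
          exact o_ne o e (by rw [heh, h'])
      · obtain ⟨e', he', h'⟩ := B.hS v hv
        refine ⟨e', Finset.mem_insert_of_mem (Finset.mem_erase.mpr ⟨?_, he'⟩), h',
          Or.inl (B.tR e' he')⟩
        rintro rfl
        exact hvy h'.symm
  have hiso : ∀ a ∈ insert e (F.erase f), H.fst a ≠ o.tail f ∧ H.snd a ≠ o.tail f := by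
    intro a ha
    have h1 : o.tail a ≠ o.tail f := by
      rcases Finset.mem_insert.mp ha with rfl | ha
      · exact het
      · intro h
        exact (Finset.ne_of_mem_erase ha) (B.ti a (Finset.mem_of_mem_erase ha) f hf h)
    have h2 : o.head a ≠ o.tail f := by
      rcases Finset.mem_insert.mp ha with rfl | ha
      · rw [heh]; exact (o_ne o f).symm
      · intro h
        exact B.hR a (Finset.mem_of_mem_erase ha) (h ▸ B.tR f hf)
    rcases o.ok a with ⟨h3, h4⟩ | ⟨_, h3, h4⟩
    · exact ⟨h3 ▸ h1, h4 ▸ h2⟩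
    · exact ⟨h4 ▸ h2, h3 ▸ h1⟩
  have hcut : ¬ ∀ X : Finset V, X.Nonempty →
      k ≤ din o.tail o.head (univ \ (insert e (F.erase f))) X + ∑ v ∈ X, r v := by
    intro hcut
    exact hng ⟨o, r, _, R, o.tail f, ⟨hbr, B.sum, hcut⟩, B.cR, B.tR f hf, hiso⟩
  push Not at hcut
  obtain ⟨X, hX, hlt⟩ := hcut
  have h1 := din_swap o.tail o.head F e f he hf X
  have h2 := B.cut X hX
  have h3 : o.tail e ∉ X ∧ o.head e ∈ X := by
    by_contra h
    rw [if_neg h] at h1
    omega
  have h4 : ¬ (o.tail f ∉ X ∧ o.head f ∈ X) := by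
    intro h
    rw [if_pos h3, if_pos h] at h1
    omega
  rw [if_pos h3, if_neg h4] at h1
  have h5 : o.head f ∈ X := heh ▸ h3.2
  have h6 : o.tail f ∈ X := by
    by_contra h
    exact h4 ⟨h, h5⟩
  exact ⟨X, by unfold Tight; omega, h6, h5, h3.1⟩

theorem fact2 {H : MixedGraph V I} {k q : ℕ} (hng : ¬ GoodSol H k q) {o : Orientation H}
    {r : V → ℕ} {F : Finset I} {R : Finset V} (B : Base H k q o r F R) {e f : I}
    (hf : f ∈ F) (he : e ∉ F) (hry : 1 ≤ r (o.head f)) (heh : o.head e = o.tail f)
    (het : o.tail e ≠ o.head f) :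
    ∃ X : Finset V, Tight k o.tail o.head r F X ∧ o.tail f ∈ X ∧ o.head f ∈ X ∧
      o.tail e ∉ X := by
  obtain ⟨z, hz⟩ : ∃ z, z = o.tail f := ⟨_, rfl⟩
  obtain ⟨y, hy⟩ : ∃ y, y = o.head f := ⟨_, rfl⟩
  rw [← hz] at heh
  rw [← hy] at het hry
  rw [← hz, ← hy]
  have hzR : z ∈ R := hz ▸ B.tR f hf
  have hyR : y ∉ R := hy ▸ B.hR f hf
  have hzy : z ≠ y := fun h => hyR (h ▸ hzR)
  have hmemR : ∀ v, v ∈ insert y (R.erase z) ↔ v = y ∨ (v ≠ z ∧ v ∈ R) := by
    intro v; rw [Finset.mem_insert, Finset.mem_erase]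
  have hFmem : ∀ a ∈ F.erase f, a ∈ F ∧ o.tail a ≠ z ∧ o.head a ≠ y := by
    intro a ha
    have ha2 := Finset.mem_of_mem_erase ha
    refine ⟨ha2, ?_, ?_⟩
    · intro h
      exact (Finset.ne_of_mem_erase ha) (B.ti a ha2 f hf (h.trans hz))
    · intro h
      exact (Finset.ne_of_mem_erase ha) (B.hi a ha2 f hf (h.trans hy))
  have hbr : IsBr o.tail o.head (insert e (F.erase f)) (insert y (R.erase z)) univ := by
    apply isBr_mk
    · intro a ha
      rw [hmemR]
      rcases Finset.mem_insert.mp ha with rfl | ha1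
      · rw [heh]
        rintro (h | h)
        · exact hzy h
        · exact h.1 rfl
      · obtain ⟨h1, h2, h3⟩ := hFmem a ha1
        rintro (h | h)
        · exact h3 h
        · exact B.hR a h1 h.2
    · intro a ha b hb hab
      rcases Finset.mem_insert.mp ha with rfl | ha1
      · rcases Finset.mem_insert.mp hb with rfl | hb1
        · rfl
        · exfalso
          rw [heh] at hab
          exact B.hR b (hFmem b hb1).1 (hab ▸ hzR)
      · rcases Finset.mem_insert.mp hb with rfl | hb1
        · exfalso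
          rw [heh] at hab
          exact B.hR a (hFmem a ha1).1 (hab ▸ hzR)
        · exact B.hi a (hFmem a ha1).1 b (hFmem b hb1).1 hab
    · intro v hv
      rw [hmemR] at hv
      push Not at hv
      obtain ⟨hv1, hv2⟩ := hv
      -- a general tool: an element of `F` with head `w ≠ y`
      have htool : ∀ w, w ≠ y → w ∉ R → ∃ a ∈ insert e (F.erase f), o.head a = w ∧
          o.tail a ∈ insert y (R.erase z) := by
        intro w hw1 hw2
        obtain ⟨a, ha, haw⟩ := B.hS w hw2
        have hne : a ≠ f := by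
          rintro rfl
          exact hw1 (haw.symm.trans hy.symm)
        have hmem : a ∈ F.erase f := Finset.mem_erase.mpr ⟨hne, ha⟩
        refine ⟨a, Finset.mem_insert_of_mem hmem, haw, ?_⟩
        rw [hmemR]
        exact Or.inr ⟨(hFmem a hmem).2.1, B.tR a ha⟩
      by_cases hvz : v = z
      · refine ⟨e, Finset.mem_insert_self _ _, by rw [heh, hvz], ?_⟩
        by_cases h : o.tail e ∈ R
        · left
          rw [hmemR]
          refine Or.inr ⟨?_, h⟩
          rw [← heh]; exact o_ne o e
        · right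
          obtain ⟨a, ha1, ha2, ha3⟩ := htool _ het h
          exact ⟨a, ha1, ha2, ha3⟩
      · obtain ⟨a, ha1, ha2, ha3⟩ := htool v hv1 (hv2 hvz)
        exact ⟨a, ha1, ha2, Or.inl ha3⟩
  have hiso : ∀ a ∈ insert e (F.erase f), H.fst a ≠ y ∧ H.snd a ≠ y := by
    intro a ha
    have h1 : o.tail a ≠ y := by
      rcases Finset.mem_insert.mp ha with rfl | ha1
      · exact het
      · intro h
        exact hyR (h ▸ B.tR a (hFmem a ha1).1)
    have h2 : o.head a ≠ y := by
      rcases Finset.mem_insert.mp ha with rfl | ha1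
      · rw [heh]; exact hzy
      · exact (hFmem a ha1).2.2
    rcases o.ok a with ⟨h3, h4⟩ | ⟨_, h3, h4⟩
    · exact ⟨h3 ▸ h1, h4 ▸ h2⟩
    · exact ⟨h4 ▸ h2, h3 ▸ h1⟩
  -- the new root vector
  obtain ⟨r', hr'⟩ : ∃ r' : V → ℕ, ∀ v, r' v + (if v = y then 1 else 0) =
      r v + (if v = z then 1 else 0) := by
    refine ⟨fun v => r v + (if v = z then 1 else 0) - (if v = y then 1 else 0), ?_⟩
    intro v
    by_cases hv : v = y
    · subst hv
      simp only [if_true]
      omega
    · simp [hv]
  have hr'X : ∀ X : Finset V, ∑ v ∈ X, r' v + (if y ∈ X then 1 else 0) =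
      ∑ v ∈ X, r v + (if z ∈ X then 1 else 0) := by
    intro X
    have h := Finset.sum_congr (rfl : X = X) (fun v (_ : v ∈ X) => hr' v)
    rw [Finset.sum_add_distrib, Finset.sum_add_distrib, Finset.sum_ite_eq', Finset.sum_ite_eq'] at h
    exact h
  have hsum' : ∑ v, r' v = k := by
    have h := hr'X univ
    simp only [Finset.mem_univ, if_true] at h
    rw [B.sum] at h
    omega
  have hcard' : (insert y (R.erase z)).card = q + 1 := by
    rw [Finset.card_insert_of_notMem, Finset.card_erase_of_mem hzR, B.cR]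
    · omega
    · intro h; exact hyR (Finset.mem_of_mem_erase h)
  have hcut : ¬ ∀ X : Finset V, X.Nonempty →
      k ≤ din o.tail o.head (univ \ (insert e (F.erase f))) X + ∑ v ∈ X, r' v := by
    intro hcut
    exact hng ⟨o, r', _, _, y, ⟨hbr, hsum', hcut⟩, hcard', Finset.mem_insert_self _ _, hiso⟩
  push Not at hcut
  obtain ⟨X, hX, hlt⟩ := hcut
  have h1 := din_swap o.tail o.head F e f he hf X
  have h2 := B.cut X hX
  have h3 := hr'X X
  rw [heh, ← hz, ← hy] at h1
  by_cases hzX : z ∈ X
  · by_cases hyX : y ∈ X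
    · by_cases h4 : o.tail e ∈ X
      · simp only [hzX, hyX, h4, not_true_eq_false, false_and, if_true, if_false] at h1 h3
        omega
      · refine ⟨X, ?_, hzX, hyX, h4⟩
        unfold Tight
        simp only [hzX, hyX, h4, not_true_eq_false, not_false_eq_true, false_and, and_self,
          if_true, if_false] at h1 h3
        omega
    · exfalso
      by_cases h4 : o.tail e ∈ X
      · simp only [hzX, hyX, h4, not_true_eq_false, false_and, if_true, if_false] at h1 h3
        omega
      · simp only [hzX, hyX, h4, not_true_eq_false, not_false_eq_true, and_self,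
          if_true, if_false] at h1 h3
        omega
  · exfalso
    by_cases hyX : y ∈ X
    · simp only [hzX, hyX, not_false_eq_true, and_self, and_false,
          if_true, if_false] at h1 h3
      omega
    · simp only [hzX, hyX, and_false, if_false] at h1 h3
      omega

/-! ### Claim 1 -/

/-- number of elements outside `F` with both ends in `X`. -/
def innerOut (H : MixedGraph V I) (F : Finset I) (X : Finset V) : ℕ :=
  ((univ \ F).filter (fun e => H.fst e ∈ X ∧ H.snd e ∈ X)).card

theorem innerOut_eq {H : MixedGraph V I} (o : Orientation H) (F : Finset I) (X : Finset V) :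
    ((univ \ F).filter (fun e => o.tail e ∈ X ∧ o.head e ∈ X)).card = innerOut H F X := by
  unfold innerOut
  apply congrArg Finset.card
  ext e
  simp only [Finset.mem_filter]
  rcases o.ok e with ⟨h3, h4⟩ | ⟨_, h3, h4⟩
  · rw [h3, h4]
  · rw [h3, h4]
    constructor
    · rintro ⟨a, b, c⟩; exact ⟨a, c, b⟩
    · rintro ⟨a, b, c⟩; exact ⟨a, c, b⟩

theorem innerOut_lt {H : MixedGraph V I} (o : Orientation H) (F : Finset I) (X : Finset V)
    {f : I} (hf : f ∈ F) (h1 : o.tail f ∈ X) (h2 : o.head f ∈ X) :
    innerOut H F X + 1 ≤ inner H X := by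
  unfold innerOut inner
  apply Nat.succ_le_of_lt
  apply Finset.card_lt_card
  refine Finset.ssubset_iff_subset_ne.mpr ⟨Finset.filter_subset_filter _ (Finset.subset_univ _), ?_⟩
  intro h
  have h3 : f ∈ univ.filter (fun e => H.fst e ∈ X ∧ H.snd e ∈ X) := by
    rw [Finset.mem_filter]
    refine ⟨Finset.mem_univ _, ?_⟩
    rcases o.ok f with ⟨h3, h4⟩ | ⟨_, h3, h4⟩
    · rw [← h3, ← h4]; exact ⟨h1, h2⟩
    · rw [← h3, ← h4]; exact ⟨h2, h1⟩
  rw [← h] at h3
  have h4 := (Finset.mem_filter.mp h3).1
  exact (Finset.mem_sdiff.mp h4).2 hf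

theorem din_inner {H : MixedGraph V I} {k q : ℕ} {o : Orientation H} {r : V → ℕ}
    {F : Finset I} {R : Finset V} (B : Base H k q o r F R) (X : Finset V) :
    din o.tail o.head (univ \ F) X + innerOut H F X + ∑ v ∈ X, r v = X.card * k := by
  have h := din_split o.tail o.head (univ \ F) X
  rw [innerOut_eq] at h
  rw [h, ← Finset.sum_add_distrib, Finset.sum_congr rfl (fun v _ => B.deg v), Finset.sum_const,
    smul_eq_mul]

theorem pair_inner {H : MixedGraph V I} {k q : ℕ} (hq : 1 ≤ q) (hE : Exact H k 2 q) {z y : V}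
    (hzy : z ≠ y) : inner H {z, y} ≤ k := by
  obtain ⟨hn, -, hin, -⟩ := hE
  have hc : ({z, y} : Finset V).card = 2 := Finset.card_pair hzy
  have h := hin {z, y} (Finset.insert_nonempty _ _) (by
    intro h
    have h2 : ({z, y} : Finset V).card = Fintype.card V := by rw [h]; rfl
    omega)
  rw [hc] at h
  omega

theorem claim1 {H : MixedGraph V I} {k q : ℕ} (hq : 1 ≤ q) (hE : Exact H k 2 q)
    (hng : ¬ GoodSol H k q) {o : Orientation H}
    {r : V → ℕ} {F : Finset I} {R : Finset V} (B : Base H k q o r F R) {y : V} (hy : y ∉ R) :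
    r y = 0 := by
  by_contra hry
  have hry : 1 ≤ r y := Nat.one_le_iff_ne_zero.mpr hry
  obtain ⟨f, hf, hfy⟩ := B.hS y hy
  subst hfy
  have hzy := o_ne o f
  have hW := din_inner B {o.tail f, o.head f}
  rw [Finset.card_pair hzy] at hW
  have h1 := pair_inner hq hE hzy
  have h2 := innerOut_lt o F {o.tail f, o.head f} hf (by simp) (by simp)
  have h3 : ∑ v ∈ {o.tail f, o.head f}, r v ≤ k := by
    rw [← B.sum]
    exact Finset.sum_le_sum_of_subset (Finset.subset_univ _)
  -- the facts
  have hfact : ∀ e ∈ (univ \ F).filter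
      (fun e => o.tail e ∉ ({o.tail f, o.head f} : Finset V) ∧
        o.head e ∈ ({o.tail f, o.head f} : Finset V)),
      ∃ X : Finset V, Tight k o.tail o.head r F X ∧ o.tail f ∈ X ∧ o.head f ∈ X ∧
      o.tail e ∉ X := by
    intro e he
    simp only [Finset.mem_filter, Finset.mem_sdiff, Finset.mem_univ, true_and,
      Finset.mem_insert, Finset.mem_singleton, not_or] at he
    obtain ⟨he1, ⟨he2, he3⟩, he4 | he4⟩ := he
    · exact fact2 hng B hf he1 hry he4 he3
    · exact fact1 hng B hf he1 he4 he2
  have hpos : 0 < din o.tail o.head (univ \ F) {o.tail f, o.head f} := by omega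
  obtain ⟨e0, he0⟩ := Finset.card_pos.mp hpos
  obtain ⟨X0, hX0⟩ := hfact e0 he0
  -- minimal tight set
  obtain ⟨X, hX, hmin⟩ := Finset.exists_min_image
    (univ.filter (fun X : Finset V => Tight k o.tail o.head r F X ∧ o.tail f ∈ X ∧ o.head f ∈ X))
    Finset.card ⟨X0, Finset.mem_filter.mpr ⟨Finset.mem_univ _, hX0.1, hX0.2.1, hX0.2.2.1⟩⟩
  obtain ⟨-, hXt, hX1, hX2⟩ := Finset.mem_filter.mp hX
  have hle : din o.tail o.head (univ \ F) {o.tail f, o.head f} ≤
      din o.tail o.head (univ \ F) X := by
    unfold din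
    apply Finset.card_le_card
    intro e he
    obtain ⟨Y, hYt, hY1, hY2, hY3⟩ := hfact e he
    have hXY : X ∩ Y = X := by
      apply Finset.eq_of_subset_of_card_le Finset.inter_subset_left
      apply hmin
      refine Finset.mem_filter.mpr ⟨Finset.mem_univ _, ?_, Finset.mem_inter.mpr ⟨hX1, hY1⟩,
        Finset.mem_inter.mpr ⟨hX2, hY2⟩⟩
      exact tight_inter B hXt hYt ⟨_, Finset.mem_inter.mpr ⟨hX1, hY1⟩⟩
    simp only [Finset.mem_filter, Finset.mem_sdiff, Finset.mem_univ, true_and,
      Finset.mem_insert, Finset.mem_singleton, not_or] at he ⊢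
    obtain ⟨he1, ⟨he2, he3⟩, he4⟩ := he
    refine ⟨he1, ?_, ?_⟩
    · intro h
      rw [← hXY] at h
      exact hY3 (Finset.mem_inter.mp h).2
    · rcases he4 with h | h
      · rw [h]; exact hX1
      · rw [h]; exact hX2
  have hrX : ∑ v ∈ {o.tail f, o.head f}, r v ≤ ∑ v ∈ X, r v := by
    apply Finset.sum_le_sum_of_subset
    intro v hv
    rcases Finset.mem_insert.mp hv with rfl | hv
    · exact hX1
    · rw [Finset.mem_singleton.mp hv]; exact hX2
  unfold Tight at hXt
  omega

/-! ### Claim 2 -/

/-- a new orientation with the same branching and the same degree sums is a solution again. -/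
theorem base_move {H : MixedGraph V I} {k q : ℕ} (hE : Exact H k 2 q)
    (hng : ¬ GoodSol H k q) {o o' : Orientation H}
    {r r' : V → ℕ} {F : Finset I} {R R' : Finset V} (B : Base H k q o r F R)
    (hbr : IsBr o'.tail o'.head F R' univ) (hR' : R'.card = q + 1)
    (hsum : ∑ v, r' v = k)
    (hdeg : ∀ y, ((univ \ F).filter (fun e => o'.head e = y)).card + r' y = k) :
    Base H k q o' r' F R' := by
  apply base hE hng _ hR'
  refine ⟨hbr, hsum, ?_⟩
  intro X hX
  have h1 := B.cut X hX
  have h2 := din_inner B X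
  have h3 := din_split o'.tail o'.head (univ \ F) X
  rw [innerOut_eq] at h3
  have h4 : ∑ v ∈ X, ((univ \ F).filter (fun e => o'.head e = v)).card + ∑ v ∈ X, r' v
      = X.card * k := by
    rw [← Finset.sum_add_distrib, Finset.sum_congr rfl (fun v _ => hdeg v), Finset.sum_const,
      smul_eq_mul]
  omega

theorem filter_split (o : I → V) (F : Finset I) (y : V) :
    ((univ : Finset I).filter (fun e => o e = y)).card =
      ((univ \ F).filter (fun e => o e = y)).card + (F.filter (fun e => o e = y)).card := by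
  rw [← Finset.card_union_of_disjoint]
  · apply congrArg Finset.card
    ext e
    simp only [Finset.mem_union, Finset.mem_filter, Finset.mem_sdiff, Finset.mem_univ, true_and]
    by_cases h : e ∈ F
    · simp [h]
    · simp [h]
  · rw [Finset.disjoint_left]
    intro e he he'
    exact (Finset.mem_sdiff.mp (Finset.mem_filter.mp he).1).2 (Finset.mem_filter.mp he').1

/-- the arc relation of undirected elements outside `F`. -/
def Und {H : MixedGraph V I} (o : Orientation H) (F : Finset I) (a b : V) : Prop :=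
  ∃ e, e ∉ F ∧ H.isEdge e = true ∧ o.tail e = a ∧ o.head e = b

theorem claim2 (hm : SMove) {H : MixedGraph V I} {k q : ℕ} (hq : 1 ≤ q) (hE : Exact H k 2 q)
    (hng : ¬ GoodSol H k q) {o : Orientation H}
    {r : V → ℕ} {F : Finset I} {R : Finset V} (B : Base H k q o r F R) {t x : V}
    (ht : 1 ≤ r t) (hx : Relation.ReflTransGen (Und o F) t x) :
    x ∈ R ∧ ∀ f ∈ F, o.tail f = x → H.isEdge f = false := by
  obtain ⟨o', ho', hin⟩ := hm V I H F o t x hx
  -- the new root vector
  obtain ⟨r', hr'⟩ : ∃ r' : V → ℕ, ∀ v, r' v + (if v = t then 1 else 0) =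
      r v + (if v = x then 1 else 0) := by
    refine ⟨fun v => r v + (if v = x then 1 else 0) - (if v = t then 1 else 0), ?_⟩
    intro v
    by_cases hv : v = t
    · subst hv
      simp only [if_true]
      omega
    · simp [hv]
  have hsum' : ∑ v, r' v = k := by
    have h := Finset.sum_congr (rfl : (univ : Finset V) = univ) (fun v (_ : v ∈ univ) => hr' v)
    rw [Finset.sum_add_distrib, Finset.sum_add_distrib, Finset.sum_ite_eq', Finset.sum_ite_eq',
      B.sum] at h
    simp only [Finset.mem_univ, if_true] at h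
    omega
  have hrx : 1 ≤ r' x := by
    have h := hr' x
    by_cases hxt : x = t
    · subst hxt
      simp only [if_true] at h
      omega
    · simp only [if_true, if_neg hxt] at h
      omega
  have hFc : ∀ y, (F.filter (fun e => o'.head e = y)).card =
      (F.filter (fun e => o.head e = y)).card := by
    intro y
    apply congrArg Finset.card
    apply Finset.filter_congr
    intro e he
    rw [(ho' e he).2]
  have hdeg : ∀ y, ((univ \ F).filter (fun e => o'.head e = y)).card + r' y = k := by
    intro y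
    have h1 := hin y
    have h2 := hr' y
    have h3 := B.deg y
    have h4 := filter_split o'.head F y
    have h5 := filter_split o.head F y
    have h6 := hFc y
    unfold indeg at h1
    rw [h4, h5] at h1
    omega
  have hbr : IsBr o'.tail o'.head F R univ := by
    apply isBr_mk
    · intro e he
      rw [(ho' e he).2]; exact B.hR e he
    · intro a ha b hb hab
      rw [(ho' a ha).2, (ho' b hb).2] at hab
      exact B.hi a ha b hb hab
    · intro v hv
      obtain ⟨e, he, hev⟩ := B.hS v hv
      refine ⟨e, he, by rw [(ho' e he).2]; exact hev, Or.inl ?_⟩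
      rw [(ho' e he).1]; exact B.tR e he
  have B' : Base H k q o' r' F R := base_move hE hng B hbr B.cR hsum' hdeg
  have hxR : x ∈ R := by
    by_contra h
    have := claim1 hq hE hng B' h
    omega
  refine ⟨hxR, ?_⟩
  intro f hf hfx
  by_contra hedge
  have hedge : H.isEdge f = true := by
    cases h : H.isEdge f
    · exact absurd h hedge
    · rfl
  -- reverse `f`
  have hf1 : o'.tail f = x := by rw [(ho' f hf).1]; exact hfx
  obtain ⟨y, hy⟩ : ∃ y, y = o'.head f := ⟨_, rfl⟩
  have hyR : y ∉ R := hy ▸ B'.hR f hf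
  have hxy : x ≠ y := fun h => hyR (h ▸ hxR)
  let o2 : Orientation H :=
    { tail := fun e => if e = f then o'.head f else o'.tail e
      head := fun e => if e = f then o'.tail f else o'.head e
      ok := by
        intro e
        by_cases h : e = f
        · subst h
          simp only [if_true]
          rcases o'.ok e with ⟨h3, h4⟩ | ⟨_, h3, h4⟩
          · right; exact ⟨hedge, h4, h3⟩
          · left; exact ⟨h4, h3⟩
        · simp only [if_neg h]
          exact o'.ok e }
  have ho2f : o2.tail f = y ∧ o2.head f = x := by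
    refine ⟨?_, ?_⟩
    · show (if f = f then o'.head f else o'.tail f) = y
      rw [if_pos rfl, hy]
    · show (if f = f then o'.tail f else o'.head f) = x
      rw [if_pos rfl, hf1]
  have ho2 : ∀ e, e ≠ f → o2.tail e = o'.tail e ∧ o2.head e = o'.head e := by
    intro e he
    refine ⟨?_, ?_⟩
    · show (if e = f then o'.head f else o'.tail e) = _
      rw [if_neg he]
    · show (if e = f then o'.tail f else o'.head e) = _
      rw [if_neg he]
  have hmemR : ∀ v, v ∈ insert y (R.erase x) ↔ v = y ∨ (v ≠ x ∧ v ∈ R) := by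
    intro v; rw [Finset.mem_insert, Finset.mem_erase]
  have hbr2 : IsBr o2.tail o2.head F (insert y (R.erase x)) univ := by
    apply isBr_mk
    · intro a ha
      rw [hmemR]
      by_cases haf : a = f
      · subst haf
        rw [ho2f.2]
        rintro (h | h)
        · exact hxy h
        · exact h.1 rfl
      · rw [(ho2 a haf).2]
        rintro (h | h)
        · exact haf (B'.hi a ha f hf (h.trans hy))
        · exact B'.hR a ha h.2
    · intro a ha b hb hab
      by_cases haf : a = f
      · by_cases hbf : b = f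
        · rw [haf, hbf]
        · exfalso
          rw [haf, ho2f.2, (ho2 b hbf).2] at hab
          exact B'.hR b hb (hab ▸ hxR)
      · by_cases hbf : b = f
        · exfalso
          rw [hbf, ho2f.2, (ho2 a haf).2] at hab
          exact B'.hR a ha (hab ▸ hxR)
        · rw [(ho2 a haf).2, (ho2 b hbf).2] at hab
          exact B'.hi a ha b hb hab
    · intro v hv
      rw [hmemR] at hv
      push Not at hv
      obtain ⟨hv1, hv2⟩ := hv
      by_cases hvx : v = x
      · refine ⟨f, hf, by rw [ho2f.2, hvx], Or.inl ?_⟩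
        rw [ho2f.1]; exact Finset.mem_insert_self _ _
      · obtain ⟨a, ha, hav⟩ := B'.hS v (hv2 hvx)
        have haf : a ≠ f := by
          rintro rfl
          exact hv1 (hav.symm.trans hy.symm)
        refine ⟨a, ha, by rw [(ho2 a haf).2, hav], Or.inl ?_⟩
        rw [(ho2 a haf).1, hmemR]
        refine Or.inr ⟨?_, B'.tR a ha⟩
        intro h
        exact haf (B'.ti a ha f hf (h.trans hf1.symm))
  have hcard2 : (insert y (R.erase x)).card = q + 1 := by
    rw [Finset.card_insert_of_notMem, Finset.card_erase_of_mem hxR, B.cR]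
    · omega
    · intro h; exact hyR (Finset.mem_of_mem_erase h)
  have hdeg2 : ∀ v, ((univ \ F).filter (fun e => o2.head e = v)).card + r' v = k := by
    intro v
    rw [← B'.deg v]
    congr 1
    apply congrArg Finset.card
    apply Finset.filter_congr
    intro e he
    have hef : e ≠ f := by
      rintro rfl
      exact (Finset.mem_sdiff.mp he).2 hf
    rw [(ho2 e hef).2]
  have B2 : Base H k q o2 r' F (insert y (R.erase x)) :=
    base_move hE hng B' hbr2 hcard2 hsum' hdeg2
  have hx2 : x ∉ insert y (R.erase x) := by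
    rw [hmemR]
    rintro (h | h)
    · exact hxy h
    · exact h.1 rfl
  have := claim1 hq hE hng B2 hx2
  omega

/-! ### Claims 3 and 4 -/

theorem main (hm : SMove) {H : MixedGraph V I} {k q : ℕ} (hk : 1 ≤ k) (hq : 1 ≤ q)
    (hE : Exact H k 2 q) (hng : ¬ GoodSol H k q) {o : Orientation H}
    {r : V → ℕ} {F : Finset I} {R : Finset V} (B : Base H k q o r F R) : False := by
  classical
  obtain ⟨A, hA⟩ : ∃ A : Finset V, A = univ.filter
    (fun x => ∃ t, 1 ≤ r t ∧ Relation.ReflTransGen (Und o F) t x) := ⟨_, rfl⟩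
  have hmemA : ∀ x, x ∈ A ↔ ∃ t, 1 ≤ r t ∧ Relation.ReflTransGen (Und o F) t x := by
    intro x; rw [hA]; simp
  have hrA : ∀ v, v ∉ A → r v = 0 := by
    intro v hv
    by_contra h
    exact hv ((hmemA v).mpr ⟨v, Nat.one_le_iff_ne_zero.mpr h, Relation.ReflTransGen.refl⟩)
  have hAR : A ⊆ R := by
    intro x hx
    obtain ⟨t, ht, hp⟩ := (hmemA x).mp hx
    exact (claim2 hm hq hE hng B ht hp).1
  have hAarc : ∀ f ∈ F, o.tail f ∈ A → H.isEdge f = false := by
    intro f hf hx
    obtain ⟨t, ht, hp⟩ := (hmemA _).mp hx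
    exact (claim2 hm hq hE hng B ht hp).2 f hf rfl
  have hclos : ∀ e, H.isEdge e = true → o.tail e ∈ A → o.head e ∈ A := by
    intro e he hx
    by_cases hF : e ∈ F
    · have := hAarc e hF hx
      rw [this] at he
      exact absurd he (by simp)
    · obtain ⟨t, ht, hp⟩ := (hmemA _).mp hx
      exact (hmemA _).mpr ⟨t, ht, hp.tail ⟨e, hF, he, rfl, rfl⟩⟩
  have hAne : A.Nonempty := by
    by_contra h
    rw [Finset.not_nonempty_iff_eq_empty] at h
    have h1 : ∑ v, r v = 0 := by
      apply Finset.sum_eq_zero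
      intro v _
      apply hrA; rw [h]; simp
    rw [B.sum] at h1
    omega
  have hnV : Fintype.card V = q * 2 + 2 := hE.1
  have hAc : A.card ≤ q + 1 := by
    rw [← B.cR]; exact Finset.card_le_card hAR
  -- the complement
  obtain ⟨Y, hY⟩ : ∃ Y : Finset V, Y = univ \ A := ⟨_, rfl⟩
  have hYc : Y.card + A.card = Fintype.card V := by
    rw [hY, Finset.card_sdiff_add_card_eq_card (Finset.subset_univ A)]; rfl
  have hmemY : ∀ x, x ∈ Y ↔ x ∉ A := by
    intro x; rw [hY]; simp
  have hcaught : caught H Y = ∑ y ∈ Y, indeg o y := by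
    unfold indeg caught
    rw [sum_head]
    apply congrArg Finset.card
    apply Finset.filter_congr
    intro e _
    cases he : H.isEdge e
    · simp only [Bool.false_eq_true, false_imp_iff, and_true]
      rcases o.ok e with ⟨_, h4⟩ | ⟨h5, _, _⟩
      · rw [h4]
      · rw [he] at h5; exact absurd h5 (by simp)
    · simp only [true_imp_iff]
      have h1 : o.head e ∈ Y → o.tail e ∈ Y := by
        intro h
        rw [hmemY] at h ⊢
        intro h2
        exact h (hclos e he h2)
      rcases o.ok e with ⟨h3, h4⟩ | ⟨_, h3, h4⟩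
      · rw [← h3, ← h4]
        constructor
        · intro h; exact h.1
        · intro h; exact ⟨h, h1 h⟩
      · rw [← h3, ← h4]
        constructor
        · intro h; exact h.2
        · intro h; exact ⟨h1 h, h⟩
  have hF1 : ∀ y, (F.filter (fun e => o.head e = y)).card = if y ∈ R then 0 else 1 := by
    intro y
    by_cases hy : y ∈ R
    · rw [if_pos hy, Finset.card_eq_zero, Finset.filter_eq_empty_iff]
      intro e he h
      exact B.hR e he (h ▸ hy)
    · rw [if_neg hy, Finset.card_eq_one]
      obtain ⟨f, hf, hfy⟩ := B.hS y hy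
      refine ⟨f, ?_⟩
      ext e
      simp only [Finset.mem_filter, Finset.mem_singleton]
      constructor
      · rintro ⟨he, hey⟩
        exact B.hi e he f hf (hey.trans hfy.symm)
      · rintro rfl
        exact ⟨hf, hfy⟩
  have hindeg : ∀ y, indeg o y + r y + (if y ∈ R then 1 else 0) = k + 1 := by
    intro y
    unfold indeg
    rw [filter_split o.head F y, hF1]
    have := B.deg y
    by_cases hy : y ∈ R
    · simp only [if_pos hy]; omega
    · simp only [if_neg hy]; omega
  have hYR : (∑ y ∈ Y, if y ∈ R then 1 else 0) + A.card = q + 1 := by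
    rw [← Finset.card_filter, ← B.cR]
    have h1 : Y.filter (fun y => y ∈ R) = R \ A := by
      ext y
      simp only [Finset.mem_filter, Finset.mem_sdiff, hmemY]
      exact and_comm
    rw [h1, Finset.card_sdiff_add_card_eq_card hAR]
  have hsumY : ∑ y ∈ Y, indeg o y + (∑ y ∈ Y, if y ∈ R then 1 else 0) = Y.card * (k + 1) := by
    rw [← Finset.sum_add_distrib, ← smul_eq_mul, ← Finset.sum_const]
    apply Finset.sum_congr rfl
    intro y hy
    have h1 := hindeg y
    have h2 := hrA y ((hmemY y).mp hy)
    omega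
  -- `A` is a singleton
  have hA1 : A.card = 1 := by
    by_contra hA1
    have hA2 : 2 ≤ A.card := by
      have := Finset.card_pos.mpr hAne
      omega
    have hYne : Y.Nonempty := by
      rw [← Finset.card_pos]; omega
    have h := hE.2.2.2 Y hYne (by omega)
    rw [hcaught] at h
    have h2 : 2 * ((k + 1) * Y.card) = 2 * (Y.card * (k + 1)) := by ring
    rw [h2, ← hsumY] at h
    omega
  obtain ⟨a, ha⟩ := Finset.card_eq_one.mp hA1
  have haA : a ∈ A := by rw [ha]; simp
  have hra : r a = k := by
    rw [← B.sum]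
    symm
    apply Finset.sum_eq_single a
    · intro v _ hv
      apply hrA
      rw [ha]; simpa using hv
    · intro h; exact absurd (Finset.mem_univ a) h
  obtain ⟨f, hf, hfa⟩ := B.tS a (hAR haA)
  subst hfa
  have hyA : o.head f ∉ A := fun h => B.hR f hf (hAR h)
  have hry := hrA _ hyA
  have hd := B.deg (o.head f)
  rw [hry] at hd
  have hzy := o_ne o f
  have h1 := pair_inner hq hE hzy
  have h2 := innerOut_lt o F {o.tail f, o.head f} hf (by simp) (by simp)
  -- an element with head `y` from outside
  have hex : ∃ e, e ∉ F ∧ o.head e = o.head f ∧ o.tail e ≠ o.tail f := by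
    by_contra hcon
    push Not at hcon
    have hle : ((univ \ F).filter (fun e => o.head e = o.head f)).card ≤
        innerOut H F {o.tail f, o.head f} := by
      rw [← innerOut_eq o]
      apply Finset.card_le_card
      intro e he
      rw [Finset.mem_filter] at he ⊢
      have he1 : e ∉ F := (Finset.mem_sdiff.mp he.1).2
      refine ⟨he.1, ?_, ?_⟩
      · rw [hcon e he1 he.2]; simp
      · rw [he.2]; simp
    omega
  obtain ⟨e, he1, he2, he3⟩ := hex
  obtain ⟨X, hXt, hX1, hX2, hX3⟩ := fact1 hng B hf he1 he2 he3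
  have hpos : 0 < din o.tail o.head (univ \ F) X := by
    unfold din
    apply Finset.card_pos.mpr
    refine ⟨e, ?_⟩
    rw [Finset.mem_filter]
    exact ⟨by simp [he1], hX3, by rw [he2]; exact hX2⟩
  have hrX : r (o.tail f) ≤ ∑ v ∈ X, r v :=
    Finset.single_le_sum (f := r) (fun v _ => Nat.zero_le _) hX1
  unfold Tight at hXt
  omega

end DTwo

theorem sD2 (hm : SMove) : SD2 := by
  intro V I _ _ _ _ H k q hk hq hE hex
  obtain ⟨o, r, F, R, hs, hc⟩ := hex
  by_contra hng
  exact DTwo.main hm hk hq hE hng (DTwo.base hE hng hs hc)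

end ARB
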