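import Mathlib

/-!
# Packing mixed arborescences (MP_1cda34_co): definitions

Mixed graphs, subpartitions, the strict condition of Q1, mixed arborescences and mixed branchings,
and the packing asked for in Q1.
-/

namespace ARB

open Finset

/-- A finite mixed graph with vertex type `V` and element type `I` (edges plus arcs; parallel
elements are allowed, loops are not).  If `isEdge e = true` the element `e` is an undirected edge
with the ends `fst e` and `snd e`; otherwise it is an arc with tail `fst e` and head `snd e`. -/
structure MixedGraph (V I : Type) where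
  fst : I → V
  snd : I → V
  isEdge : I → Bool
  noLoop : ∀ e, fst e ≠ snd e

variable {V I : Type} [Fintype V] [DecidableEq V] [Fintype I] [DecidableEq I]

/-- A subpartition of `V`: a family of pairwise disjoint nonempty subsets of `V`. -/
def IsSubpartition (P : Finset (Finset V)) : Prop :=
  (∀ X ∈ P, X.Nonempty) ∧ ∀ X ∈ P, ∀ Y ∈ P, X ≠ Y → Disjoint X Y

/-- `E(P)`: the edges whose two ends lie in different members of `P ∪ {V ∖ ⋃ P}`. -/
def edgesAcross (H : MixedGraph V I) (P : Finset (Finset V)) : Finset I :=
  univ.filter (fun e => H.isEdge e = true ∧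
    ¬ ∃ X ∈ insert (univ \ P.sup id) P, H.fst e ∈ X ∧ H.snd e ∈ X)

/-- The arcs with tail outside `X` and head in `X`; their number is `d_A^-(X)`. -/
def arcsInto (H : MixedGraph V I) (X : Finset V) : Finset I :=
  univ.filter (fun e => H.isEdge e = false ∧ H.fst e ∉ X ∧ H.snd e ∈ X)

/-- `|E(P)| + ∑_{X ∈ P} d_A^-(X)`. -/
def wt (H : MixedGraph V I) (P : Finset (Finset V)) : ℕ :=
  (edgesAcross H P).card + ∑ X ∈ P, (arcsInto H X).card

/-- The condition of Q1: for every subpartition `P` with at least two members,
`(|E(P)| + ∑_{X ∈ P} d_A^-(X)) / (|P| - 1) > k + (d - 1) / d`. -/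
def StrictCond (H : MixedGraph V I) (k d : ℕ) : Prop :=
  ∀ P : Finset (Finset V), IsSubpartition P → 2 ≤ P.card →
    (k : ℚ) + ((d : ℚ) - 1) / d < (wt H P : ℚ) / ((P.card : ℚ) - 1)

/-- An orientation of (all elements of) a mixed graph: arcs keep their direction, every edge gets
one of its two directions. -/
structure Orientation (H : MixedGraph V I) where
  tail : I → V
  head : I → V
  ok : ∀ e, (tail e = H.fst e ∧ head e = H.snd e) ∨
    (H.isEdge e = true ∧ tail e = H.snd e ∧ head e = H.fst e)

/-- Directed walks from `x` to `y` that use elements of `J`, as lists of elements. -/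
inductive DWalk (tail head : I → V) (J : Finset I) : V → V → List I → Prop
  | nil (x : V) : DWalk tail head J x x []
  | cons {x y : V} {l : List I} {e : I} : e ∈ J → tail e = x →
      DWalk tail head J (head e) y l → DWalk tail head J x y (e :: l)

/-- `x` and `y` are joined by elements of `J` (directions are ignored). -/
def Joined (a b : I → V) (J : Finset I) (x y : V) : Prop :=
  Relation.EqvGen (fun x y => ∃ e ∈ J, a e = x ∧ b e = y) x y

/-- The digraph with vertex set `C` and arc set `J` is an `r`-arborescence: its underlying graph is
a tree (connected, with `|C| - 1` elements) and there is exactly one directed path from `r` to each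
vertex (in a tree every directed walk is a path). -/
def IsArborescence (tail head : I → V) (C : Finset V) (J : Finset I) (r : V) : Prop :=
  r ∈ C ∧ (∀ e ∈ J, tail e ∈ C ∧ head e ∈ C) ∧
  (∀ x ∈ C, ∀ y ∈ C, Joined tail head J x y) ∧ J.card + 1 = C.card ∧
  ∀ y ∈ C, ∃! l : List I, DWalk tail head J r y l

/-- `J` is (the element set of) a spanning mixed arborescence: its edges can be oriented so that
the result is an arborescence with vertex set `V`. -/
def IsSpanningMixedArborescence (H : MixedGraph V I) (J : Finset I) : Prop :=
  ∃ (o : Orientation H) (r : V), IsArborescence o.tail o.head univ J r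

open Classical in
/-- The vertex set of the component of `(V, J)` that contains `v`. -/
noncomputable def compVerts (H : MixedGraph V I) (J : Finset I) (v : V) : Finset V :=
  univ.filter (fun x => Joined H.fst H.snd J v x)

open Classical in
/-- The elements of the component of `(V, J)` that contains `v`. -/
noncomputable def compElems (H : MixedGraph V I) (J : Finset I) (v : V) : Finset I :=
  J.filter (fun e => Joined H.fst H.snd J v (H.fst e))

/-- `J` is (the element set of) a mixed branching (with vertex set `V`): its edges can be oriented
so that every component of the result is an arborescence. -/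
def IsMixedBranching (H : MixedGraph V I) (J : Finset I) : Prop :=
  ∃ o : Orientation H, ∀ v : V, ∃ r : V,
    IsArborescence o.tail o.head (compVerts H J v) (compElems H J v) r

/-- `T_1, …, T_k` are spanning mixed arborescences, `F` is a mixed branching, all pairwise edge-
and arc-disjoint. -/
def IsPacking (H : MixedGraph V I) {k : ℕ} (T : Fin k → Finset I) (F : Finset I) : Prop :=
  (∀ i, IsSpanningMixedArborescence H (T i)) ∧ IsMixedBranching H F ∧
  (∀ i j, i ≠ j → Disjoint (T i) (T j)) ∧ (∀ i, Disjoint (T i) F)

/-- The size condition `|E(F)| + |A(F)| > (d - 1) / d * (|V| - 1)`. -/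
def SizeCond (V : Type) [Fintype V] {I : Type} (F : Finset I) (d : ℕ) : Prop :=
  ((d : ℚ) - 1) / d * ((Fintype.card V : ℚ) - 1) < (F.card : ℚ)

/-- If `F` is not a spanning mixed arborescence, then some component of `F` contains at least `d`
elements. -/
def CompCond (H : MixedGraph V I) (F : Finset I) (d : ℕ) : Prop :=
  ¬ IsSpanningMixedArborescence H F → ∃ v : V, d ≤ (compElems H F v).card

/-- The conclusion of Q1. -/
def HasPacking (H : MixedGraph V I) (k d : ℕ) : Prop :=
  ∃ (T : Fin k → Finset I) (F : Finset I), IsPacking H T F ∧ SizeCond V F d ∧ CompCond H F d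

end ARB
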