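import Pool.Agent.H22.ARB.Stm

/-!
# Packing mixed arborescences (MP_1cda34_co): Edmonds' disjoint branchings
-/

namespace ARB

open Finset

private theorem edm_mono {V : Type} [DecidableEq V] {m : ℕ} (R : Fin m → Finset V)
    {X Y : Finset V} (h : Y ⊆ X) :
    (univ.filter (fun i => Disjoint (R i) X)).card ≤
      (univ.filter (fun i => Disjoint (R i) Y)).card := by
  refine card_le_card ?_
  intro i hi
  rw [mem_filter] at hi ⊢
  exact ⟨hi.1, hi.2.mono_right h⟩

private theorem edm_super {V : Type} [DecidableEq V] {m : ℕ} (R : Fin m → Finset V)
    (X Y : Finset V) :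
    (univ.filter (fun i => Disjoint (R i) X)).card + (univ.filter (fun i => Disjoint (R i) Y)).card ≤
      (univ.filter (fun i => Disjoint (R i) (X ∩ Y))).card +
        (univ.filter (fun i => Disjoint (R i) (X ∪ Y))).card := by
  rw [← card_union_add_card_inter]
  refine Nat.add_le_add (card_le_card ?_) (card_le_card ?_)
  · intro i hi
    rw [mem_union, mem_filter, mem_filter] at hi
    rw [mem_filter]
    rcases hi with hi | hi
    · exact ⟨hi.1, hi.2.mono_right inter_subset_left⟩
    · exact ⟨hi.1, hi.2.mono_right inter_subset_right⟩
  · intro i hi
    rw [mem_inter, mem_filter, mem_filter] at hi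
    rw [mem_filter]
    exact ⟨hi.1.1, disjoint_union_right.mpr ⟨hi.1.2, hi.2.2⟩⟩

private theorem edm_succ {V : Type} [DecidableEq V] {m : ℕ} (R : Fin (m + 1) → Finset V)
    (X : Finset V) :
    (univ.filter (fun i => Disjoint (R i) X)).card =
      (univ.filter (fun i : Fin m => Disjoint (R i.succ) X)).card +
        (if Disjoint (R 0) X then 1 else 0) := by
  rw [Fin.card_filter_univ_succ (fun i => Disjoint (R i) X)]
  split_ifs with h <;> simp

theorem sEdm (hG : SGrow) : SEdm := by
  intro V I _ _ _ _ tl hd J m R hR hcut
  induction m generalizing J with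
  | zero =>
    exact ⟨fun i => i.elim0, fun i => i.elim0, fun i => i.elim0, fun i => i.elim0⟩
  | succ m ih =>
    have hle : ∀ X : Finset V, X.Nonempty →
        (univ.filter (fun i : Fin m => Disjoint (R i.succ) X)).card +
          (if Disjoint (R 0) X then 1 else 0) ≤ din tl hd J X := by
      intro X hX
      have h := hcut X hX
      rwa [edm_succ] at h
    obtain ⟨F0, hF0J, hbr, hrest⟩ := hG V I tl hd J
      (fun X => ((univ.filter (fun i : Fin m => Disjoint (R i.succ) X)).card : ℤ)) (R 0) univ
      (subset_univ _)
      (by
        intro X Y _
        have h := edm_super (fun i : Fin m => R i.succ) X Y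
        exact_mod_cast h)
      (by
        intro X hX
        have h := hle X hX
        have h2 : (univ.filter (fun i : Fin m => Disjoint (R i.succ) X)).card ≤ din tl hd J X :=
          le_trans (Nat.le_add_right _ _) h
        exact_mod_cast h2)
      (by
        intro S hS hSU
        have hne : (univ \ S).Nonempty := by
          rw [sdiff_nonempty]
          exact fun h => hSU.2 h
        have hdis : Disjoint (R 0) (univ \ S) := disjoint_sdiff.mono_left hS
        have h := hle _ hne
        rw [if_pos hdis] at h
        have hpos : 0 < din tl hd J (univ \ S) := by omega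
        unfold din at hpos
        obtain ⟨e, he⟩ := card_pos.mp hpos
        rw [mem_filter] at he
        refine ⟨e, he.1, ?_, he.2.2⟩
        have h3 := he.2.1
        rw [mem_sdiff, not_and, not_not] at h3
        exact h3 (mem_univ _))
      (by
        intro S X F hS hSU hFJ hF hne heq
        by_contra hcon
        push Not at hcon
        have hdis : Disjoint (R 0) (X ∩ (univ \ S)) :=
          (disjoint_sdiff.mono_left hS).mono_right inter_subset_right
        have h := hle _ hne
        rw [if_pos hdis] at h
        have h1 := edm_mono (fun i : Fin m => R i.succ)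
          (inter_subset_left : X ∩ (univ \ S) ⊆ X)
        have h2 : din tl hd J (X ∩ (univ \ S)) ≤ din tl hd (J \ F) X := by
          unfold din
          refine card_le_card ?_
          intro e he
          rw [mem_filter] at he ⊢
          obtain ⟨heJ, ht, hh⟩ := he
          have hhX : hd e ∈ X := (mem_inter.mp hh).1
          have hhS : hd e ∉ S := (mem_sdiff.mp (mem_inter.mp hh).2).2
          refine ⟨mem_sdiff.mpr ⟨heJ, fun heF => hhS (hF e heF).2⟩, ?_, hhX⟩
          intro htX
          by_cases htS : tl e ∈ S
          · exact hcon e heJ (mem_inter.mpr ⟨htX, htS⟩) hh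
          · exact ht (mem_inter.mpr ⟨htX, mem_sdiff.mpr ⟨mem_univ _, htS⟩⟩)
        have h3 : din tl hd (J \ F) X =
            (univ.filter (fun i : Fin m => Disjoint (R i.succ) X)).card := by
          exact_mod_cast heq
        omega)
    obtain ⟨F', hF'J, hF'd, hF'br⟩ := ih (J \ F0) (fun i => R i.succ) (fun i => hR i.succ)
      (by
        intro X hX
        have h := hrest X hX
        exact_mod_cast h)
    refine ⟨Fin.cons F0 F', ?_, ?_, ?_⟩
    · intro i
      refine Fin.cases ?_ (fun i => ?_) i
      · simpa using hF0J
      · simpa using (hF'J i).trans sdiff_subset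
    · intro i j
      refine Fin.cases ?_ (fun i => ?_) i
      · refine Fin.cases ?_ (fun j => ?_) j
        · intro h
          exact absurd rfl h
        · intro _
          rw [Fin.cons_zero, Fin.cons_succ]
          exact (disjoint_sdiff.mono_right (hF'J j))
      · refine Fin.cases ?_ (fun j => ?_) j
        · intro _
          rw [Fin.cons_zero, Fin.cons_succ]
          exact (disjoint_sdiff.mono_right (hF'J i)).symm
        · intro h
          rw [Fin.cons_succ, Fin.cons_succ]
          exact hF'd i j (fun h' => h (by rw [h']))
    · intro i
      refine Fin.cases ?_ (fun i => ?_) i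
      · simpa using hbr
      · simpa using hF'br i

end ARB
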