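import Pool.Agent.H22.ARB.Stm

/-!
# ARB-X: reduction to the exact case for `|V| = q d + 2`
-/

namespace ARB

open Finset

namespace ExactRow

variable {V I : Type} [Fintype V] [DecidableEq V] [Fintype I] [DecidableEq I]

/-- singletons of the members of `A`. -/
def sgl (A : Finset V) : Finset (Finset V) := A.image (fun v => ({v} : Finset V))

theorem mem_sgl {A : Finset V} {X : Finset V} : X ∈ sgl A ↔ ∃ v ∈ A, X = {v} := by
  unfold sgl
  rw [Finset.mem_image]
  constructor
  · rintro ⟨v, hv, rfl⟩
    exact ⟨v, hv, rfl⟩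
  · rintro ⟨v, hv, rfl⟩
    exact ⟨v, hv, rfl⟩

theorem card_sgl (A : Finset V) : (sgl A).card = A.card := by
  unfold sgl
  exact Finset.card_image_of_injective _ Finset.singleton_injective

theorem sub_sgl (A : Finset V) : IsSubpartition (sgl A) := by
  refine ⟨?_, ?_⟩
  · intro X hX
    obtain ⟨v, _, rfl⟩ := mem_sgl.1 hX
    exact Finset.singleton_nonempty v
  · intro X hX Y hY hXY
    obtain ⟨v, _, rfl⟩ := mem_sgl.1 hX
    obtain ⟨w, _, rfl⟩ := mem_sgl.1 hY
    rw [Finset.disjoint_singleton]
    rintro rfl
    exact hXY rfl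

theorem mem_ea (H : MixedGraph V I) (P : Finset (Finset V)) (e : I) :
    e ∈ edgesAcross H P ↔ (H.isEdge e = true ∧
      ¬ ∃ X ∈ insert (univ \ P.sup id) P, H.fst e ∈ X ∧ H.snd e ∈ X) := by
  unfold edgesAcross
  simp only [Finset.mem_filter, Finset.mem_univ, true_and]

theorem mem_ai (H : MixedGraph V I) (X : Finset V) (e : I) :
    e ∈ arcsInto H X ↔ (H.isEdge e = false ∧ H.fst e ∉ X ∧ H.snd e ∈ X) := by
  unfold arcsInto
  simp only [Finset.mem_filter, Finset.mem_univ, true_and]

theorem mem_ca (H : MixedGraph V I) (Y : Finset V) (e : I) :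
    e ∈ univ.filter (fun e => H.snd e ∈ Y ∧ (H.isEdge e = true → H.fst e ∈ Y)) ↔
      (H.snd e ∈ Y ∧ (H.isEdge e = true → H.fst e ∈ Y)) := by
  simp only [Finset.mem_filter, Finset.mem_univ, true_and]

theorem mem_in (H : MixedGraph V I) (X : Finset V) (e : I) :
    e ∈ univ.filter (fun e => H.fst e ∈ X ∧ H.snd e ∈ X) ↔ (H.fst e ∈ X ∧ H.snd e ∈ X) := by
  simp only [Finset.mem_filter, Finset.mem_univ, true_and]

/-- the set counted by the weight. -/
noncomputable def cset (H : MixedGraph V I) (P : Finset (Finset V)) : Finset I :=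
  edgesAcross H P ∪ P.biUnion (fun X => arcsInto H X)

theorem mem_cset (H : MixedGraph V I) (P : Finset (Finset V)) (e : I) :
    e ∈ cset H P ↔ ((H.isEdge e = true ∧
      ¬ ∃ X ∈ insert (univ \ P.sup id) P, H.fst e ∈ X ∧ H.snd e ∈ X) ∨
      (H.isEdge e = false ∧ ∃ X ∈ P, H.fst e ∉ X ∧ H.snd e ∈ X)) := by
  unfold cset
  rw [Finset.mem_union, mem_ea, Finset.mem_biUnion]
  constructor
  · rintro (h | ⟨X, hX, h⟩)
    · exact Or.inl h
    · rw [mem_ai] at h
      exact Or.inr ⟨h.1, X, hX, h.2⟩
  · rintro (h | ⟨h, X, hX, h'⟩)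
    · exact Or.inl h
    · exact Or.inr ⟨X, hX, (mem_ai H X e).2 ⟨h, h'⟩⟩

/-- counting form of the weight. -/
theorem wt_eq (H : MixedGraph V I) (P : Finset (Finset V)) (hP : IsSubpartition P) :
    wt H P = (cset H P).card := by
  have h1 : ∑ X ∈ P, (arcsInto H X).card = (P.biUnion (fun X => arcsInto H X)).card := by
    rw [Finset.card_biUnion]
    intro X hX Y hY hXY
    refine Finset.disjoint_left.2 ?_
    intro e he he'
    rw [mem_ai] at he he'
    exact (Finset.disjoint_left.1 (hP.2 X hX Y hY hXY)) he.2.2 he'.2.2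
  unfold wt cset
  rw [h1, Finset.card_union_of_disjoint]
  refine Finset.disjoint_left.2 ?_
  intro e he he'
  rw [mem_ea] at he
  rw [Finset.mem_biUnion] at he'
  obtain ⟨X, _, h⟩ := he'
  rw [mem_ai, he.1] at h
  exact absurd h.1 (by simp)

theorem sup_sgl (A : Finset V) : (sgl A).sup id = A := by
  ext v
  rw [Finset.mem_sup]
  constructor
  · rintro ⟨X, hX, hv⟩
    obtain ⟨w, hw, rfl⟩ := mem_sgl.1 hX
    rw [id, Finset.mem_singleton] at hv
    rw [hv]
    exact hw
  · intro hv
    exact ⟨{v}, mem_sgl.2 ⟨v, hv, rfl⟩, Finset.mem_singleton_self v⟩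

/-- weight of the family of the singletons of the complement of `Y`. -/
theorem wt_sgl (H : MixedGraph V I) (Y : Finset V) :
    wt H (sgl (univ \ Y)) + caught H Y = Fintype.card I := by
  rw [wt_eq H _ (sub_sgl _)]
  unfold caught
  rw [← Finset.card_union_of_disjoint]
  · rw [← Finset.card_univ]
    congr 1
    ext e
    rw [Finset.mem_union, mem_cset, mem_ca]
    simp only [Finset.mem_univ, iff_true]
    rw [sup_sgl]
    have hY : univ \ (univ \ Y) = Y := by
      ext v
      simp
    rw [hY]
    by_cases hE : H.isEdge e = true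
    · by_cases hin : H.fst e ∈ Y ∧ H.snd e ∈ Y
      · right
        exact ⟨hin.2, fun _ => hin.1⟩
      · left
        left
        refine ⟨hE, ?_⟩
        rintro ⟨X, hX, h1, h2⟩
        rw [Finset.mem_insert] at hX
        rcases hX with rfl | hX
        · exact hin ⟨h1, h2⟩
        · obtain ⟨w, _, rfl⟩ := mem_sgl.1 hX
          rw [Finset.mem_singleton] at h1 h2
          exact H.noLoop e (h1.trans h2.symm)
    · have hE' : H.isEdge e = false := by simpa using hE
      by_cases hs : H.snd e ∈ Y
      · right
        exact ⟨hs, fun h => absurd h hE⟩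
      · left
        right
        refine ⟨hE', {H.snd e}, mem_sgl.2 ⟨H.snd e, ?_, rfl⟩, ?_, Finset.mem_singleton_self _⟩
        · simp [hs]
        · rw [Finset.mem_singleton]
          exact H.noLoop e
  · refine Finset.disjoint_left.2 ?_
    intro e he he'
    rw [mem_cset] at he
    rw [mem_ca] at he'
    have hY : univ \ (univ \ Y) = Y := by
      ext v
      simp
    rw [sup_sgl, hY] at he
    rcases he with h | h
    · exact h.2 ⟨Y, Finset.mem_insert_self _ _, he'.2 h.1, he'.1⟩
    · obtain ⟨X, hX, _, h2⟩ := h.2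
      obtain ⟨w, hw, rfl⟩ := mem_sgl.1 hX
      rw [Finset.mem_singleton] at h2
      rw [← h2, Finset.mem_sdiff] at hw
      exact hw.2 he'.1

/-- weight of the family `X`, singletons of the complement of `X`. -/
theorem wt_ins (H : MixedGraph V I) (X : Finset V) (hX : X.Nonempty) :
    IsSubpartition (insert X (sgl (univ \ X))) ∧
    (insert X (sgl (univ \ X))).card + X.card = Fintype.card V + 1 ∧
    wt H (insert X (sgl (univ \ X))) + inner H X = Fintype.card I := by
  have hnot : X ∉ sgl (univ \ X) := by
    intro h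
    obtain ⟨w, hw, hXw⟩ := mem_sgl.1 h
    rw [Finset.mem_sdiff] at hw
    apply hw.2
    rw [hXw]
    exact Finset.mem_singleton_self w
  have hsub : IsSubpartition (insert X (sgl (univ \ X))) := by
    have hd : ∀ Y ∈ sgl (univ \ X), Disjoint X Y := by
      intro Y hY
      obtain ⟨w, hw, rfl⟩ := mem_sgl.1 hY
      rw [Finset.mem_sdiff] at hw
      rw [Finset.disjoint_singleton_right]
      exact hw.2
    refine ⟨?_, ?_⟩
    · intro Y hY
      rw [Finset.mem_insert] at hY
      rcases hY with rfl | hY
      · exact hX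
      · exact (sub_sgl _).1 Y hY
    · intro Y hY Z hZ hYZ
      rw [Finset.mem_insert] at hY hZ
      rcases hY with rfl | hY
      · rcases hZ with rfl | hZ
        · exact absurd rfl hYZ
        · exact hd Z hZ
      · rcases hZ with rfl | hZ
        · exact (hd Y hY).symm
        · exact (sub_sgl _).2 Y hY Z hZ hYZ
  refine ⟨hsub, ?_, ?_⟩
  · rw [Finset.card_insert_of_notMem hnot, card_sgl, ← Finset.card_univ,
      Finset.card_sdiff_of_subset (Finset.subset_univ X)]
    have := Finset.card_le_univ X
    rw [← Finset.card_univ] at this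
    omega
  · rw [wt_eq H _ hsub]
    unfold inner
    rw [← Finset.card_union_of_disjoint]
    · rw [← Finset.card_univ]
      congr 1
      ext e
      rw [Finset.mem_union, mem_cset, mem_in]
      simp only [Finset.mem_univ, iff_true]
      have hsup : (insert X (sgl (univ \ X))).sup id = univ := by
        rw [Finset.sup_insert, sup_sgl]
        ext v
        by_cases hv : v ∈ X
        · simp [hv]
        · simp [hv]
      rw [hsup]
      by_cases hin : H.fst e ∈ X ∧ H.snd e ∈ X
      · right
        exact hin
      · left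
        by_cases hE : H.isEdge e = true
        · left
          refine ⟨hE, ?_⟩
          rintro ⟨Z, hZ, h1, h2⟩
          rw [Finset.mem_insert, Finset.mem_insert] at hZ
          rcases hZ with rfl | rfl | hZ
          · simp at h1
          · exact hin ⟨h1, h2⟩
          · obtain ⟨w, _, rfl⟩ := mem_sgl.1 hZ
            rw [Finset.mem_singleton] at h1 h2
            exact H.noLoop e (h1.trans h2.symm)
        · right
          have hE' : H.isEdge e = false := by simpa using hE
          refine ⟨hE', ?_⟩
          by_cases hs : H.snd e ∈ X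
          · exact ⟨X, Finset.mem_insert_self _ _, fun h => hin ⟨h, hs⟩, hs⟩
          · refine ⟨{H.snd e}, Finset.mem_insert_of_mem (mem_sgl.2 ⟨H.snd e, ?_, rfl⟩), ?_,
              Finset.mem_singleton_self _⟩
            · simp [hs]
            · rw [Finset.mem_singleton]
              exact H.noLoop e
    · refine Finset.disjoint_left.2 ?_
      intro e he he'
      rw [mem_cset] at he
      rw [mem_in] at he'
      rcases he with h | h
      · exact h.2 ⟨X, Finset.mem_insert_of_mem (Finset.mem_insert_self _ _), he'.1, he'.2⟩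
      · obtain ⟨Z, hZ, h1, h2⟩ := h.2
        rw [Finset.mem_insert] at hZ
        rcases hZ with rfl | hZ
        · exact h1 he'.1
        · obtain ⟨w, hw, rfl⟩ := mem_sgl.1 hZ
          rw [Finset.mem_singleton] at h2
          rw [← h2, Finset.mem_sdiff] at hw
          exact hw.2 he'.2

/-- integer form of the strict condition. -/
theorem strict_int (H : MixedGraph V I) (k d : ℕ) (hd : 1 ≤ d) (hS : StrictCond H k d)
    (P : Finset (Finset V)) (hP : IsSubpartition P) (h2 : 2 ≤ P.card) :
    (((k : ℤ) + 1) * d - 1) * ((P.card : ℤ) - 1) + 1 ≤ (d : ℤ) * (wt H P : ℤ) := by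
  have h := hS P hP h2
  have hd' : (0 : ℚ) < d := by exact_mod_cast hd
  have hp' : (0 : ℚ) < (P.card : ℚ) - 1 := by
    have : (2 : ℚ) ≤ (P.card : ℚ) := by exact_mod_cast h2
    linarith
  rw [lt_div_iff₀ hp'] at h
  have h3 : ((k : ℚ) + ((d : ℚ) - 1) / d) * ((P.card : ℚ) - 1) * d < (wt H P : ℚ) * d := by
    exact mul_lt_mul_of_pos_right h hd'
  have h4 : ((k : ℚ) + ((d : ℚ) - 1) / d) * ((P.card : ℚ) - 1) * d =
      ((((k : ℚ) + 1) * d - 1) * ((P.card : ℚ) - 1)) := by
    field_simp
    ring
  rw [h4] at h3
  have h5 : (((((k : ℤ) + 1) * d - 1) * ((P.card : ℤ) - 1) : ℤ) : ℚ) <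
      (((d : ℤ) * (wt H P : ℤ) : ℤ) : ℚ) := by
    push_cast
    linarith
  have h6 : (((k : ℤ) + 1) * d - 1) * ((P.card : ℤ) - 1) < (d : ℤ) * (wt H P : ℤ) := by
    exact_mod_cast h5
  omega

/-- number of members of a subpartition. -/
theorem card_sub (P : Finset (Finset V)) (hP : IsSubpartition P) :
    P.card ≤ Fintype.card V ∧ (P.card = Fintype.card V → P = sgl univ) := by
  have h1 : (P.biUnion id).card = ∑ X ∈ P, X.card := by
    rw [Finset.card_biUnion]
    · rfl
    · intro X hX Y hY hXY
      exact hP.2 X hX Y hY hXY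
  have h2 : ∑ X ∈ P, X.card ≤ Fintype.card V := by
    rw [← h1]
    exact Finset.card_le_univ _
  have h3 : P.card ≤ ∑ X ∈ P, X.card := by
    rw [Finset.card_eq_sum_ones]
    exact Finset.sum_le_sum (fun X hX => Finset.card_pos.2 (hP.1 X hX))
  refine ⟨h3.trans h2, ?_⟩
  intro hc
  have h4 : ∀ X ∈ P, X.card = 1 := by
    intro X hX
    by_contra hne
    have h5 : 1 < X.card := by
      have := Finset.card_pos.2 (hP.1 X hX)
      omega
    have h6 : P.card < ∑ X ∈ P, X.card := by
      rw [Finset.card_eq_sum_ones]
      exact Finset.sum_lt_sum (fun Y hY => Finset.card_pos.2 (hP.1 Y hY)) ⟨X, hX, h5⟩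
    omega
  apply Finset.eq_of_subset_of_card_le
  · intro X hX
    obtain ⟨v, hv⟩ := Finset.card_eq_one.1 (h4 X hX)
    exact mem_sgl.2 ⟨v, Finset.mem_univ v, hv⟩
  · rw [card_sgl, Finset.card_univ, hc]

theorem caught_empty (H : MixedGraph V I) : caught H ∅ = 0 := by
  unfold caught
  rw [Finset.card_eq_zero, Finset.filter_eq_empty_iff]
  intro e _ h
  exact absurd h.1 (Finset.notMem_empty _)

theorem wt_univ (H : MixedGraph V I) : wt H (sgl univ) = Fintype.card I := by
  have h := wt_sgl H ∅
  rw [caught_empty, Finset.sdiff_empty] at h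
  omega

end ExactRow

open ExactRow

theorem sExact (hSz : SSize) : SExact := by
  intro V I _ _ _ _ H k d q hd hq hn hS
  haveI : Nonempty V := by
    rw [← Fintype.card_pos_iff]
    omega
  -- the family of all singletons
  have hI : (k + 1) * (Fintype.card V - 1) ≤ Fintype.card I + q := by
    have h := strict_int H k d hd hS (sgl univ) (sub_sgl _)
      (by rw [card_sgl, Finset.card_univ]; omega)
    rw [wt_univ, card_sgl, Finset.card_univ, hn] at h
    rw [hn]
    have h1 : ((q * d + 2 : ℕ) : ℤ) - 1 = (q : ℤ) * d + 1 := by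
      push_cast
      ring
    rw [h1] at h
    have h2 : (d : ℤ) * (((k : ℤ) + 1) * ((q : ℤ) * d + 1)) ≤ d * ((Fintype.card I : ℤ) + q) := by
      nlinarith
    have h3 : ((k : ℤ) + 1) * ((q : ℤ) * d + 1) ≤ (Fintype.card I : ℤ) + q := by
      have hd' : (0 : ℤ) < d := by exact_mod_cast hd
      exact le_of_mul_le_mul_left h2 hd'
    have h4 : q * d + 2 - 1 = q * d + 1 := by omega
    rw [h4]
    exact_mod_cast h3
  have hd0 : (0 : ℝ) < d := by exact_mod_cast hd
  have hd1 : (1 : ℝ) ≤ d := by exact_mod_cast hd
  have hq1 : (1 : ℝ) ≤ q := by exact_mod_cast hq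
  have hnR : (Fintype.card V : ℝ) = (q : ℝ) * d + 2 := by
    rw [hn]
    push_cast
    ring
  -- real form of the strict condition
  have hreal : ∀ P : Finset (Finset V), IsSubpartition P → 2 ≤ P.card →
      (((k : ℝ) + 1) * d - 1) * ((P.card : ℝ) - 1) + 1 ≤ (d : ℝ) * (wt H P : ℝ) := by
    intro P hP h2
    have h := strict_int H k d hd hS P hP h2
    have h' : (((((k : ℤ) + 1) * d - 1) * ((P.card : ℤ) - 1) + 1 : ℤ) : ℝ) ≤
        (((d : ℤ) * (wt H P : ℤ) : ℤ) : ℝ) := by
      exact_mod_cast h
    push_cast at h'
    linarith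
  rcases Nat.lt_or_ge ((k + 1) * (Fintype.card V - 1)) (Fintype.card I + q) with hB | hA
  · -- Case B
    left
    have hQ0 : (0 : ℝ) ≤ (q : ℝ) - 1 := by linarith
    have hden : (0 : ℝ) < ((q : ℝ) - 1) * d + 1 := by
      have := mul_nonneg hQ0 hd0.le
      linarith
    obtain ⟨o, r, F, R, hsol, hR⟩ := hSz V I H k (((q : ℝ) - 1) / (((q : ℝ) - 1) * d + 1))
      (div_nonneg hQ0 hden.le)
      (by
        rw [div_le_one hden]
        nlinarith)
      (by
        have h1 : ((q : ℝ) - 1) / (((q : ℝ) - 1) * d + 1) < 1 := by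
          rw [div_lt_one hden]
          nlinarith
        have h2 : (0 : ℝ) ≤ k := Nat.cast_nonneg k
        linarith)
      (by
        intro P hP hPne
        have hp1 : 1 ≤ P.card := Finset.card_pos.2 hPne
        have hwt0 : (0 : ℝ) ≤ (wt H P : ℝ) := Nat.cast_nonneg _
        set θ : ℝ := ((q : ℝ) - 1) / (((q : ℝ) - 1) * d + 1) with hθ
        have hθ0 : 0 ≤ θ := div_nonneg hQ0 hden.le
        have hθm : θ * (((q : ℝ) - 1) * d + 1) = (q : ℝ) - 1 := by
          rw [hθ]
          field_simp
        rcases Nat.lt_or_ge P.card 2 with h2 | h2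
        · have h3 : P.card = 1 := by omega
          rw [h3]
          simp
        rcases Nat.lt_or_ge P.card (Fintype.card V) with hlt | hge
        · -- p < n
          have hint := strict_int H k d hd hS P hP h2
          set j : ℕ := (P.card - 2) / d with hj
          have hj1 : j * d ≤ P.card - 2 := Nat.div_mul_le_self _ _
          have hj2 : j ≤ q - 1 := by
            have h5 : (P.card - 2) / d < q := by
              rw [Nat.div_lt_iff_lt_mul (by omega : 0 < d)]
              omega
            omega
          have hj3 : P.card - 2 < (j + 1) * d := by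
            have := Nat.lt_succ_iff.1 (Nat.lt_succ_self j)
            rw [hj]
            have h6 := Nat.lt_div_mul_add (show 0 < d by omega) (a := P.card - 2)
            rw [Nat.add_mul, one_mul]
            exact h6
          -- integer lower bound
          have hw : ((k : ℤ) + 1) * ((P.card : ℤ) - 1) - j ≤ (wt H P : ℤ) := by
            by_contra hcon
            push Not at hcon
            have h7 : (wt H P : ℤ) + 1 ≤ ((k : ℤ) + 1) * ((P.card : ℤ) - 1) - j := by omega
            have hdz : (0 : ℤ) ≤ d := by positivity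
            have h8 : (d : ℤ) * ((wt H P : ℤ) + 1) ≤
                d * (((k : ℤ) + 1) * ((P.card : ℤ) - 1) - j) :=
              mul_le_mul_of_nonneg_left h7 hdz
            have h9 : ((P.card : ℤ) - 2) < ((j : ℤ) + 1) * d := by
              have h10 : ((P.card - 2 : ℕ) : ℤ) < (((j + 1) * d : ℕ) : ℤ) := by
                exact_mod_cast hj3
              rw [Nat.cast_sub h2] at h10
              push_cast at h10
              linarith
            nlinarith
          have hwR : ((k : ℝ) + 1) * ((P.card : ℝ) - 1) - j ≤ (wt H P : ℝ) := by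
            have h' : (((((k : ℤ) + 1) * ((P.card : ℤ) - 1) - j : ℤ)) : ℝ) ≤
                ((wt H P : ℤ) : ℝ) := by
              exact_mod_cast hw
            push_cast at h'
            linarith
          have hjR : (j : ℝ) ≤ (q : ℝ) - 1 := by
            have h11 : ((j + 1 : ℕ) : ℝ) ≤ (q : ℝ) := by
              exact_mod_cast (by omega : j + 1 ≤ q)
            push_cast at h11
            linarith
          have hpR : (j : ℝ) * d + 1 ≤ (P.card : ℝ) - 1 := by
            have h12 : ((j * d + 2 : ℕ) : ℝ) ≤ (P.card : ℝ) := by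
              exact_mod_cast (by omega : j * d + 2 ≤ P.card)
            push_cast at h12
            linarith
          -- j ≤ θ (j d + 1)
          have hjt : (j : ℝ) ≤ θ * ((j : ℝ) * d + 1) := by
            have h13 : (j : ℝ) * (((q : ℝ) - 1) * d + 1) ≤ ((q : ℝ) - 1) * ((j : ℝ) * d + 1) := by
              nlinarith
            have h14 : (j : ℝ) * (((q : ℝ) - 1) * d + 1) ≤
                (θ * ((j : ℝ) * d + 1)) * (((q : ℝ) - 1) * d + 1) := by
              calc (j : ℝ) * (((q : ℝ) - 1) * d + 1) ≤ ((q : ℝ) - 1) * ((j : ℝ) * d + 1) := h13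
                _ = (θ * (((q : ℝ) - 1) * d + 1)) * ((j : ℝ) * d + 1) := by rw [hθm]
                _ = (θ * ((j : ℝ) * d + 1)) * (((q : ℝ) - 1) * d + 1) := by ring
            exact le_of_mul_le_mul_right h14 hden
          have h15 : θ * ((j : ℝ) * d + 1) ≤ θ * ((P.card : ℝ) - 1) :=
            mul_le_mul_of_nonneg_left hpR hθ0
          nlinarith
        · -- p = n
          have hcs := card_sub P hP
          have hpn : P.card = Fintype.card V := le_antisymm hcs.1 hge
          have hPs := hcs.2 hpn
          rw [hPs, wt_univ, card_sgl, Finset.card_univ, hnR]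
          have hB' : (k + 1) * (q * d + 1) + 1 ≤ Fintype.card I + q := by
            rw [hn] at hB
            have h4 : q * d + 2 - 1 = q * d + 1 := by omega
            rw [h4] at hB
            omega
          have hBR : ((k : ℝ) + 1) * ((q : ℝ) * d + 1) + 1 ≤ (Fintype.card I : ℝ) + q := by
            exact_mod_cast hB'
          have h16 : (q : ℝ) - 1 ≤ θ * ((q : ℝ) * d + 1) := by
            calc (q : ℝ) - 1 = θ * (((q : ℝ) - 1) * d + 1) := hθm.symm
              _ ≤ θ * ((q : ℝ) * d + 1) := by
                apply mul_le_mul_of_nonneg_left _ hθ0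
                nlinarith
          nlinarith)
    refine ⟨o, r, F, R, hsol, ?_⟩
    have h17 : ((q : ℝ) - 1) / (((q : ℝ) - 1) * d + 1) * ((Fintype.card V : ℝ) - 1) < q := by
      rw [hnR, div_mul_eq_mul_div, div_lt_iff₀ hden]
      nlinarith
    have h18 : (R.card : ℝ) < (q : ℝ) + 1 := by linarith
    have h19 : R.card < q + 1 := by exact_mod_cast h18
    omega
  · -- Case A
    have hIq : Fintype.card I + q = (k + 1) * (Fintype.card V - 1) := le_antisymm hA hI
    have hIz : (Fintype.card I : ℤ) + q = ((k : ℤ) + 1) * ((q : ℤ) * d + 1) := by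
      rw [hn] at hIq
      have h4 : q * d + 2 - 1 = q * d + 1 := by omega
      rw [h4] at hIq
      exact_mod_cast hIq
    have hEx : Exact H k d q := by
      refine ⟨hn, hIq, ?_, ?_⟩
      · intro X hX hXu
        obtain ⟨hs, hc, hw⟩ := wt_ins H X hX
        have hXc : 1 ≤ X.card := Finset.card_pos.2 hX
        have hXlt : X.card < Fintype.card V := by
          rw [← Finset.card_univ]
          exact Finset.card_lt_card (Finset.ssubset_univ_iff.2 hXu)
        have h2 : 2 ≤ (insert X (sgl (univ \ X))).card := by omega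
        have h := strict_int H k d hd hS _ hs h2
        have hcz : ((insert X (sgl (univ \ X))).card : ℤ) = (q : ℤ) * d + 3 - X.card := by
          have : ((insert X (sgl (univ \ X))).card : ℤ) + X.card = (q : ℤ) * d + 2 + 1 := by
            rw [hn] at hc
            exact_mod_cast hc
          linarith
        have hwz : (wt H (insert X (sgl (univ \ X))) : ℤ) =
            (Fintype.card I : ℤ) - inner H X := by
          have : (wt H (insert X (sgl (univ \ X))) : ℤ) + inner H X = (Fintype.card I : ℤ) := by
            exact_mod_cast hw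
          linarith
        rw [hcz, hwz] at h
        have goalz : (d : ℤ) * inner H X + ((X.card : ℤ) - 1) ≤
            d * (((k : ℤ) + 1) * ((X.card : ℤ) - 1)) := by
          have hIe : (Fintype.card I : ℤ) = ((k : ℤ) + 1) * ((q : ℤ) * d + 1) - q := by linarith
          rw [hIe] at h
          nlinarith
        have hX1 : ((X.card - 1 : ℕ) : ℤ) = (X.card : ℤ) - 1 := by
          rw [Nat.cast_sub hXc]
          simp
        have : ((d * inner H X + (X.card - 1) : ℕ) : ℤ) ≤
            ((d * ((k + 1) * (X.card - 1)) : ℕ) : ℤ) := by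
          push_cast [hX1]
          exact goalz
        exact_mod_cast this
      · intro Y hY hYn
        have hw := wt_sgl H Y
        have hYc : 1 ≤ Y.card := Finset.card_pos.2 hY
        have hc : (sgl (univ \ Y)).card + Y.card = Fintype.card V := by
          rw [card_sgl, ← Finset.card_univ, Finset.card_sdiff_of_subset (Finset.subset_univ Y)]
          have := Finset.card_le_univ Y
          rw [← Finset.card_univ] at this
          omega
        have h := strict_int H k d hd hS _ (sub_sgl (univ \ Y)) (by omega)
        have hcz : ((sgl (univ \ Y)).card : ℤ) = (q : ℤ) * d + 2 - Y.card := by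
          have : ((sgl (univ \ Y)).card : ℤ) + Y.card = (q : ℤ) * d + 2 := by
            rw [hn] at hc
            exact_mod_cast hc
          linarith
        have hwz : (wt H (sgl (univ \ Y)) : ℤ) = (Fintype.card I : ℤ) - caught H Y := by
          have : (wt H (sgl (univ \ Y)) : ℤ) + caught H Y = (Fintype.card I : ℤ) := by
            exact_mod_cast hw
          linarith
        rw [hcz, hwz] at h
        have hIe : (Fintype.card I : ℤ) = ((k : ℤ) + 1) * ((q : ℤ) * d + 1) - q := by linarith
        rw [hIe] at h
        have goalz : (d : ℤ) * caught H Y + (Y.card : ℤ) ≤ d * (((k : ℤ) + 1) * (Y.card : ℤ)) := by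
          nlinarith
        exact_mod_cast goalz
    have hnpos : (0 : ℝ) < (Fintype.card V : ℝ) := by
      rw [hnR]
      have := mul_nonneg (by linarith : (0 : ℝ) ≤ q) hd0.le
      linarith
    set N : ℝ := (Fintype.card V : ℝ) with hN
    have hN1 : 1 ≤ N := by
      rw [hnR]
      have := mul_nonneg (by linarith : (0 : ℝ) ≤ q) hd0.le
      linarith
    have hθ0 : (0 : ℝ) ≤ 1 / d - 1 / (d * N) := by
      rw [sub_nonneg]
      apply one_div_le_one_div_of_le hd0
      nlinarith
    have hθlt : (1 : ℝ) / d - 1 / (d * N) < 1 := by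
      have h1 : (1 : ℝ) / d ≤ 1 := by
        rw [div_le_one hd0]
        exact hd1
      have h2 : (0 : ℝ) < 1 / (d * N) := by positivity
      linarith
    have hdθ : (d : ℝ) * (1 / d - 1 / (d * N)) = 1 - 1 / N := by
      field_simp
    obtain ⟨o, r, F, R, hsol, hR⟩ := hSz V I H k (1 / d - 1 / (d * N)) hθ0 hθlt.le
      (by
        have h2 : (0 : ℝ) ≤ k := Nat.cast_nonneg k
        linarith)
      (by
        intro P hP hPne
        have hp1 : 1 ≤ P.card := Finset.card_pos.2 hPne
        rcases Nat.lt_or_ge P.card 2 with h2 | h2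
        · have h3 : P.card = 1 := by omega
          rw [h3]
          simp
        · have h := hreal P hP h2
          have hpn : (P.card : ℝ) ≤ N := by
            rw [hN]
            exact_mod_cast (card_sub P hP).1
          have h4 : ((P.card : ℝ) - 1) * (1 / N) ≤ 1 := by
            rw [mul_one_div, div_le_one hnpos]
            linarith
          have h5 : (d : ℝ) * (((k : ℝ) + 1 - (1 / d - 1 / (d * N))) * ((P.card : ℝ) - 1)) ≤
              d * (wt H P : ℝ) := by
            calc (d : ℝ) * (((k : ℝ) + 1 - (1 / d - 1 / (d * N))) * ((P.card : ℝ) - 1))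
                = (((k : ℝ) + 1) * d - (d : ℝ) * (1 / d - 1 / (d * N))) *
                  ((P.card : ℝ) - 1) := by ring
              _ = (((k : ℝ) + 1) * d - 1) * ((P.card : ℝ) - 1) +
                  ((P.card : ℝ) - 1) * (1 / N) := by
                rw [hdθ]
                ring
              _ ≤ d * (wt H P : ℝ) := by linarith
          exact le_of_mul_le_mul_left h5 hd0)
    have h6 : (1 / d - 1 / (d * N)) * (N - 1) < (q : ℝ) + 1 := by
      have h7 : (d : ℝ) * ((1 / d - 1 / (d * N)) * (N - 1)) < d * ((q : ℝ) + 1) := by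
        calc (d : ℝ) * ((1 / d - 1 / (d * N)) * (N - 1))
            = (1 - 1 / N) * (N - 1) := by
              rw [← mul_assoc, hdθ]
          _ < d * ((q : ℝ) + 1) := by
            have h8 : (0 : ℝ) < 1 / N := by positivity
            have h9 : (1 - 1 / N) * (N - 1) ≤ N - 1 := by nlinarith
            have h10 : (1 - 1 / N) * (N - 1) < N - 1 := by
              have h11 : 1 < N := by
                rw [hnR]
                have := mul_nonneg (by linarith : (0 : ℝ) ≤ q) hd0.le
                linarith
              nlinarith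
            have h12 : N - 1 = (q : ℝ) * d + 1 := by
              rw [hnR]
              ring
            nlinarith
      exact lt_of_mul_lt_mul_left h7 hd0.le
    have h13 : (R.card : ℝ) < (q : ℝ) + 2 := by linarith
    have h14 : R.card < q + 2 := by exact_mod_cast h13
    rcases Nat.lt_or_ge R.card (q + 1) with h15 | h15
    · exact Or.inl ⟨o, r, F, R, hsol, by omega⟩
    · exact Or.inr ⟨hEx, o, r, F, R, hsol, by omega⟩

end ARB
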