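import Pool.Agent.H22.ARB.Stm

/-!
# Packing mixed arborescences: assembly
-/

namespace ARB

open Finset

section
variable {V I : Type} [Fintype V] [DecidableEq V] [Fintype I] [DecidableEq I]

/-- pigeonhole on the components -/
lemma exists_big_comp (hc : SComp) {H : MixedGraph V I} {o : Orientation H} {F : Finset I}
    {R : Finset V} (hF : IsBr o.tail o.head F R univ) (Q : Finset V) (W : Finset V) (d : ℕ)
    (hcov : ∀ x ∈ W, ∃ r ∈ Q, x ∈ compVerts H F r) (hlt : Q.card * d < W.card) :
    ∃ v, d ≤ (compElems H F v).card := by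
  by_contra hno
  push Not at hno
  obtain ⟨-, -, -, h4, -⟩ := hc V I H o F R hF
  have hle : ∀ r ∈ Q, (compVerts H F r).card ≤ d := by
    intro r _
    have := h4 r
    have := hno r
    omega
  have hsub : W ⊆ Q.biUnion (fun r => compVerts H F r) := by
    intro x hx
    obtain ⟨r, hr, hxr⟩ := hcov x hx
    exact mem_biUnion.mpr ⟨r, hr, hxr⟩
  have h1 : W.card ≤ ∑ r ∈ Q, (compVerts H F r).card := (card_le_card hsub).trans card_biUnion_le
  have h2 : ∑ r ∈ Q, (compVerts H F r).card ≤ Q.card * d := by
    calc ∑ r ∈ Q, (compVerts H F r).card ≤ ∑ _r ∈ Q, d := sum_le_sum hle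
      _ = Q.card * d := by rw [sum_const, smul_eq_mul]
  omega

lemma size_of_card {F : Finset I} {R : Finset V} {d : ℕ} (hd : 1 ≤ d)
    (hcard : F.card + R.card = Fintype.card V) (hR : (R.card : ℕ) * d < Fintype.card V - 1 + d)
    (hV : 1 ≤ Fintype.card V) : SizeCond V F d := by
  unfold SizeCond
  have hd' : (0 : ℚ) < d := by exact_mod_cast hd
  rw [div_mul_eq_mul_div, div_lt_iff₀ hd']
  have h1 : (F.card : ℚ) + R.card = Fintype.card V := by exact_mod_cast hcard
  have h2 : ((R.card * d : ℕ) : ℚ) + 1 < (Fintype.card V : ℚ) + d := by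
    have : R.card * d + 1 < Fintype.card V + d := by omega
    exact_mod_cast this
  push_cast at h2
  nlinarith

lemma comp_verts_isolated {H : MixedGraph V I} {F : Finset I} {v : V}
    (hv : ∀ e ∈ F, H.fst e ≠ v ∧ H.snd e ≠ v) (x : V) (hx : x ∈ compVerts H F v) : x = v := by
  classical
  unfold compVerts at hx
  have hj : Joined H.fst H.snd F v x := (mem_filter.mp hx).2
  have key : ∀ a b, Joined H.fst H.snd F a b → (a = v ↔ b = v) := by
    intro a b hab
    unfold Joined at hab
    induction hab with
    | rel a b h =>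
      obtain ⟨e, he, rfl, rfl⟩ := h
      have := hv e he
      exact ⟨fun h => absurd h this.1, fun h => absurd h this.2⟩
    | refl a => exact Iff.rfl
    | symm a b _ ih => exact ih.symm
    | trans a b c _ _ ih1 ih2 => exact ih1.trans ih2
  exact (key v x hj).mp rfl

/-- from a solution with few roots -/
lemma pack_of_sol (hc : SComp) (ht : SPackT) {H : MixedGraph V I} {k d : ℕ} (hd : 1 ≤ d)
    (hV : 1 ≤ Fintype.card V) {o : Orientation H} {r : V → ℕ} {F : Finset I} {R : Finset V}
    (h : IsSol H k o r F R) (hR : R.card * d < Fintype.card V - 1 + d) :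
    (∃ T : Fin k → Finset I, IsPacking H T F) ∧ SizeCond V F d :=
  ⟨ht V I H k o r F R h, size_of_card hd (hc V I H o F R h.1).2.1 hR hV⟩

lemma comp_of_few (hc : SComp) {H : MixedGraph V I} {k d : ℕ}
    {o : Orientation H} {r : V → ℕ} {F : Finset I} {R : Finset V}
    (h : IsSol H k o r F R) (hR : R.card * d < Fintype.card V) : CompCond H F d := by
  intro _
  refine exists_big_comp hc h.1 R univ d ?_ (by simpa using hR)
  intro x _
  exact (hc V I H o F R h.1).2.2.1 x

lemma comp_of_good (hc : SComp) {H : MixedGraph V I} {k d q : ℕ}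
    (hn : Fintype.card V = q * d + 2)
    {o : Orientation H} {r : V → ℕ} {F : Finset I} {R : Finset V} {v : V}
    (h : IsSol H k o r F R) (hR : R.card = q + 1) (hv : v ∈ R)
    (hiso : ∀ e ∈ F, H.fst e ≠ v ∧ H.snd e ≠ v) : CompCond H F d := by
  intro _
  refine exists_big_comp hc h.1 (R.erase v) (univ.erase v) d ?_ ?_
  · intro x hx
    obtain ⟨s, hs, hxs⟩ := (hc V I H o F R h.1).2.2.1 x
    refine ⟨s, mem_erase.mpr ⟨?_, hs⟩, hxs⟩
    rintro rfl
    exact (mem_erase.mp hx).1 (comp_verts_isolated hiso x hxs)
  · rw [card_erase_of_mem hv, card_erase_of_mem (mem_univ v), card_univ, hR, hn]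
    simp

end

/-- The size condition from the size theorem. -/
lemma sol_of_strict (hs : SSize) {V I : Type} [Fintype V] [DecidableEq V] [Fintype I]
    [DecidableEq I] {H : MixedGraph V I} {k d : ℕ} (hd : 1 ≤ d) (hV : 2 ≤ Fintype.card V)
    (hH : StrictCond H k d) :
    ∃ (o : Orientation H) (r : V → ℕ) (F : Finset I) (R : Finset V), IsSol H k o r F R ∧
      R.card * d < Fintype.card V - 1 + d := by
  have hne : Nonempty V := Fintype.card_pos_iff.mp (by omega)
  set n : ℝ := ((Fintype.card V : ℕ) : ℝ) with hn
  have hn2 : (2 : ℝ) ≤ n := by rw [hn]; exact_mod_cast hV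
  have hd1 : (1 : ℝ) ≤ d := by exact_mod_cast hd
  have hd0 : (0 : ℝ) < d := by linarith
  have hn0 : (0 : ℝ) < n := by linarith
  set θ : ℝ := 1 / d - 1 / (d * n) with hθ
  have hθ' : θ = (n - 1) / (d * n) := by rw [hθ]; field_simp
  have h0 : 0 ≤ θ := by rw [hθ']; apply div_nonneg <;> nlinarith
  have h1 : θ < 1 := by rw [hθ', div_lt_one (by positivity)]; nlinarith
  obtain ⟨o, r, F, R, hsol, hR⟩ := hs V I H k θ h0 h1.le
    (by have : (0 : ℝ) ≤ k := Nat.cast_nonneg k
        linarith) (by
      intro P hP hPne
      rcases Nat.lt_or_ge P.card 2 with hlt | hge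
      · have h1' : P.card = 1 := by have := card_pos.mpr hPne; omega
        rw [h1']; simp
      · have hst := hH P hP hge
        have hp1 : (0 : ℚ) < (P.card : ℚ) - 1 := by
          have : (2 : ℚ) ≤ P.card := by exact_mod_cast hge
          linarith
        have hdq : (0 : ℚ) < d := by exact_mod_cast hd
        rw [lt_div_iff₀ hp1] at hst
        -- integer form
        have hint : ((k : ℚ) * d + d - 1) * ((P.card : ℚ) - 1) < d * wt H P := by
          have := mul_lt_mul_of_pos_left hst hdq
          calc ((k : ℚ) * d + d - 1) * ((P.card : ℚ) - 1)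
              = d * (((k : ℚ) + ((d : ℚ) - 1) / d) * ((P.card : ℚ) - 1)) := by
                field_simp
                ring
            _ < d * wt H P := this
        have hint2 : ((k : ℤ) * d + d - 1) * ((P.card : ℤ) - 1) < d * wt H P := by
          exact_mod_cast hint
        have hint3 : ((k : ℤ) * d + d - 1) * ((P.card : ℤ) - 1) + 1 ≤ d * wt H P := hint2
        have hreal : ((k : ℝ) * d + d - 1) * ((P.card : ℝ) - 1) + 1 ≤ d * wt H P := by
          exact_mod_cast hint3
        have hpn : (P.card : ℝ) - 1 ≤ n := by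
          have hle : P.card ≤ Fintype.card V := by
            -- a subpartition has at most |V| members
            have hinj : ∃ f : {X // X ∈ P} → V, Function.Injective f := by
              refine ⟨fun X => (hP.1 X.1 X.2).choose, ?_⟩
              intro X Y hXY
              by_contra hne'
              have hXY' : X.1 ≠ Y.1 := fun h => hne' (Subtype.ext h)
              have hdis := hP.2 X.1 X.2 Y.1 Y.2 hXY'
              have hx := (hP.1 X.1 X.2).choose_spec
              have hy := (hP.1 Y.1 Y.2).choose_spec
              simp only at hXY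
              rw [hXY] at hx
              exact (disjoint_left.mp hdis hx) hy
            obtain ⟨f, hf⟩ := hinj
            have := Fintype.card_le_of_injective f hf
            simpa using this
          have : (P.card : ℝ) ≤ n := by rw [hn]; exact_mod_cast hle
          linarith
        have key : ((k : ℝ) + 1 - θ) * ((P.card : ℝ) - 1) * (d * n) ≤ (wt H P : ℝ) * (d * n) := by
          have e1 : ((k : ℝ) + 1 - θ) * (d * n) = n * ((k : ℝ) * d + d - 1) + 1 := by
            rw [hθ']; field_simp; ring
          calc ((k : ℝ) + 1 - θ) * ((P.card : ℝ) - 1) * (d * n)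
              = (((k : ℝ) + 1 - θ) * (d * n)) * ((P.card : ℝ) - 1) := by ring
            _ = n * (((k : ℝ) * d + d - 1) * ((P.card : ℝ) - 1)) + ((P.card : ℝ) - 1) := by
                rw [e1]; ring
            _ ≤ n * (((k : ℝ) * d + d - 1) * ((P.card : ℝ) - 1)) + n := by linarith
            _ = n * (((k : ℝ) * d + d - 1) * ((P.card : ℝ) - 1) + 1) := by ring
            _ ≤ n * (d * wt H P) := by
                apply mul_le_mul_of_nonneg_left hreal hn0.le
            _ = (wt H P : ℝ) * (d * n) := by ring
        exact le_of_mul_le_mul_right key (by positivity))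
  refine ⟨o, r, F, R, hsol, ?_⟩
  have hlt : ((R.card : ℝ)) * d < n - 1 + d := by
    have h3 : θ * (n - 1) * d < n - 1 := by
      have : θ * d < 1 := by rw [hθ', div_mul_eq_mul_div, div_lt_one (by positivity)]; nlinarith
      nlinarith
    nlinarith
  have : ((R.card * d : ℕ) : ℝ) < ((Fintype.card V - 1 + d : ℕ) : ℝ) := by
    push_cast [Nat.cast_sub (show 1 ≤ Fintype.card V by omega)]
    linarith
  exact_mod_cast this

/-- Assembly. -/
theorem sFin (hs : SSize) (hx : SExact) (hc : SComp) (ht : SPackT) (h0 : SK0) (h1 : SK1)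
    (h2 : SD2) (V I : Type) [Fintype V] [DecidableEq V] [Fintype I] [DecidableEq I]
    (H : MixedGraph V I) (k d : ℕ) (hd : 1 ≤ d) (hV : 2 ≤ Fintype.card V)
    (hH : StrictCond H k d) :
    ∃ (T : Fin k → Finset I) (F : Finset I), IsPacking H T F ∧ SizeCond V F d ∧
      ((k = 0 ∨ d ≤ 2 ∨ d ∣ Fintype.card V - 1 ∨ Fintype.card V ≤ d + 1 ∨
        (k = 1 ∧ d ∣ Fintype.card V - 2)) → CompCond H F d) := by
  rcases Nat.eq_zero_or_pos k with hk0 | hkpos
  · subst hk0
    obtain ⟨T, F, hp, hsz, hcc⟩ := h0 V I H d hd hV hH
    exact ⟨T, F, hp, hsz, fun _ => hcc⟩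
  -- automatic cases
  by_cases hauto : d ∣ Fintype.card V - 1 ∨ Fintype.card V ≤ d + 1
  · obtain ⟨o, r, F, R, hsol, hR⟩ := sol_of_strict hs hd hV hH
    obtain ⟨⟨T, hT⟩, hsz⟩ := pack_of_sol hc ht hd (by omega) hsol hR
    refine ⟨T, F, hT, hsz, fun _ => ?_⟩
    rcases hauto with hdvd | hle
    · obtain ⟨c, hcc⟩ := hdvd
      refine comp_of_few hc hsol ?_
      have hRc : R.card ≤ c := by
        rw [hcc] at hR
        by_contra hcon
        push Not at hcon
        have : (c + 1) * d ≤ R.card * d := Nat.mul_le_mul_right d hcon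
        have e : (c + 1) * d = d * c + d := by ring
        omega
      have h3 : R.card * d ≤ c * d := Nat.mul_le_mul_right d hRc
      have e : c * d = d * c := by ring
      omega
    · have hR1 : R.card ≤ 1 := by
        by_contra hcon
        push Not at hcon
        have : 2 * d ≤ R.card * d := Nat.mul_le_mul_right d hcon
        omega
      intro hns
      exfalso
      apply hns
      refine (hc V I H o F R hsol.1).2.2.2.2 ?_
      have hpos : 0 < R.card := by
        rw [card_pos]
        have hne : Nonempty V := Fintype.card_pos_iff.mp (by omega)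
        obtain ⟨v⟩ := hne
        obtain ⟨s, hs', _⟩ := hsol.1.2.2.2 v (mem_univ v)
        exact ⟨s, hs'⟩
      omega
  push Not at hauto
  obtain ⟨hnd, hgt⟩ := hauto
  by_cases hcase : d ≤ 2 ∨ (k = 1 ∧ d ∣ Fintype.card V - 2)
  · -- in both cases |V| = q d + 2
    have hq : ∃ q, 1 ≤ q ∧ Fintype.card V = q * d + 2 := by
      rcases hcase with hd2 | ⟨_, c, hcc⟩
      · have hd2' : d = 2 := by
          rcases Nat.lt_or_ge d 2 with h | h
          · exfalso
            apply hnd
            have : d = 1 := by omega
            rw [this]; exact one_dvd _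
          · omega
        subst hd2'
        refine ⟨(Fintype.card V - 2) / 2, by omega, by omega⟩
      · refine ⟨c, ?_, ?_⟩
        · rcases Nat.eq_zero_or_pos c with h | h
          · subst h; omega
          · exact h
        · have e : c * d = d * c := by ring
          omega
    obtain ⟨q, hq1, hqn⟩ := hq
    rcases hx V I H k d q hd hq1 hqn hH with ⟨o, r, F, R, hsol, hR⟩ | ⟨hex, hsol⟩
    · have hmul : R.card * d ≤ q * d := Nat.mul_le_mul_right d hR
      obtain ⟨⟨T, hT⟩, hsz⟩ := pack_of_sol hc ht hd (by omega) hsol (by omega)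
      exact ⟨T, F, hT, hsz, fun _ => comp_of_few hc hsol (by omega)⟩
    · have hgood : GoodSol H k q := by
        by_cases hk1 : k = 1
        · subst hk1
          exact h1 V I H d q hd hq1 hex hsol
        · have hd2 : d ≤ 2 := by
            rcases hcase with h | h
            · exact h
            · exact absurd h.1 hk1
          have hd2' : d = 2 := by
            rcases Nat.lt_or_ge d 2 with h | h
            · exfalso
              apply hnd
              have : d = 1 := by omega
              rw [this]; exact one_dvd _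
            · omega
          subst hd2'
          exact h2 V I H k q hkpos hq1 hex hsol
      obtain ⟨o, r, F, R, v, hsol', hRc, hvR, hiso⟩ := hgood
      have hsz' : R.card * d < Fintype.card V - 1 + d := by
        rw [hRc, hqn]
        have e : (q + 1) * d = q * d + d := by ring
        omega
      obtain ⟨⟨T, hT⟩, hsz⟩ := pack_of_sol hc ht hd (by omega) hsol' hsz'
      exact ⟨T, F, hT, hsz, fun _ => comp_of_good hc hqn hsol' hRc hvR hiso⟩
  · obtain ⟨o, r, F, R, hsol, hR⟩ := sol_of_strict hs hd hV hH
    obtain ⟨⟨T, hT⟩, hsz⟩ := pack_of_sol hc ht hd (by omega) hsol hR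
    refine ⟨T, F, hT, hsz, fun hh => ?_⟩
    exfalso
    rcases hh with h | h | h | h | h
    · omega
    · exact hcase (Or.inl h)
    · exact hnd h
    · omega
    · exact hcase (Or.inr h)

end ARB
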