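import Pool.Agent.H22.ARB.Stm

/-!
# The fractional version of Frank's orientation theorem (row ARB-A1)
-/

namespace ARB

open Finset

section A1

variable {V I : Type} [Fintype V] [DecidableEq V] [Fintype I] [DecidableEq I]

/-- one term of `dinx` -/
noncomputable def a1t (H : MixedGraph V I) (x : I → ℝ) (X : Finset V) (e : I) : ℝ :=
  (if H.fst e ∉ X ∧ H.snd e ∈ X then x e else 0) +
    (if H.snd e ∉ X ∧ H.fst e ∈ X then 1 - x e else 0)

theorem a1_dinx (H : MixedGraph V I) (x : I → ℝ) (X : Finset V) :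
    dinx H x X = ∑ e, a1t H x X e := rfl

/-- the value of a set -/
noncomputable def a1f (H : MixedGraph V I) (p : (I → ℝ) × (V → ℝ)) (X : Finset V) : ℝ :=
  dinx H p.1 X + ∑ v ∈ X, p.2 v

/-- the compact set of admissible pairs -/
def a1K (H : MixedGraph V I) (lam : ℝ) : Set ((I → ℝ) × (V → ℝ)) :=
  {p | FracOr H p.1 ∧ (∀ v, 0 ≤ p.2 v ∧ p.2 v ≤ lam) ∧
    ∀ X : Finset V, X.Nonempty → lam ≤ a1f H p X}

theorem a1_t_nonneg (H : MixedGraph V I) {x : I → ℝ} (hx : FracOr H x) (X : Finset V) (e : I) :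
    0 ≤ a1t H x X e := by
  have h := hx e
  unfold a1t
  split_ifs <;> linarith [h.1, h.2.1]

theorem a1_dinx_nonneg (H : MixedGraph V I) {x : I → ℝ} (hx : FracOr H x) (X : Finset V) :
    0 ≤ dinx H x X := by
  rw [a1_dinx]
  exact Finset.sum_nonneg fun e _ => a1_t_nonneg H hx X e

theorem a1_dinx_univ (H : MixedGraph V I) (x : I → ℝ) : dinx H x univ = 0 := by
  rw [a1_dinx]
  refine Finset.sum_eq_zero fun e _ => ?_
  unfold a1t
  simp

theorem a1_cont_dinx (H : MixedGraph V I) (X : Finset V) :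
    Continuous fun p : (I → ℝ) × (V → ℝ) => dinx H p.1 X := by
  unfold dinx
  refine continuous_finsetSum _ fun e _ => ?_
  split_ifs <;> fun_prop

theorem a1_cont_f (H : MixedGraph V I) (X : Finset V) :
    Continuous fun p : (I → ℝ) × (V → ℝ) => a1f H p X := by
  unfold a1f
  refine (a1_cont_dinx H X).add ?_
  fun_prop

theorem a1_closed (H : MixedGraph V I) (lam : ℝ) : IsClosed (a1K H lam) := by
  have h1 : a1K H lam =
      ((⋂ e, ({p | 0 ≤ p.1 e} ∩ ({p | p.1 e ≤ 1} ∩
        ⋂ (_ : H.isEdge e = false), {p : (I → ℝ) × (V → ℝ) | p.1 e = 1}))) ∩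
      ((⋂ v, ({p | 0 ≤ p.2 v} ∩ {p | p.2 v ≤ lam})) ∩
        ⋂ (X : Finset V), ⋂ (_ : X.Nonempty), {p | lam ≤ a1f H p X})) := by
    ext p
    simp [a1K, FracOr]
  rw [h1]
  refine IsClosed.inter (isClosed_iInter fun e => ?_) (IsClosed.inter
    (isClosed_iInter fun v => ?_) (isClosed_iInter fun X => isClosed_iInter fun _ => ?_))
  · refine IsClosed.inter (isClosed_le (by fun_prop) (by fun_prop)) (IsClosed.inter
      (isClosed_le (by fun_prop) (by fun_prop)) (isClosed_iInter fun _ =>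
        isClosed_eq (by fun_prop) (by fun_prop)))
  · exact IsClosed.inter (isClosed_le (by fun_prop) (by fun_prop))
      (isClosed_le (by fun_prop) (by fun_prop))
  · exact isClosed_le continuous_const (a1_cont_f H X)

theorem a1_compact (H : MixedGraph V I) (lam : ℝ) : IsCompact (a1K H lam) := by
  refine IsCompact.of_isClosed_subset
    ((isCompact_univ_pi (fun _ : I => isCompact_Icc (a := (0 : ℝ)) (b := 1))).prod
      (isCompact_univ_pi (fun _ : V => isCompact_Icc (a := (0 : ℝ)) (b := lam))))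
    (a1_closed H lam) ?_
  rintro p ⟨h1, h2, _⟩
  refine ⟨fun e _ => ⟨(h1 e).1, (h1 e).2.1⟩, fun v _ => ⟨(h2 v).1, (h2 v).2⟩⟩

theorem a1_nonempty (H : MixedGraph V I) {lam : ℝ} (hl : 0 < lam) : (a1K H lam).Nonempty := by
  refine ⟨(fun _ => 1, fun _ => lam), fun e => ⟨by norm_num, le_refl _, fun _ => rfl⟩,
    fun v => ⟨hl.le, le_refl _⟩, fun X hX => ?_⟩
  have h0 : 0 ≤ dinx H (fun _ => (1 : ℝ)) X :=
    a1_dinx_nonneg H (fun e => ⟨by norm_num, le_refl _, fun _ => rfl⟩) X
  have h1 : lam ≤ ∑ v ∈ X, lam := by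
    rw [Finset.sum_const, nsmul_eq_mul]
    have : (1 : ℝ) ≤ (X.card : ℝ) := by exact_mod_cast hX.card_pos
    nlinarith
  show lam ≤ dinx H (fun _ => (1 : ℝ)) X + ∑ v ∈ X, lam
  linarith

theorem a1_pos_lb {α : Type} (s : Finset α) (g : α → ℝ) (h : ∀ a ∈ s, 0 < g a) :
    ∃ ε : ℝ, 0 < ε ∧ ∀ a ∈ s, ε ≤ g a := by
  classical
  induction s using Finset.induction_on with
  | empty => exact ⟨1, one_pos, by simp⟩
  | insert a s ha ih =>
    obtain ⟨ε, h1, h2⟩ := ih (fun b hb => h b (Finset.mem_insert_of_mem hb))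
    refine ⟨min ε (g a), lt_min h1 (h a (Finset.mem_insert_self _ _)), fun b hb => ?_⟩
    rcases Finset.mem_insert.1 hb with rfl | hb
    · exact min_le_right _ _
    · exact (min_le_left _ _).trans (h2 b hb)

theorem a1_submod (H : MixedGraph V I) {x : I → ℝ} (hx : FracOr H x) (X Y : Finset V) :
    dinx H x (X ∩ Y) + dinx H x (X ∪ Y) ≤ dinx H x X + dinx H x Y := by
  simp only [a1_dinx]
  rw [← Finset.sum_add_distrib, ← Finset.sum_add_distrib]
  refine Finset.sum_le_sum fun e _ => ?_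
  have h := hx e
  unfold a1t
  by_cases h1 : H.fst e ∈ X <;> by_cases h2 : H.fst e ∈ Y <;> by_cases h3 : H.snd e ∈ X <;>
    by_cases h4 : H.snd e ∈ Y <;> simp [h1, h2, h3, h4] <;> linarith [h.1, h.2.1]

theorem a1_f_submod (H : MixedGraph V I) {p : (I → ℝ) × (V → ℝ)} (hx : FracOr H p.1)
    (X Y : Finset V) : a1f H p (X ∩ Y) + a1f H p (X ∪ Y) ≤ a1f H p X + a1f H p Y := by
  have h := a1_submod H hx X Y
  have h2 : ∑ v ∈ X ∪ Y, p.2 v + ∑ v ∈ X ∩ Y, p.2 v = ∑ v ∈ X, p.2 v + ∑ v ∈ Y, p.2 v :=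
    Finset.sum_union_inter
  unfold a1f
  linarith

open Classical in
/-- the tight sets -/
noncomputable def a1T (H : MixedGraph V I) (lam : ℝ) (p : (I → ℝ) × (V → ℝ)) :
    Finset (Finset V) := univ.filter (fun X => X.Nonempty ∧ a1f H p X = lam)

theorem a1_mem_T (H : MixedGraph V I) (lam : ℝ) (p : (I → ℝ) × (V → ℝ)) (X : Finset V) :
    X ∈ a1T H lam p ↔ X.Nonempty ∧ a1f H p X = lam := by
  classical
  unfold a1T
  simp

/-- the sign of the change of `dinx` at `X` when the weight of `e` increases -/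
noncomputable def a1s (H : MixedGraph V I) (e : I) (X : Finset V) : ℝ :=
  (if H.fst e ∉ X ∧ H.snd e ∈ X then 1 else 0) - (if H.snd e ∉ X ∧ H.fst e ∈ X then 1 else 0)

theorem a1_s_abs (H : MixedGraph V I) (e : I) (X : Finset V) : |a1s H e X| ≤ 1 := by
  unfold a1s
  by_cases h1 : H.fst e ∈ X <;> by_cases h3 : H.snd e ∈ X <;> simp [h1, h3]

theorem a1_shift (H : MixedGraph V I) (x : I → ℝ) (e : I) (δ : ℝ) (X : Finset V) :
    dinx H (Function.update x e (x e + δ)) X = dinx H x X + δ * a1s H e X := by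
  simp only [a1_dinx]
  rw [← Finset.add_sum_erase univ _ (Finset.mem_univ e),
    ← Finset.add_sum_erase univ (a1t H x X) (Finset.mem_univ e)]
  have h1 : ∑ y ∈ univ.erase e, a1t H (Function.update x e (x e + δ)) X y =
      ∑ y ∈ univ.erase e, a1t H x X y := by
    refine Finset.sum_congr rfl fun y hy => ?_
    have hne : y ≠ e := (Finset.mem_erase.1 hy).1
    unfold a1t
    rw [Function.update_of_ne hne]
  rw [h1]
  have h2 : a1t H (Function.update x e (x e + δ)) X e = a1t H x X e + δ * a1s H e X := by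
    unfold a1t a1s
    rw [Function.update_self]
    by_cases h1 : H.fst e ∈ X <;> by_cases h3 : H.snd e ∈ X <;> simp [h1, h3] <;> ring
  rw [h2]
  ring

/-- the set of minimisers -/
def a1M (H : MixedGraph V I) (lam μ : ℝ) : Set ((I → ℝ) × (V → ℝ)) :=
  {p | p ∈ a1K H lam ∧ ∑ v, p.2 v = μ}

/-- an edge can be shifted only if this does not lose a tight set -/
theorem a1_no_shift (H : MixedGraph V I) {lam μ : ℝ} {p : (I → ℝ) × (V → ℝ)}
    (hp : p ∈ a1M H lam μ) (hmin : ∀ q ∈ a1M H lam μ, (a1T H lam p).card ≤ (a1T H lam q).card)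
    (e : I) (he : H.isEdge e = true) (δ : ℝ) (h0 : 0 ≤ p.1 e + δ) (h1 : p.1 e + δ ≤ 1)
    (hT : ∀ X ∈ a1T H lam p, 0 ≤ δ * a1s H e X) (X0 : Finset V) (hX0 : X0 ∈ a1T H lam p)
    (hX0s : 0 < δ * a1s H e X0)
    (hN : ∀ X : Finset V, X.Nonempty → X ∉ a1T H lam p → |δ| < a1f H p X - lam) : False := by
  obtain ⟨⟨hx, hr, hc⟩, hs⟩ := hp
  set q : (I → ℝ) × (V → ℝ) := (Function.update p.1 e (p.1 e + δ), p.2) with hq
  have hf : ∀ X, a1f H q X = a1f H p X + δ * a1s H e X := by
    intro X
    unfold a1f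
    rw [hq]
    simp only
    rw [a1_shift]
    ring
  have habs : ∀ X, |δ * a1s H e X| ≤ |δ| := by
    intro X
    rw [abs_mul]
    have := a1_s_abs H e X
    have h2 := abs_nonneg δ
    nlinarith
  have hqM : q ∈ a1M H lam μ := by
    refine ⟨⟨fun e' => ?_, hr, fun X hX => ?_⟩, hs⟩
    · by_cases hee : e' = e
      · subst hee
        rw [hq]
        simp only
        rw [Function.update_self]
        refine ⟨h0, h1, fun h => ?_⟩
        rw [he] at h
        exact absurd h (by simp)
      · rw [hq]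
        simp only
        rw [Function.update_of_ne hee]
        exact hx e'
    · rw [hf]
      by_cases hXT : X ∈ a1T H lam p
      · have h2 := hT X hXT
        have h3 := ((a1_mem_T H lam p X).1 hXT).2
        linarith
      · have h2 := hN X hX hXT
        have h3 := habs X
        have h4 := neg_abs_le (δ * a1s H e X)
        linarith
  have hsub : a1T H lam q ⊂ a1T H lam p := by
    rw [Finset.ssubset_iff_of_subset]
    · refine ⟨X0, hX0, fun h => ?_⟩
      have h2 := ((a1_mem_T H lam q X0).1 h).2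
      rw [hf, ((a1_mem_T H lam p X0).1 hX0).2] at h2
      linarith
    · intro X hX
      by_contra hXT
      have h2 := (a1_mem_T H lam q X).1 hX
      rw [hf] at h2
      have h3 := hN X h2.1 hXT
      have h4 := habs X
      have h5 := neg_abs_le (δ * a1s H e X)
      linarith [h2.2]
  exact absurd (hmin q hqM) (not_le.2 (Finset.card_lt_card hsub))

theorem a1_slack (H : MixedGraph V I) {lam μ : ℝ} {p : (I → ℝ) × (V → ℝ)}
    (hp : p ∈ a1M H lam μ) : ∃ ε : ℝ, 0 < ε ∧
      ∀ X : Finset V, X.Nonempty → X ∉ a1T H lam p → ε ≤ a1f H p X - lam := by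
  classical
  obtain ⟨ε, h1, h2⟩ := a1_pos_lb
    (univ.filter (fun X : Finset V => X.Nonempty ∧ X ∉ a1T H lam p))
    (fun X => a1f H p X - lam) (fun X hX => by
      obtain ⟨hX1, hX2⟩ := (Finset.mem_filter.1 hX).2
      have h3 := hp.1.2.2 X hX1
      have h4 : a1f H p X ≠ lam := fun h => hX2 ((a1_mem_T H lam p X).2 ⟨hX1, h⟩)
      have h5 : lam < a1f H p X := lt_of_le_of_ne h3 (Ne.symm h4)
      linarith)
  exact ⟨ε, h1, fun X hX1 hX2 => h2 X (Finset.mem_filter.2 ⟨Finset.mem_univ _, hX1, hX2⟩)⟩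

theorem a1_mem_across (H : MixedGraph V I) (P : Finset (Finset V)) (e : I) :
    e ∈ edgesAcross H P ↔ (H.isEdge e = true ∧
      ¬ ∃ X ∈ insert (univ \ P.sup id) P, H.fst e ∈ X ∧ H.snd e ∈ X) := by
  unfold edgesAcross
  simp only [Finset.mem_filter, Finset.mem_univ, true_and]

theorem a1_mem_into (H : MixedGraph V I) (X : Finset V) (e : I) :
    e ∈ arcsInto H X ↔ (H.isEdge e = false ∧ H.fst e ∉ X ∧ H.snd e ∈ X) := by
  unfold arcsInto
  simp only [Finset.mem_filter, Finset.mem_univ, true_and]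

theorem a1_main (H : MixedGraph V I) [Nonempty V] {lam : ℝ} (hl : 0 < lam)
    (hP : ∀ P : Finset (Finset V), IsSubpartition P → P.Nonempty →
      lam * ((P.card : ℝ) - 1) ≤ (wt H P : ℝ)) :
    ∃ (x : I → ℝ) (ρ : V → ℝ), FracOr H x ∧ (∀ v, 0 ≤ ρ v) ∧ ∑ v, ρ v = lam ∧
      ∀ X : Finset V, X.Nonempty → lam ≤ dinx H x X + ∑ v ∈ X, ρ v := by
  classical
  -- the minimum
  obtain ⟨p0, hp0, hp0min⟩ := (a1_compact H lam).exists_isMinOn (a1_nonempty H hl)
    (f := fun p : (I → ℝ) × (V → ℝ) => ∑ v, p.2 v) (by fun_prop)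
  set μ : ℝ := ∑ v, p0.2 v with hμ
  have hμmin : ∀ q ∈ a1K H lam, μ ≤ ∑ v, q.2 v := fun q hq => hp0min hq
  have hne : (a1M H lam μ).Nonempty := ⟨p0, hp0, rfl⟩
  obtain ⟨p, hp, hmin⟩ : ∃ p ∈ a1M H lam μ, ∀ q ∈ a1M H lam μ,
      (a1T H lam p).card ≤ (a1T H lam q).card :=
    ⟨Function.argminOn (fun p => (a1T H lam p).card) (a1M H lam μ) hne,
      Function.argminOn_mem _ _ hne,
      fun q hq => Function.argminOn_le (fun p => (a1T H lam p).card) (a1M H lam μ) hq⟩
  have hx : FracOr H p.1 := hp.1.1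
  have hr := hp.1.2.1
  have hc := hp.1.2.2
  obtain ⟨ε, hε, hslack⟩ := a1_slack H hp
  -- (2)
  have h2 : ∀ v, 0 < p.2 v → ∃ X ∈ a1T H lam p, v ∈ X := by
    intro v hv
    by_contra hcon
    push Not at hcon
    set δ : ℝ := min ε (p.2 v) with hδ
    have hδ0 : 0 < δ := lt_min hε hv
    set q : (I → ℝ) × (V → ℝ) := (p.1, Function.update p.2 v (p.2 v - δ)) with hq
    have hsum : ∀ X : Finset V, ∑ w ∈ X, q.2 w = ∑ w ∈ X, p.2 w - (if v ∈ X then δ else 0) := by
      intro X
      have : ∀ w, q.2 w = p.2 w - (if w = v then δ else 0) := by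
        intro w
        rw [hq]
        simp only
        by_cases hw : w = v
        · subst hw
          rw [Function.update_self, if_pos rfl]
        · rw [Function.update_of_ne hw, if_neg hw, sub_zero]
      rw [Finset.sum_congr rfl (fun w _ => this w), Finset.sum_sub_distrib,
        Finset.sum_ite_eq' X v (fun _ => δ)]
    have hqK : q ∈ a1K H lam := by
      refine ⟨hx, fun w => ?_, fun X hX => ?_⟩
      · rw [hq]
        simp only
        by_cases hw : w = v
        · subst hw
          rw [Function.update_self]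
          have h3 : δ ≤ p.2 w := min_le_right _ _
          have h4 := (hr w).2
          exact ⟨by linarith, by linarith⟩
        · rw [Function.update_of_ne hw]
          exact hr w
      · have h3 : a1f H q X = a1f H p X - (if v ∈ X then δ else 0) := by
          unfold a1f
          rw [hsum X]
          have : q.1 = p.1 := rfl
          rw [this]
          ring
        rw [h3]
        by_cases hvX : v ∈ X
        · rw [if_pos hvX]
          have h4 : X ∉ a1T H lam p := fun h => hcon X h hvX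
          have h5 := hslack X hX h4
          have h6 : δ ≤ ε := min_le_left _ _
          linarith
        · rw [if_neg hvX]
          have := hc X hX
          linarith
    have h3 := hμmin q hqK
    rw [hsum univ, if_pos (Finset.mem_univ v), hp.2] at h3
    linarith
  -- (1) unions of tight sets
  have hunion : ∀ X ∈ a1T H lam p, ∀ Y ∈ a1T H lam p, (X ∩ Y).Nonempty →
      X ∪ Y ∈ a1T H lam p := by
    intro X hX Y hY hXY
    have hX' := (a1_mem_T H lam p X).1 hX
    have hY' := (a1_mem_T H lam p Y).1 hY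
    have h3 := a1_f_submod H hx X Y
    have h4 := hc (X ∩ Y) hXY
    have h5 := hc (X ∪ Y) (hX'.1.mono Finset.subset_union_left)
    refine (a1_mem_T H lam p _).2 ⟨hX'.1.mono Finset.subset_union_left, ?_⟩
    rw [hX'.2, hY'.2] at h3
    linarith
  -- (3) maximal tight sets
  set P : Finset (Finset V) :=
    (a1T H lam p).filter (fun X => ∀ Y ∈ a1T H lam p, X ⊆ Y → Y ⊆ X) with hPdef
  have hPT : ∀ X ∈ P, X ∈ a1T H lam p := fun X hX => (Finset.mem_filter.1 hX).1
  have hcov : ∀ X ∈ a1T H lam p, ∃ Z ∈ P, X ⊆ Z := by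
    intro X hX
    obtain ⟨Z, hZ, hZmax⟩ := Finset.exists_max_image
      ((a1T H lam p).filter (fun Z => X ⊆ Z)) Finset.card
      ⟨X, Finset.mem_filter.2 ⟨hX, Finset.Subset.refl _⟩⟩
    obtain ⟨hZ1, hZ2⟩ := Finset.mem_filter.1 hZ
    refine ⟨Z, Finset.mem_filter.2 ⟨hZ1, fun Y hY hZY => ?_⟩, hZ2⟩
    have h3 := hZmax Y (Finset.mem_filter.2 ⟨hY, hZ2.trans hZY⟩)
    rw [Finset.eq_of_subset_of_card_le hZY h3]
  have hdisj : ∀ X ∈ P, ∀ Y ∈ P, X ≠ Y → Disjoint X Y := by
    intro X hX Y hY hne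
    rw [Finset.disjoint_iff_inter_eq_empty]
    by_contra hcon
    have h3 : (X ∩ Y).Nonempty := Finset.nonempty_iff_ne_empty.2 hcon
    have h4 := hunion X (hPT X hX) Y (hPT Y hY) h3
    have h5 := (Finset.mem_filter.1 hX).2 _ h4 Finset.subset_union_left
    have h6 := (Finset.mem_filter.1 hY).2 _ h4 Finset.subset_union_right
    exact hne (Finset.Subset.antisymm (Finset.subset_union_left.trans h6)
      (Finset.subset_union_right.trans h5))
  have hsubp : IsSubpartition P :=
    ⟨fun X hX => ((a1_mem_T H lam p X).1 (hPT X hX)).1, hdisj⟩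
  have huniv : lam ≤ ∑ v, p.2 v := by
    have h3 := hc univ Finset.univ_nonempty
    unfold a1f at h3
    rw [a1_dinx_univ] at h3
    linarith
  have hPne : P.Nonempty := by
    have h3 : ∃ v, 0 < p.2 v := by
      by_contra hcon
      push Not at hcon
      have : ∑ v, p.2 v ≤ 0 := Finset.sum_nonpos fun v _ => hcon v
      linarith
    obtain ⟨v, hv⟩ := h3
    obtain ⟨X, hX, _⟩ := h2 v hv
    obtain ⟨Z, hZ, _⟩ := hcov X hX
    exact ⟨Z, hZ⟩
  set U : Finset V := P.biUnion id with hU
  have hTU : ∀ X ∈ a1T H lam p, X ⊆ U := by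
    intro X hX
    obtain ⟨Z, hZ, hXZ⟩ := hcov X hX
    exact hXZ.trans (Finset.subset_biUnion_of_mem id hZ)
  have hδ : ∀ a : ℝ, 0 < a → 0 < min (ε / 2) a ∧ min (ε / 2) a ≤ a ∧ min (ε / 2) a < ε := by
    intro a ha
    refine ⟨lt_min (by linarith) ha, min_le_right _ _, ?_⟩
    have : min (ε / 2) a ≤ ε / 2 := min_le_left _ _
    linarith
  -- (4)
  have h4a : ∀ e, H.isEdge e = true → H.fst e ∈ U → H.snd e ∉ U → p.1 e = 0 := by
    intro e he hfu hsu
    by_contra hcon
    have hpos : 0 < p.1 e := lt_of_le_of_ne (hx e).1 (Ne.symm hcon)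
    obtain ⟨hd1, hd2, hd3⟩ := hδ _ hpos
    obtain ⟨X0, hX0, hfX0⟩ := Finset.mem_biUnion.1 hfu
    have hns : ∀ X ∈ a1T H lam p, H.snd e ∉ X := fun X hX h => hsu (hTU X hX h)
    refine a1_no_shift H hp hmin e he (-(min (ε / 2) (p.1 e))) (by linarith)
      (by linarith [(hx e).2.1]) (fun X hX => ?_) X0 (hPT X0 hX0) ?_ (fun X hX hXT => ?_)
    · unfold a1s
      rw [if_neg (fun h => hns X hX h.2)]
      split_ifs <;> nlinarith
    · unfold a1s
      rw [if_neg (fun h => hns X0 (hPT X0 hX0) h.2), if_pos ⟨hns X0 (hPT X0 hX0), hfX0⟩]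
      nlinarith
    · rw [abs_neg, abs_of_pos hd1]
      have := hslack X hX hXT
      linarith
  have h4b : ∀ e, H.isEdge e = true → H.fst e ∉ U → H.snd e ∈ U → p.1 e = 1 := by
    intro e he hfu hsu
    by_contra hcon
    have hpos : 0 < 1 - p.1 e := by
      have := lt_of_le_of_ne (hx e).2.1 hcon
      linarith
    obtain ⟨hd1, hd2, hd3⟩ := hδ _ hpos
    obtain ⟨X0, hX0, hsX0⟩ := Finset.mem_biUnion.1 hsu
    have hnf : ∀ X ∈ a1T H lam p, H.fst e ∉ X := fun X hX h => hfu (hTU X hX h)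
    refine a1_no_shift H hp hmin e he (min (ε / 2) (1 - p.1 e)) (by linarith [(hx e).1])
      (by linarith) (fun X hX => ?_) X0 (hPT X0 hX0) ?_ (fun X hX hXT => ?_)
    · unfold a1s
      rw [if_neg (c := H.snd e ∉ X ∧ H.fst e ∈ X) (fun h => hnf X hX h.2)]
      split_ifs <;> nlinarith
    · unfold a1s
      rw [if_neg (c := H.snd e ∉ X0 ∧ H.fst e ∈ X0) (fun h => hnf X0 (hPT X0 hX0) h.2),
        if_pos ⟨hnf X0 (hPT X0 hX0), hsX0⟩]
      nlinarith
    · rw [abs_of_pos hd1]
      have := hslack X hX hXT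
      linarith
  -- (5)
  have hsum1 : ∑ X ∈ P, ∑ v ∈ X, p.2 v = ∑ v, p.2 v := by
    have h3 : ∑ v ∈ U, p.2 v = ∑ X ∈ P, ∑ v ∈ X, p.2 v := by
      rw [hU]
      exact Finset.sum_biUnion (fun X hX Y hY hne => hdisj X hX Y hY hne)
    rw [← h3]
    refine Finset.sum_subset (Finset.subset_univ _) fun v _ hv => ?_
    by_contra hcon
    have hpos : 0 < p.2 v := lt_of_le_of_ne (hr v).1 (Ne.symm hcon)
    obtain ⟨X, hX, hvX⟩ := h2 v hpos
    exact hv (hTU X hX hvX)
  have hsupU : P.sup id = U := by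
    rw [hU, Finset.sup_eq_biUnion]
  have hterm : ∀ e, (if e ∈ edgesAcross H P then (1 : ℝ) else 0) +
      ∑ X ∈ P, (if e ∈ arcsInto H X then (1 : ℝ) else 0) ≤ ∑ X ∈ P, a1t H p.1 X e := by
    intro e
    by_cases he : H.isEdge e = true
    · have h3 : ∑ X ∈ P, (if e ∈ arcsInto H X then (1 : ℝ) else 0) = 0 := by
        refine Finset.sum_eq_zero fun X _ => ?_
        rw [if_neg]
        intro h
        have := ((a1_mem_into H X e).1 h).1
        rw [he] at this
        exact absurd this (by simp)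
      rw [h3, add_zero]
      have hnn : ∀ X ∈ P, 0 ≤ a1t H p.1 X e := fun X _ => a1_t_nonneg H hx X e
      by_cases hac : e ∈ edgesAcross H P
      · rw [if_pos hac]
        have h4 := ((a1_mem_across H P e).1 hac).2
        push Not at h4
        by_cases hf : H.fst e ∈ U
        · obtain ⟨X1, hX1, hfX1⟩ := Finset.mem_biUnion.1 hf
          have hs1 : H.snd e ∉ X1 := h4 X1 (Finset.mem_insert_of_mem hX1) hfX1
          have ht1 : a1t H p.1 X1 e = 1 - p.1 e := by
            unfold a1t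
            rw [if_neg (fun h => hs1 h.2), if_pos ⟨hs1, hfX1⟩, zero_add]
          by_cases hs : H.snd e ∈ U
          · obtain ⟨X2, hX2, hsX2⟩ := Finset.mem_biUnion.1 hs
            have hne12 : X1 ≠ X2 := fun h => hs1 (h ▸ hsX2)
            have hf2 : H.fst e ∉ X2 := fun h =>
              h4 X2 (Finset.mem_insert_of_mem hX2) h hsX2
            have ht2 : a1t H p.1 X2 e = p.1 e := by
              unfold a1t
              rw [if_pos ⟨hf2, hsX2⟩, if_neg (fun h => hf2 h.2), add_zero]
            have h5 : ∑ X ∈ ({X1, X2} : Finset (Finset V)), a1t H p.1 X e ≤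
                ∑ X ∈ P, a1t H p.1 X e := by
              refine Finset.sum_le_sum_of_subset_of_nonneg ?_ (fun X hX _ => hnn X hX)
              intro X hX
              rcases Finset.mem_insert.1 hX with rfl | hX
              · exact hX1
              · rw [Finset.mem_singleton.1 hX]
                exact hX2
            rw [Finset.sum_pair hne12, ht1, ht2] at h5
            linarith
          · have h5 := h4a e he hf hs
            have h6 := Finset.single_le_sum hnn hX1
            rw [ht1, h5] at h6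
            linarith
        · by_cases hs : H.snd e ∈ U
          · obtain ⟨X2, hX2, hsX2⟩ := Finset.mem_biUnion.1 hs
            have hf2 : H.fst e ∉ X2 := fun h =>
              hf (Finset.mem_biUnion.2 ⟨X2, hX2, h⟩)
            have ht2 : a1t H p.1 X2 e = p.1 e := by
              unfold a1t
              rw [if_pos ⟨hf2, hsX2⟩, if_neg (fun h => hf2 h.2), add_zero]
            have h5 := h4b e he hf hs
            have h6 := Finset.single_le_sum hnn hX2
            rw [ht2, h5] at h6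
            exact h6
          · exfalso
            refine h4 _ (Finset.mem_insert_self _ _) ?_ ?_
            · rw [hsupU]
              exact Finset.mem_sdiff.2 ⟨Finset.mem_univ _, hf⟩
            · rw [hsupU]
              exact Finset.mem_sdiff.2 ⟨Finset.mem_univ _, hs⟩
      · rw [if_neg hac]
        exact Finset.sum_nonneg hnn
    · have he' : H.isEdge e = false := by simpa using he
      have h3 : e ∉ edgesAcross H P := fun h => he ((a1_mem_across H P e).1 h).1
      rw [if_neg h3, zero_add]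
      refine Finset.sum_le_sum fun X _ => ?_
      have h4 := (hx e).2.2 he'
      by_cases hXe : e ∈ arcsInto H X
      · rw [if_pos hXe]
        obtain ⟨_, h5, h6⟩ := (a1_mem_into H X e).1 hXe
        unfold a1t
        rw [if_pos ⟨h5, h6⟩, if_neg (fun h => h5 h.2), h4]
        norm_num
      · rw [if_neg hXe]
        exact a1_t_nonneg H hx X e
  have hwt : (wt H P : ℝ) ≤ ∑ X ∈ P, dinx H p.1 X := by
    have h3 : (wt H P : ℝ) = ∑ e, ((if e ∈ edgesAcross H P then (1 : ℝ) else 0) +
        ∑ X ∈ P, (if e ∈ arcsInto H X then (1 : ℝ) else 0)) := by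
      rw [Finset.sum_add_distrib, Finset.sum_comm]
      unfold wt
      push_cast
      congr 1
      · rw [Finset.sum_boole, Finset.filter_mem_eq_inter, Finset.univ_inter]
      · refine Finset.sum_congr rfl fun X _ => ?_
        rw [Finset.sum_boole, Finset.filter_mem_eq_inter, Finset.univ_inter]
    have h4 : ∑ X ∈ P, dinx H p.1 X = ∑ e, ∑ X ∈ P, a1t H p.1 X e := by
      rw [Finset.sum_comm]
      rfl
    rw [h3, h4]
    exact Finset.sum_le_sum fun e _ => hterm e
  have hlamP : lam * (P.card : ℝ) = ∑ X ∈ P, dinx H p.1 X + ∑ v, p.2 v := by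
    rw [← hsum1, ← Finset.sum_add_distrib]
    have h3 : ∀ X ∈ P, dinx H p.1 X + ∑ v ∈ X, p.2 v = lam := fun X hX =>
      ((a1_mem_T H lam p X).1 (hPT X hX)).2
    rw [Finset.sum_congr rfl h3, Finset.sum_const, nsmul_eq_mul, mul_comm]
  refine ⟨p.1, p.2, hx, fun v => (hr v).1, ?_, fun X hX => hc X hX⟩
  have h3 := hP P hsubp hPne
  have h4 : lam * ((P.card : ℝ) - 1) = lam * (P.card : ℝ) - lam := by ring
  rw [h4] at h3
  linarith

end A1

/-- ARB-A1. -/
theorem sA1 : SA1 := by
  intro V I _ _ _ _ _ H lam hl hP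
  exact a1_main H hl hP

end ARB
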