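import Pool.Agent.H22.ARB.Stm

/-!
# Orientations of mixed graphs with prescribed indegrees (Hakimi), and moving a token
-/

namespace ARB

open Finset

/-- ARB-H: orientations with prescribed indegrees (Hakimi, for mixed graphs; by Hall's theorem). -/
theorem sHak : SHak := by
  classical
  intro V I _ _ _ _ H m hsum hcaught
  let t : I → Finset ((v : V) × Fin (m v)) := fun e =>
    univ.filter (fun p => p.1 = H.snd e ∨ (H.isEdge e = true ∧ p.1 = H.fst e))
  have hall : ∀ s : Finset I, s.card ≤ (s.biUnion t).card := by
    intro s
    let N : Finset V := univ.filter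
      (fun v => ∃ e ∈ s, v = H.snd e ∨ (H.isEdge e = true ∧ v = H.fst e))
    have h1 : s ⊆ univ.filter (fun e => H.snd e ∈ N ∧ (H.isEdge e = true → H.fst e ∈ N)) := by
      intro e he
      simp only [N, mem_filter, mem_univ, true_and]
      exact ⟨⟨e, he, Or.inl rfl⟩, fun h => ⟨e, he, Or.inr ⟨h, rfl⟩⟩⟩
    have h2 : (N.sigma (fun v => (univ : Finset (Fin (m v))))) ⊆ s.biUnion t := by
      intro p hp
      simp only [mem_sigma, mem_univ, and_true, N, mem_filter, true_and] at hp
      obtain ⟨e, he, h⟩ := hp
      simp only [mem_biUnion, t, mem_filter, mem_univ, true_and]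
      exact ⟨e, he, h⟩
    have h3 : (N.sigma (fun v => (univ : Finset (Fin (m v))))).card = ∑ v ∈ N, m v := by
      rw [card_sigma]
      simp
    calc s.card ≤ caught H N := card_le_card h1
      _ ≤ ∑ v ∈ N, m v := hcaught N
      _ = _ := h3.symm
      _ ≤ _ := card_le_card h2
  obtain ⟨f, hf, hft⟩ := (Finset.all_card_le_biUnion_card_iff_exists_injective t).1 hall
  have hcard : Fintype.card I = Fintype.card ((v : V) × Fin (m v)) := by
    rw [Fintype.card_sigma]
    simp [← hsum]
  have hbij : Function.Bijective f := (Fintype.bijective_iff_injective_and_card f).2 ⟨hf, hcard⟩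
  have hft' : ∀ e, (f e).1 = H.snd e ∨ (H.isEdge e = true ∧ (f e).1 = H.fst e) := by
    intro e
    have := hft e
    simpa [t] using this
  refine ⟨{ tail := fun e => if (f e).1 = H.snd e then H.fst e else H.snd e
            head := fun e => (f e).1
            ok := ?_ }, ?_⟩
  · intro e
    by_cases h : (f e).1 = H.snd e
    · left
      simp [h]
    · right
      rcases hft' e with h' | ⟨h1, h2⟩
      · exact absurd h' h
      · exact ⟨h1, by simp [h], h2⟩
  · intro y
    show (univ.filter (fun e => (f e).1 = y)).card = m y
    have h1 : (univ.filter (fun e => (f e).1 = y)).card =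
        (univ.filter (fun p : (v : V) × Fin (m v) => p.1 = y)).card := by
      apply card_bij (fun e _ => f e)
      · intro e he
        simpa using he
      · intro e _ e' _ h
        exact hf h
      · intro p hp
        obtain ⟨e, he⟩ := hbij.2 p
        refine ⟨e, ?_, he⟩
        simp only [mem_filter, mem_univ, true_and] at hp ⊢
        rw [he]; exact hp
    rw [h1]
    have h2 : (univ.filter (fun p : (v : V) × Fin (m v) => p.1 = y)) =
        ({y} : Finset V).sigma (fun v => (univ : Finset (Fin (m v)))) := by
      ext p
      simp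
    rw [h2, card_sigma]
    simp

/-- ARB-M: moving a token along a directed path of undirected edges (not in `Z`). -/
theorem sMove (h : SHak) : SMove := by
  classical
  intro V I _ _ _ _ H Z o u x hpath
  by_cases hux : u = x
  · subst hux
    exact ⟨o, fun e _ => ⟨rfl, rfl⟩, fun y => rfl⟩
  have hloop : ∀ e, o.tail e ≠ o.head e := by
    intro e
    rcases o.ok e with ⟨h1, h2⟩ | ⟨_, h1, h2⟩
    · rw [h1, h2]; exact H.noLoop e
    · rw [h1, h2]; exact (H.noLoop e).symm
  let H' : MixedGraph V I :=
    { fst := o.tail
      snd := o.head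
      isEdge := fun e => decide (H.isEdge e = true ∧ e ∉ Z)
      noLoop := hloop }
  -- the path enters every set that contains `x` but not `u`
  have henter : ∀ Y : Finset V, x ∈ Y → u ∉ Y →
      ∃ e, e ∉ Z ∧ H.isEdge e = true ∧ o.tail e ∉ Y ∧ o.head e ∈ Y := by
    intro Y hx hu
    by_contra hcon
    push Not at hcon
    have : ∀ w, Relation.ReflTransGen
      (fun a b => ∃ e, e ∉ Z ∧ H.isEdge e = true ∧ o.tail e = a ∧ o.head e = b) u w → w ∉ Y := by
      intro w hw
      induction hw with
      | refl => exact hu
      | tail _ hbc ih =>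
        obtain ⟨e, he, he', h1, h2⟩ := hbc
        rw [← h2]
        exact hcon e he he' (by rw [h1]; exact ih)
    exact this x hpath hx
  have hx1 : 1 ≤ indeg o x := by
    obtain ⟨e, _, _, _, h2⟩ := henter {x} (by simp) (by simpa using hux)
    unfold indeg
    apply card_pos.2
    exact ⟨e, by simpa using h2⟩
  let m : V → ℕ := fun y => indeg o y + (if y = u then 1 else 0) - (if y = x then 1 else 0)
  have hm : ∀ y, m y + (if y = x then 1 else 0) = indeg o y + (if y = u then 1 else 0) := by
    intro y
    simp only [m]
    by_cases hy : y = x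
    · subst hy
      simp only [if_true]
      omega
    · simp [hy]
  -- sum of indegrees over a set
  have hin : ∀ Y : Finset V, ∑ y ∈ Y, indeg o y = (univ.filter (fun e => o.head e ∈ Y)).card := by
    intro Y
    unfold indeg
    rw [card_eq_sum_card_fiberwise (f := o.head) (t := Y) (s := univ.filter (fun e => o.head e ∈ Y))]
    · apply sum_congr rfl
      intro y hy
      congr 1
      ext e
      simp only [mem_filter, mem_univ, true_and]
      constructor
      · intro h; exact ⟨by rw [h]; exact hy, h⟩
      · intro h; exact h.2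
    · intro e he
      simpa using he
  have hmsum : ∀ Y : Finset V, ∑ y ∈ Y, m y + (if x ∈ Y then 1 else 0) =
      ∑ y ∈ Y, indeg o y + (if u ∈ Y then 1 else 0) := by
    intro Y
    have h1 : ∑ y ∈ Y, (m y + (if y = x then 1 else 0)) =
        ∑ y ∈ Y, (indeg o y + (if y = u then 1 else 0)) := sum_congr rfl (fun y _ => hm y)
    rw [sum_add_distrib, sum_add_distrib, sum_ite_eq', sum_ite_eq'] at h1
    exact h1
  have hsum : ∑ y, m y = Fintype.card I := by
    have h1 := hmsum univ
    rw [hin univ] at h1
    simp only [mem_univ, if_true, filter_true, card_univ] at h1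
    omega
  have hcaught : ∀ Y : Finset V, caught H' Y ≤ ∑ v ∈ Y, m v := by
    intro Y
    have h1 := hmsum Y
    rw [hin Y] at h1
    have hsub : (univ.filter (fun e => H'.snd e ∈ Y ∧ (H'.isEdge e = true → H'.fst e ∈ Y))) ⊆
        univ.filter (fun e => o.head e ∈ Y) := by
      intro e he
      simp only [mem_filter, mem_univ, true_and] at he ⊢
      exact he.1
    have hle : caught H' Y ≤ (univ.filter (fun e => o.head e ∈ Y)).card := card_le_card hsub
    by_cases hx : x ∈ Y
    · by_cases hu : u ∈ Y
      · simp only [hx, hu, if_true] at h1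
        omega
      · obtain ⟨e, he1, he2, he3, he4⟩ := henter Y hx hu
        have hlt : caught H' Y < (univ.filter (fun e => o.head e ∈ Y)).card := by
          apply card_lt_card
          refine (Finset.ssubset_iff_of_subset hsub).2 ⟨e, by simpa using he4, ?_⟩
          simp only [mem_filter, mem_univ, true_and, not_and]
          intro _ h'
          have h3 : H'.isEdge e = true := by
            simp only [H', decide_eq_true_eq]
            exact ⟨he2, he1⟩
          exact he3 (h' h3)
        simp only [hx, hu, if_true, if_false] at h1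
        omega
    · simp only [hx, if_false] at h1
      omega
  obtain ⟨o'', ho''⟩ := h V I H' m hsum hcaught
  have hok : ∀ e, (o''.tail e = o.tail e ∧ o''.head e = o.head e) ∨
      ((H.isEdge e = true ∧ e ∉ Z) ∧ o''.tail e = o.head e ∧ o''.head e = o.tail e) := by
    intro e
    rcases o''.ok e with h1 | ⟨h1, h2⟩
    · exact Or.inl h1
    · right
      refine ⟨?_, h2⟩
      simpa only [H', decide_eq_true_eq] using h1
  refine ⟨{ tail := o''.tail, head := o''.head, ok := ?_ }, ?_, ?_⟩
  · intro e
    rcases hok e with ⟨h1, h2⟩ | ⟨⟨h0, _⟩, h1, h2⟩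
    · rw [h1, h2]; exact o.ok e
    · rcases o.ok e with ⟨h3, h4⟩ | ⟨_, h3, h4⟩
      · right
        exact ⟨h0, by rw [h1, h4], by rw [h2, h3]⟩
      · left
        exact ⟨by rw [h1, h4], by rw [h2, h3]⟩
  · intro e he
    rcases hok e with h1 | ⟨⟨_, h0⟩, _⟩
    · exact h1
    · exact absurd he h0
  · intro y
    have h1 : indeg o'' y = m y := ho'' y
    have h2 := hm y
    rw [← h1] at h2
    exact h2

end ARB
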