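import Pool.Agent.H22.ARB.Stm

/-!
# ARB-I: the isolation lemma (digraph form)
-/

namespace ARB

open Finset

section IsoAux

variable {V I : Type} [Fintype V] [DecidableEq V] [Fintype I] [DecidableEq I]

omit [Fintype V] [DecidableEq I] in
theorem iso_fib (f : I → V) (P : I → Prop) [DecidablePred P] (A : Finset V) :
    (univ.filter (fun e => f e ∈ A ∧ P e)).card =
      ∑ a ∈ A, (univ.filter (fun e => f e = a ∧ P e)).card := by
  rw [Finset.card_eq_sum_card_fiberwise (f := f) (t := A)]
  · refine Finset.sum_congr rfl (fun a ha => ?_)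
    congr 1
    ext e
    simp only [mem_filter, mem_univ, true_and]
    constructor
    · rintro ⟨⟨_, h2⟩, h3⟩
      exact ⟨h3, h2⟩
    · rintro ⟨h1, h2⟩
      exact ⟨⟨h1 ▸ ha, h2⟩, h1⟩
  · intro e he
    simp only [coe_filter, mem_univ, true_and, Set.mem_ofPred_eq] at he
    exact he.1

/-- The count behind both hypotheses of the growth lemma. -/
theorem iso_count (tl hd : I → V) (k : ℕ) (r : V → ℕ) (R : Finset V) (v : V)
    (hl : ∀ e, tl e ≠ hd e)
    (hi : ∀ x, (univ.filter (fun e => hd e = x)).card + r x + (if x ∈ R then 1 else 0) = k + 1)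
    (hin : ∀ X : Finset V, v ∈ X → 2 ≤ X.card → X ≠ univ →
      (univ.filter (fun e => tl e ∈ X ∧ hd e ∈ X)).card + 1 ≤ (k + 1) * (X.card - 1))
    (hm : ∀ u, u ≠ v → (univ.filter (fun e => tl e = u ∧ hd e = v)).card = r u)
    (Y : Finset V) (hY : Y.Nonempty) (hvY : v ∉ Y) (hR : ∀ y ∈ Y, y ∉ R)
    (hun : insert v Y ≠ univ) :
    ∃ e, hd e ∈ Y ∧ tl e ∉ insert v Y := by
  by_contra hcon
  push Not at hcon
  have hcard : (insert v Y).card = Y.card + 1 := Finset.card_insert_of_notMem hvY
  have hY1 : 1 ≤ Y.card := hY.card_pos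
  have h1 := hin (insert v Y) (mem_insert_self _ _) (by omega) hun
  rw [hcard] at h1
  have hsplit : (univ.filter (fun e => tl e ∈ insert v Y ∧ hd e ∈ insert v Y)).card =
      (univ.filter (fun e => hd e ∈ Y)).card +
      (univ.filter (fun e => tl e ∈ Y ∧ hd e = v)).card := by
    rw [← Finset.card_union_of_disjoint]
    · congr 1
      ext e
      simp only [mem_filter, mem_univ, true_and, mem_union, mem_insert]
      constructor
      · rintro ⟨h2, h3⟩
        rcases h3 with h3 | h3
        · right
          refine ⟨?_, h3⟩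
          rcases h2 with h2 | h2
          · exact absurd (h2.trans h3.symm) (hl e)
          · exact h2
        · left; exact h3
      · rintro (h2 | ⟨h2, h3⟩)
        · have := hcon e h2
          rw [mem_insert] at this
          exact ⟨this, Or.inr h2⟩
        · exact ⟨Or.inr h2, Or.inl h3⟩
    · rw [Finset.disjoint_left]
      intro e he he'
      simp only [mem_filter, mem_univ, true_and] at he he'
      exact hvY (he'.2 ▸ he)
  have ha : (univ.filter (fun e => hd e ∈ Y)).card + ∑ y ∈ Y, r y = (k + 1) * Y.card := by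
    have h2 : (univ.filter (fun e => hd e ∈ Y)).card =
        ∑ y ∈ Y, (univ.filter (fun e => hd e = y)).card := by
      have := iso_fib hd (fun _ => True) Y
      simpa using this
    rw [h2, ← Finset.sum_add_distrib]
    have h3 : ∀ y ∈ Y, (univ.filter (fun e => hd e = y)).card + r y = k + 1 := by
      intro y hy
      have := hi y
      rw [if_neg (hR y hy)] at this
      simpa using this
    rw [Finset.sum_congr rfl h3, Finset.sum_const, smul_eq_mul, Nat.mul_comm]
  have hb : (univ.filter (fun e => tl e ∈ Y ∧ hd e = v)).card = ∑ y ∈ Y, r y := by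
    rw [iso_fib tl (fun e => hd e = v) Y]
    refine Finset.sum_congr rfl (fun y hy => ?_)
    exact hm y (fun h => hvY (h ▸ hy))
  rw [hsplit] at h1
  have hk : (k + 1) * (Y.card + 1 - 1) = (k + 1) * Y.card := by simp
  rw [hk] at h1
  omega

end IsoAux

theorem sIso (h : SGrow) : SIso := by
  intro V I _ _ _ _ tl hd k r R v hl hi hr hv hne hcut hin hm
  have key := h V I tl hd univ (fun X => (k : ℤ) - ∑ x ∈ X, (r x : ℤ)) (R.erase v)
    (univ.erase v) (Finset.erase_subset_erase v (Finset.subset_univ R))
    ?_ ?_ ?_ ?_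
  · obtain ⟨F, -, hF, hX⟩ := key
    refine ⟨F, hF, fun X hXn => ?_⟩
    have := hX X hXn
    have h2 : ((∑ x ∈ X, r x : ℕ) : ℤ) = ∑ x ∈ X, (r x : ℤ) := by push_cast; rfl
    omega
  · -- supermodular
    intro X Y _
    have := Finset.sum_union_inter (s₁ := X) (s₂ := Y) (f := fun x => (r x : ℤ))
    linarith
  · intro X hX
    have h1 := hcut X hX
    have h2 : ((∑ x ∈ X, r x : ℕ) : ℤ) = ∑ x ∈ X, (r x : ℤ) := by push_cast; rfl
    split_ifs at h1 <;> omega
  · -- (H1)
    intro S hQS hSU
    have hvS : v ∉ S := fun hh => by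
      have := hSU.1 hh
      simp at this
    obtain ⟨y0, hy0U, hy0S⟩ := Finset.exists_of_ssubset hSU
    obtain ⟨e, he1, he2⟩ := iso_count tl hd k r R v hl hi hin hm (univ.erase v \ S)
      ⟨y0, by rw [mem_sdiff]; exact ⟨hy0U, hy0S⟩⟩ (by simp)
      (by
        intro y hy hyR
        rw [mem_sdiff, mem_erase] at hy
        exact hy.2 (hQS (mem_erase.2 ⟨hy.1.1, hyR⟩)))
      (by
        intro hh
        obtain ⟨q, hq⟩ := hne
        have hqS := hQS hq
        have : q ∈ insert v (univ.erase v \ S) := by rw [hh]; exact mem_univ q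
        rw [mem_insert, mem_sdiff] at this
        rcases this with h1 | h1
        · exact hvS (h1 ▸ hqS)
        · exact h1.2 hqS)
    refine ⟨e, mem_univ _, ?_, he1⟩
    by_contra hcon
    apply he2
    rw [mem_insert, mem_sdiff, mem_erase]
    by_cases hev : tl e = v
    · exact Or.inl hev
    · exact Or.inr ⟨⟨hev, mem_univ _⟩, hcon⟩
  · -- (H2)
    intro S X F hQS hSU hFJ hFS hXn hdin
    have hvS : v ∉ S := fun hh => by
      have := hSU.1 hh
      simp at this
    have hdin' : din tl hd (univ \ F) X + ∑ x ∈ X, r x = k := by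
      have h2 : ((∑ x ∈ X, r x : ℕ) : ℤ) = ∑ x ∈ X, (r x : ℤ) := by push_cast; rfl
      omega
    by_contra hcon
    push Not at hcon
    set W := X ∩ (univ.erase v \ S) with hW
    have hWX : W ⊆ X := inter_subset_left
    have hWmem : ∀ w, w ∈ W ↔ w ∈ X ∧ w ≠ v ∧ w ∉ S := by
      intro w
      rw [hW, mem_inter, mem_sdiff, mem_erase]
      simp
    have hWR : ∀ y ∈ W, y ∉ R := by
      intro y hy hyR
      rw [hWmem] at hy
      exact hy.2.2 (hQS (mem_erase.2 ⟨hy.2.1, hyR⟩))
    by_cases hvX : v ∈ X
    · -- v ∈ X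
      obtain ⟨e0, he1, he2⟩ := iso_count tl hd k r R v hl hi hin hm W hXn
        (fun hh => ((hWmem v).1 hh).2.1 rfl) hWR
        (by
          intro hh
          obtain ⟨q, hq⟩ := hne
          have hqS := hQS hq
          have : q ∈ insert v W := by rw [hh]; exact mem_univ q
          rw [mem_insert, hWmem] at this
          rcases this with h1 | h1
          · exact hvS (h1 ▸ hqS)
          · exact h1.2.2 hqS)
      have he0X : tl e0 ∉ X := by
        intro hh
        have hnv : tl e0 ≠ v := fun h1 => he2 (by rw [h1]; exact mem_insert_self _ _)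
        by_cases hs : tl e0 ∈ S
        · exact hcon e0 (mem_univ _) (mem_inter.2 ⟨hh, hs⟩) he1
        · exact he2 (mem_insert_of_mem ((hWmem _).2 ⟨hh, hnv, hs⟩))
      -- the elements with head v and tail outside X
      have hA : (univ.filter (fun e => tl e ∉ X ∧ hd e = v)).card + ∑ x ∈ X, r x = k := by
        have h1 : (univ.filter (fun e => tl e ∉ X ∧ hd e = v)).card = ∑ x ∈ univ \ X, r x := by
          have h2 : (univ.filter (fun e => tl e ∉ X ∧ hd e = v)) =
              univ.filter (fun e => tl e ∈ univ \ X ∧ hd e = v) := by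
            ext e
            simp
          rw [h2, iso_fib tl (fun e => hd e = v) (univ \ X)]
          refine Finset.sum_congr rfl (fun y hy => ?_)
          refine hm y (fun h3 => ?_)
          rw [mem_sdiff] at hy
          exact hy.2 (h3 ▸ hvX)
        rw [h1, ← hr]
        exact Finset.sum_sdiff (Finset.subset_univ X)
      have hB : insert e0 (univ.filter (fun e => tl e ∉ X ∧ hd e = v)) ⊆
          (univ \ F).filter (fun e => tl e ∉ X ∧ hd e ∈ X) := by
        intro e he
        rw [mem_insert] at he
        rw [mem_filter, mem_sdiff]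
        rcases he with he | he
        · subst he
          refine ⟨⟨mem_univ _, fun hF => ?_⟩, he0X, hWX he1⟩
          exact ((hWmem _).1 he1).2.2 (hFS _ hF).2
        · rw [mem_filter] at he
          refine ⟨⟨mem_univ _, fun hF => ?_⟩, he.2.1, he.2.2 ▸ hvX⟩
          have := (hFS _ hF).2
          rw [he.2.2] at this
          exact hvS this
      have hC := Finset.card_le_card hB
      rw [Finset.card_insert_of_notMem] at hC
      · unfold din at hdin'
        omega
      · rw [mem_filter]
        rintro ⟨-, -, h3⟩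
        exact ((hWmem _).1 he1).2.1 h3
    · -- v ∉ X
      have hD : Disjoint R W := by
        rw [Finset.disjoint_right]
        exact hWR
      have h1 := hcut W hXn
      rw [if_pos hD] at h1
      have h2 : din tl hd univ W ≤ din tl hd (univ \ F) X := by
        unfold din
        refine Finset.card_le_card (fun e he => ?_)
        rw [mem_filter] at he
        obtain ⟨-, h3, h4⟩ := he
        rw [mem_filter, mem_sdiff]
        refine ⟨⟨mem_univ _, fun hF => ((hWmem _).1 h4).2.2 (hFS _ hF).2⟩, fun hX => ?_, hWX h4⟩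
        by_cases hs : tl e ∈ S
        · exact hcon e (mem_univ _) (mem_inter.2 ⟨hX, hs⟩) h4
        · exact h3 ((hWmem _).2 ⟨hX, fun h5 => hvX (h5 ▸ hX), hs⟩)
      have h3 : ∑ x ∈ W, r x ≤ ∑ x ∈ X, r x :=
        Finset.sum_le_sum_of_subset hWX
      omega

end ARB
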