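import Pool.Agent.H22.ARB.Stm

/-!
# MP_1cda34_co, row ARB-K1: the exact case for one arborescence
-/

set_option autoImplicit false

namespace ARB

open Finset

section KOne

variable {V I : Type} [Fintype V] [DecidableEq V] [Fintype I] [DecidableEq I]
  {H : MixedGraph V I}

/-- number of elements entering `X` -/
def k1dn (o : Orientation H) (X : Finset V) : ℕ := din o.tail o.head univ X

theorem k1_mono {W : Type} {r p : W → W → Prop} (h : ∀ a b, r a b → p a b) {x y : W}
    (hw : Relation.ReflTransGen r x y) : Relation.ReflTransGen p x y := by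
  induction hw with
  | refl => exact Relation.ReflTransGen.refl
  | tail _ h2 ih => exact ih.tail (h _ _ h2)

theorem k1_loop (o : Orientation H) (e : I) : o.tail e ≠ o.head e := by
  rcases o.ok e with ⟨h1, h2⟩ | ⟨_, h1, h2⟩
  · rw [h1, h2]
    exact H.noLoop e
  · rw [h1, h2]
    exact (H.noLoop e).symm

theorem k1_ends (o : Orientation H) (e : I) (X : Finset V) :
    (o.tail e ∈ X ∧ o.head e ∈ X) ↔ (H.fst e ∈ X ∧ H.snd e ∈ X) := by
  rcases o.ok e with ⟨h1, h2⟩ | ⟨_, h1, h2⟩
  · rw [h1, h2]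
  · rw [h1, h2]
    exact and_comm

theorem k1_arc (o : Orientation H) (e : I) (h : H.isEdge e ≠ true) :
    o.tail e = H.fst e ∧ o.head e = H.snd e := by
  rcases o.ok e with h1 | h1
  · exact h1
  · exact absurd h1.1 h

/-- (F1) -/
theorem k1_sum (o : Orientation H) (X : Finset V) :
    k1dn o X + inner H X = ∑ y ∈ X, indeg o y := by
  have h1 : (univ.filter (fun e => o.head e ∈ X)).card = ∑ y ∈ X, indeg o y := by
    rw [card_eq_sum_card_fiberwise (s := univ.filter (fun e => o.head e ∈ X)) (f := o.head)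
      (t := X) (fun e he => (mem_filter.1 he).2)]
    refine sum_congr rfl fun y hy => ?_
    unfold indeg
    congr 1
    ext e
    simp only [mem_filter, mem_univ, true_and]
    constructor
    · exact fun h => h.2
    · intro h
      exact ⟨by rw [h]; exact hy, h⟩
  rw [← h1]
  have h2 : univ.filter (fun e => o.head e ∈ X) =
      univ.filter (fun e => o.tail e ∉ X ∧ o.head e ∈ X) ∪
        univ.filter (fun e => H.fst e ∈ X ∧ H.snd e ∈ X) := by
    ext e
    simp only [mem_filter, mem_univ, true_and, mem_union]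
    rw [← k1_ends o e X]
    tauto
  rw [h2, card_union_of_disjoint]
  · rfl
  · rw [disjoint_left]
    intro e he he'
    rw [mem_filter] at he he'
    exact he.2.1 ((k1_ends o e X).2 he'.2).1

theorem k1_inner_univ : inner H univ = Fintype.card I := by
  unfold inner
  rw [filter_true_of_mem (fun e _ => ⟨mem_univ _, mem_univ _⟩), card_univ]

theorem k1_dn_univ (o : Orientation H) : k1dn o univ = 0 := by
  unfold k1dn din
  rw [card_eq_zero, filter_eq_empty_iff]
  intro e _ h
  exact h.1 (mem_univ _)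

theorem k1_total (o : Orientation H) : ∑ y, indeg o y = Fintype.card I := by
  rw [← k1_sum, k1_dn_univ, k1_inner_univ, zero_add]

theorem k1_dn_single (o : Orientation H) (y : V) : k1dn o {y} = indeg o y := by
  unfold k1dn din indeg
  congr 1
  ext e
  simp only [mem_filter, mem_univ, true_and, mem_singleton]
  constructor
  · exact fun h => h.2
  · intro h
    exact ⟨fun h1 => k1_loop o e (by rw [h1, h]), h⟩

theorem k1_dn_pos {o : Orientation H} {X : Finset V} (h : 1 ≤ k1dn o X) :
    ∃ e, o.tail e ∉ X ∧ o.head e ∈ X := by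
  unfold k1dn din at h
  obtain ⟨e, he⟩ := card_pos.1 h
  rw [mem_filter] at he
  exact ⟨e, he.2⟩

theorem k1_dn_zero {o : Orientation H} {X : Finset V} (h : k1dn o X = 0) (e : I)
    (he : o.head e ∈ X) : o.tail e ∈ X := by
  by_contra hc
  unfold k1dn din at h
  rw [card_eq_zero, filter_eq_empty_iff] at h
  exact h (mem_univ e) ⟨hc, he⟩

/-- bounds from the exact case -/
theorem k1_inner {d q : ℕ} (hd : 1 ≤ d) (hE : Exact H 1 d q) {X : Finset V} (hX : X.Nonempty) :
    inner H X + 2 ≤ 2 * X.card := by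
  have hc : 1 ≤ X.card := card_pos.2 hX
  by_cases hU : X = univ
  · rw [hU, k1_inner_univ, card_univ]
    have h1 := hE.1
    have h2 := hE.2.1
    have h3 : 2 ≤ Fintype.card V := by omega
    omega
  · have h1 := hE.2.2.1 X hX hU
    obtain ⟨c, hc'⟩ : ∃ c, X.card = c + 1 := ⟨X.card - 1, by omega⟩
    rw [hc', Nat.add_sub_cancel] at h1
    have h2 : d * inner H X ≤ d * (2 * c) := by
      have e : (1 + 1) * c = 2 * c := by ring
      rw [e] at h1
      omega
    have h3 := Nat.le_of_mul_le_mul_left h2 (by omega)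
    omega

theorem k1_inner' {d q : ℕ} (hE : Exact H 1 d q) {X : Finset V}
    (hX : 2 ≤ X.card) (hU : X ≠ univ) : inner H X + 1 ≤ (1 + 1) * (X.card - 1) := by
  have h1 := hE.2.2.1 X (card_pos.1 (by omega)) hU
  by_contra hc
  have h2 : (1 + 1) * (X.card - 1) ≤ inner H X := by omega
  have h3 := Nat.mul_le_mul_left d h2
  omega

/-- usable pairs -/
structure K1Us (o : Orientation H) (u : V) : Prop where
  le2 : ∀ y, indeg o y ≤ 2
  le1 : indeg o u ≤ 1
  cut : ∀ X : Finset V, X.Nonempty → u ∉ X → 1 ≤ k1dn o X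

/-- (F2) -/
theorem k1_good (hi : SIso) {d q : ℕ} (hd : 1 ≤ d) (hq : 1 ≤ q) (hE : Exact H 1 d q)
    {o : Orientation H} {u v : V} (hU : K1Us o u)
    (hv : (v = u ∧ indeg o u = 0) ∨
      (v ≠ u ∧ indeg o v = 1 ∧ ∃ e, o.tail e = u ∧ o.head e = v)) : GoodSol H 1 q := by
  classical
  set R : Finset V := univ.filter (fun y => (y ≠ u ∧ indeg o y = 1) ∨ (y = u ∧ indeg o u = 0))
    with hR
  have hge : ∀ y, y ≠ u → 1 ≤ indeg o y := by
    intro y hy
    rw [← k1_dn_single]
    exact hU.cut {y} (singleton_nonempty y) (by rw [mem_singleton]; exact hy.symm)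
  have hpt : ∀ y, indeg o y + (if y = u then 1 else 0) + (if y ∈ R then 1 else 0) = 1 + 1 := by
    intro y
    have h1 := hU.le2 y
    have h2 := hU.le1
    by_cases hy : y = u
    · subst hy
      rw [if_pos rfl]
      by_cases h3 : indeg o y = 0
      · rw [if_pos (by rw [hR, mem_filter]; exact ⟨mem_univ _, Or.inr ⟨rfl, h3⟩⟩), h3]
      · rw [if_neg]
        · omega
        · rw [hR, mem_filter]
          rintro ⟨_, h4 | h4⟩
          · exact h4.1 rfl
          · exact h3 h4.2
    · rw [if_neg hy]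
      have h3 := hge y hy
      by_cases h4 : indeg o y = 1
      · rw [if_pos (by rw [hR, mem_filter]; exact ⟨mem_univ _, Or.inl ⟨hy, h4⟩⟩), h4]
      · rw [if_neg]
        · omega
        · rw [hR, mem_filter]
          rintro ⟨_, h5 | h5⟩
          · exact h4 h5.2
          · exact hy h5.1
  have hvR : v ∈ R := by
    rw [hR, mem_filter]
    refine ⟨mem_univ _, ?_⟩
    rcases hv with h | h
    · exact Or.inr h
    · exact Or.inl ⟨h.1, h.2.1⟩
  have hcard : R.card = q + 1 := by
    have h1 : ∑ y, (indeg o y + (if y = u then 1 else 0) + (if y ∈ R then 1 else 0)) =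
        ∑ _y : V, (1 + 1) := sum_congr rfl fun y _ => hpt y
    rw [sum_add_distrib, sum_add_distrib, k1_total, sum_ite_eq' univ u (fun _ => 1),
      if_pos (mem_univ u), sum_const, card_univ, ← card_filter, filter_mem_eq_inter,
      univ_inter, smul_eq_mul] at h1
    have h2 := hE.1
    have h3 := hE.2.1
    have h4 : 2 ≤ Fintype.card V := by omega
    omega
  have hsumr : ∀ X : Finset V, ∑ y ∈ X, (if y = u then 1 else 0) = if u ∈ X then 1 else 0 :=
    fun X => sum_ite_eq' X u (fun _ => 1)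
  have hcut : ∀ X : Finset V, X.Nonempty → 1 + (if Disjoint R X then 1 else 0) ≤
      din o.tail o.head univ X + ∑ x ∈ X, (if x = u then 1 else 0) := by
    intro X hX
    rw [hsumr]
    show _ ≤ k1dn o X + _
    by_cases hdj : Disjoint R X
    · rw [if_pos hdj]
      have h1 := k1_sum o X
      have h2 := k1_inner hd hE hX
      have h3 : ∑ y ∈ X, (indeg o y + (if y = u then 1 else 0)) = 2 * X.card := by
        rw [mul_comm, ← smul_eq_mul, ← sum_const]
        refine sum_congr rfl fun y hy => ?_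
        have h4 := hpt y
        rw [if_neg (fun h => disjoint_left.1 hdj h hy)] at h4
        omega
      rw [sum_add_distrib, hsumr] at h3
      omega
    · rw [if_neg hdj]
      by_cases hu : u ∈ X
      · rw [if_pos hu]
        omega
      · have := hU.cut X hX hu
        omega
  have hin : ∀ X : Finset V, v ∈ X → 2 ≤ X.card → X ≠ univ →
      (univ.filter (fun e => o.tail e ∈ X ∧ o.head e ∈ X)).card + 1 ≤ (1 + 1) * (X.card - 1) := by
    intro X _ h2 h3
    have h4 : (univ.filter (fun e => o.tail e ∈ X ∧ o.head e ∈ X)).card = inner H X := by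
      unfold inner
      congr 1
      ext e
      rw [mem_filter, mem_filter, k1_ends]
    rw [h4]
    exact k1_inner' hE h2 h3
  have htl : ∀ u', u' ≠ v → (univ.filter (fun e => o.tail e = u' ∧ o.head e = v)).card =
      (if u' = u then 1 else 0) := by
    intro u' hu'
    rcases hv with ⟨h1, h2⟩ | ⟨h1, h2, e₀, h3, h4⟩
    · rw [if_neg (by rw [← h1]; exact hu'), card_eq_zero, filter_eq_empty_iff]
      intro e _ he
      have h3 : 0 < indeg o u := by
        unfold indeg
        exact card_pos.2 ⟨e, mem_filter.2 ⟨mem_univ _, by rw [he.2, h1]⟩⟩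
      omega
    · unfold indeg at h2
      obtain ⟨e₁, he₁⟩ := card_eq_one.1 h2
      have hall : ∀ e, o.head e = v → e = e₀ := by
        intro e he
        have h5 : e ∈ univ.filter (fun e => o.head e = v) := mem_filter.2 ⟨mem_univ _, he⟩
        have h6 : e₀ ∈ univ.filter (fun e => o.head e = v) := mem_filter.2 ⟨mem_univ _, h4⟩
        rw [he₁, mem_singleton] at h5 h6
        rw [h5, h6]
      by_cases h5 : u' = u
      · rw [if_pos h5, card_eq_one]
        refine ⟨e₀, ?_⟩
        ext e
        rw [mem_filter, mem_singleton]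
        constructor
        · exact fun h => hall e h.2.2
        · intro h
          rw [h, h3, h4, h5]
          exact ⟨mem_univ _, rfl, rfl⟩
      · rw [if_neg h5, card_eq_zero, filter_eq_empty_iff]
        intro e _ he
        have h6 := hall e he.2
        rw [h6, h3] at he
        exact h5 he.1.symm
  obtain ⟨F, hF, hFc⟩ := hi V I o.tail o.head 1 (fun y => if y = u then 1 else 0) R v
    (k1_loop o) hpt (by rw [hsumr, if_pos (mem_univ u)]) hvR
    (card_pos.1 (by rw [card_erase_of_mem hvR]; omega)) hcut hin htl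
  obtain ⟨hF1, hF2, hF3, hF4⟩ := hF
  have hFv : ∀ e ∈ F, o.tail e ≠ v ∧ o.head e ≠ v := fun e he =>
    ⟨(mem_erase.1 (hF2 e he).1).1, (mem_erase.1 (hF2 e he).2.1).1⟩
  refine ⟨o, fun y => if y = u then 1 else 0, F, R, v, ⟨⟨subset_univ _, ?_, hF3, ?_⟩, ?_, hFc⟩,
    hcard, hvR, ?_⟩
  · intro e he
    refine ⟨mem_univ _, mem_univ _, fun h => (hF2 e he).2.2 ?_⟩
    exact mem_erase.2 ⟨(hFv e he).2, h⟩
  · intro w _
    by_cases hw : w = v
    · exact ⟨v, hvR, by rw [hw]⟩
    · obtain ⟨r, hr, hrw⟩ := hF4 w (mem_erase.2 ⟨hw, mem_univ _⟩)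
      exact ⟨r, mem_of_mem_erase hr, hrw⟩
  · rw [hsumr, if_pos (mem_univ u)]
  · intro e he
    have h1 := hFv e he
    rcases o.ok e with ⟨h2, h3⟩ | ⟨_, h2, h3⟩
    · rw [h2, h3] at h1
      exact h1
    · rw [h2, h3] at h1
      exact ⟨h1.2, h1.1⟩

/-- (F0): the given solution is usable -/
theorem k1_start {d q : ℕ} (hE : Exact H 1 d q) {o : Orientation H} {r : V → ℕ} {F : Finset I}
    {R : Finset V} (hs : IsSol H 1 o r F R) (hR : R.card = q + 1) : ∃ u, K1Us o u := by
  classical
  obtain ⟨⟨hb1, hb2, hb3, hb4⟩, hr, hcut⟩ := hs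
  -- the root
  obtain ⟨u, hu⟩ : ∃ u, 1 ≤ r u := by
    by_contra hc
    push Not at hc
    have h1 : ∑ v, r v = 0 := sum_eq_zero fun v _ => by have := hc v; omega
    omega
  have hur : ∀ X : Finset V, u ∉ X → ∑ v ∈ X, r v = 0 := by
    intro X hX
    have h1 : ∑ v ∈ insert u X, r v ≤ ∑ v, r v :=
      sum_le_sum_of_subset (subset_univ _)
    rw [sum_insert hX, hr] at h1
    omega
  have hge : ∀ y, 2 ≤ indeg o y + r y + (if y ∈ R then 1 else 0) := by
    intro y
    have h1 : indeg o y = ((univ \ F).filter (fun e => o.head e = y)).card +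
        (F.filter (fun e => o.head e = y)).card := by
      unfold indeg
      rw [← card_union_of_disjoint]
      · congr 1
        ext e
        simp only [mem_filter, mem_univ, true_and, mem_union, mem_sdiff]
        tauto
      · rw [disjoint_left]
        intro e he he'
        rw [mem_filter, mem_sdiff] at he
        exact he.1.2 (mem_filter.1 he').1
    have h2 := hcut {y} (singleton_nonempty y)
    rw [sum_singleton] at h2
    have h3 : din o.tail o.head (univ \ F) {y} ≤
        ((univ \ F).filter (fun e => o.head e = y)).card := by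
      unfold din
      refine card_le_card ?_
      intro e he
      rw [mem_filter, mem_singleton, mem_singleton] at he
      exact mem_filter.2 ⟨he.1, he.2.2⟩
    by_cases hy : y ∈ R
    · rw [if_pos hy]
      omega
    · rw [if_neg hy]
      have h4 : 1 ≤ (F.filter (fun e => o.head e = y)).card := by
        obtain ⟨w, hw, hwy⟩ := hb4 y (mem_univ y)
        rcases Relation.ReflTransGen.cases_tail hwy with h5 | ⟨c, _, e, he, _, he2⟩
        · exact absurd (by rw [h5]; exact hw) hy
        · exact card_pos.2 ⟨e, mem_filter.2 ⟨he, he2⟩⟩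
      omega
  have heq : ∀ y, indeg o y + r y + (if y ∈ R then 1 else 0) = 2 := by
    have h1 : ∑ _y : V, 2 = ∑ y, (indeg o y + r y + (if y ∈ R then 1 else 0)) := by
      rw [sum_add_distrib, sum_add_distrib, k1_total, hr, sum_const, card_univ, ← card_filter,
        filter_mem_eq_inter, univ_inter, smul_eq_mul, hR]
      have h2 := hE.1
      have h3 := hE.2.1
      have h4 : 2 ≤ Fintype.card V := by omega
      omega
    have h2 := (sum_eq_sum_iff_of_le (fun y _ => hge y)).1 h1
    exact fun y => (h2 y (mem_univ y)).symm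
  refine ⟨u, fun y => ?_, ?_, fun X hX huX => ?_⟩
  · have := heq y
    omega
  · have := heq u
    omega
  · have h1 := hcut X hX
    rw [hur X huX, add_zero] at h1
    refine h1.trans ?_
    unfold k1dn din
    refine card_le_card ?_
    intro e he
    rw [mem_filter] at he
    exact mem_filter.2 ⟨mem_univ _, he.2⟩

open Classical in
/-- the smallest closed set -/
noncomputable def k1K (o : Orientation H) : Finset V :=
  univ.filter (fun y => ∀ X : Finset V, X.Nonempty → k1dn o X = 0 → y ∈ X)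

theorem k1_mem {o : Orientation H} {y : V} :
    y ∈ k1K o ↔ ∀ X : Finset V, X.Nonempty → k1dn o X = 0 → y ∈ X := by
  unfold k1K
  rw [mem_filter]
  exact ⟨fun h => h.2, fun h => ⟨mem_univ _, h⟩⟩

theorem k1_dnK (o : Orientation H) : k1dn o (k1K o) = 0 := by
  by_contra hc
  obtain ⟨e, h1, h2⟩ := k1_dn_pos (Nat.one_le_iff_ne_zero.2 hc)
  rw [k1_mem] at h1 h2
  push Not at h1
  obtain ⟨X, hX, hX0, hX1⟩ := h1
  exact hX1 (k1_dn_zero hX0 e (h2 X hX hX0))

theorem k1_sub {o : Orientation H} {X : Finset V} (hX : X.Nonempty) (h0 : k1dn o X = 0) :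
    k1K o ⊆ X := fun _ hy => k1_mem.1 hy X hX h0

theorem k1_us_mem {o : Orientation H} {u : V} (hU : K1Us o u) : u ∈ k1K o := by
  rw [k1_mem]
  intro X hX h0
  by_contra hc
  have := hU.cut X hX hc
  omega

theorem k1_us {o : Orientation H} (h2 : ∀ y, indeg o y ≤ 2) {t : V} (ht : t ∈ k1K o)
    (ht1 : indeg o t ≤ 1) : K1Us o t := by
  refine ⟨h2, ht1, fun X hX htX => ?_⟩
  by_contra hc
  exact htX (k1_mem.1 ht X hX (by omega))

/-- one step along an undirected edge inside `B` -/
def k1E (B : Finset V) (o : Orientation H) (a b : V) : Prop :=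
  ∃ e, H.isEdge e = true ∧ o.tail e = a ∧ o.head e = b ∧ a ∈ B ∧ b ∈ B

/-- minimal configurations -/
structure K1Cf (K : Finset V) (o : Orientation H) : Prop where
  le2 : ∀ y, indeg o y ≤ 2
  eqK : k1K o = K

theorem k1_walk_mem {B : Finset V} {o : Orientation H} {t x : V}
    (h : Relation.ReflTransGen (k1E B o) t x) : x = t ∨ x ∈ B := by
  rcases Relation.ReflTransGen.cases_tail h with h1 | ⟨c, _, _, _, _, _, _, h1⟩
  · exact Or.inl h1
  · exact Or.inr h1

/-- moving a token -/
theorem k1_move (hm : SMove) {K : Finset V}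
    (hmin : ∀ (o : Orientation H) (u : V), K1Us o u → K.card ≤ (k1K o).card)
    {o : Orientation H} (hC : K1Cf K o) {t x : V} (ht : t ∈ K) (ht1 : indeg o t ≤ 1)
    {B : Finset V} (hB : B ⊆ K) (hw : Relation.ReflTransGen (k1E B o) t x) :
    ∃ o' : Orientation H, K1Cf K o' ∧ K1Us o' x ∧
      (∀ e, ¬ (H.fst e ∈ B ∧ H.snd e ∈ B) → o'.tail e = o.tail e ∧ o'.head e = o.head e) ∧
      ∀ y, indeg o' y + (if y = x then 1 else 0) = indeg o y + (if y = t then 1 else 0) := by
  have hUt : K1Us o t := k1_us hC.le2 (by rw [hC.eqK]; exact ht) ht1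
  have hx : x ∈ K := by
    rcases k1_walk_mem hw with h | h
    · rw [h]; exact ht
    · exact hB h
  obtain ⟨o', hZ, hin⟩ := hm V I H
    (univ.filter (fun e => ¬ (H.fst e ∈ B ∧ H.snd e ∈ B))) o t x (by
      refine k1_mono ?_ hw
      rintro a b ⟨e, h1, h2, h3, h4, h5⟩
      refine ⟨e, ?_, h1, h2, h3⟩
      rw [mem_filter, not_and, not_not]
      intro _
      rw [← k1_ends o e B, h2, h3]
      exact ⟨h4, h5⟩)
  have hle2 : ∀ y, indeg o' y ≤ 2 := by
    intro y
    have h1 := hin y
    have h2 := hC.le2 y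
    by_cases hy : y = t
    · rw [if_pos hy] at h1
      rw [hy] at h1 ⊢
      split_ifs at h1 <;> omega
    · rw [if_neg hy] at h1
      split_ifs at h1 <;> omega
  have hdn : ∀ X : Finset V, k1dn o' X + (if x ∈ X then 1 else 0) =
      k1dn o X + (if t ∈ X then 1 else 0) := by
    intro X
    have h1 := k1_sum o X
    have h2 := k1_sum o' X
    have h3 : ∑ y ∈ X, (indeg o' y + (if y = x then 1 else 0)) =
        ∑ y ∈ X, (indeg o y + (if y = t then 1 else 0)) := sum_congr rfl fun y _ => hin y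
    rw [sum_add_distrib, sum_add_distrib, sum_ite_eq' X x (fun _ => 1),
      sum_ite_eq' X t (fun _ => 1)] at h3
    omega
  have hU : K1Us o' x := by
    refine ⟨hle2, ?_, fun X hX hxX => ?_⟩
    · have h1 := hin x
      rw [if_pos rfl] at h1
      have h2 := hC.le2 x
      by_cases hxt : x = t
      · rw [if_pos hxt] at h1
        rw [hxt] at h1 ⊢
        omega
      · rw [if_neg hxt] at h1
        omega
    · have h1 := hdn X
      rw [if_neg hxX] at h1
      by_cases htX : t ∈ X
      · rw [if_pos htX] at h1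
        omega
      · have h2 := hUt.cut X hX htX
        rw [if_neg htX] at h1
        omega
  refine ⟨o', ⟨hle2, ?_⟩, hU, fun e he => hZ e (mem_filter.2 ⟨mem_univ _, he⟩), hin⟩
  have h1 := hdn K
  rw [if_pos hx, if_pos ht] at h1
  have h2 : k1dn o K = 0 := by
    rw [← hC.eqK]
    exact k1_dnK o
  exact eq_of_subset_of_card_le (k1_sub ⟨x, hx⟩ (by omega)) (hmin o' x hU)

/-- (b1) -/
theorem k1_b1 (hi : SIso) (hm : SMove) {d q : ℕ} (hd : 1 ≤ d) (hq : 1 ≤ q)
    (hE : Exact H 1 d q) (hno : ¬ GoodSol H 1 q) {K : Finset V}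
    (hmin : ∀ (o : Orientation H) (u : V), K1Us o u → K.card ≤ (k1K o).card)
    {o : Orientation H} (hC : K1Cf K o) {t t' : V} (ht : t ∈ K) (ht1 : indeg o t ≤ 1)
    (ht1' : indeg o t' ≤ 1) (hne : t ≠ t') :
    ¬ Relation.ReflTransGen (k1E K o) t t' := by
  intro hw
  obtain ⟨o', _, hU, _, hin⟩ := k1_move hm hmin hC ht ht1 (Subset.refl K) hw
  have h1 := hin t'
  rw [if_pos rfl, if_neg hne.symm] at h1
  exact hno (k1_good hi hd hq hE hU (Or.inl ⟨rfl, by omega⟩))

/-- the first entry into `B` -/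
theorem k1_first {K B : Finset V} {o : Orientation H} {t' z' : V} (ht' : t' ∉ B)
    (hw : Relation.ReflTransGen (k1E K o) t' z') :
    (z' ∉ B ∧ Relation.ReflTransGen (fun a b => k1E K o a b ∧ a ∉ B) t' z') ∨
      ∃ z ∈ B, Relation.ReflTransGen (fun a b => k1E K o a b ∧ a ∉ B) t' z := by
  induction hw with
  | refl => exact Or.inl ⟨ht', Relation.ReflTransGen.refl⟩
  | @tail y y' _ hyy ih =>
    rcases ih with ⟨h1, h2⟩ | h
    · by_cases h3 : y' ∈ B
      · exact Or.inr ⟨y', h3, h2.tail ⟨hyy, h1⟩⟩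
      · exact Or.inl ⟨h3, h2.tail ⟨hyy, h1⟩⟩
    · exact Or.inr h

open Classical in
/-- the vertices reached from `t` -/
noncomputable def k1A (K : Finset V) (o : Orientation H) (t : V) : Finset V :=
  univ.filter (fun x => Relation.ReflTransGen (k1E K o) t x)

theorem k1_memA {K : Finset V} {o : Orientation H} {t x : V} :
    x ∈ k1A K o t ↔ Relation.ReflTransGen (k1E K o) t x := by
  simp only [k1A, mem_filter, mem_univ, true_and]

theorem k1_A_sub {K : Finset V} {o : Orientation H} {t : V} (ht : t ∈ K) : k1A K o t ⊆ K := by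
  intro x hx
  rcases k1_walk_mem (k1_memA.1 hx) with h | h
  · rw [h]; exact ht
  · exact h

/-- walks stay inside `A` -/
theorem k1_inside {K : Finset V} {o : Orientation H} {t x : V}
    (h : Relation.ReflTransGen (k1E K o) t x) :
    Relation.ReflTransGen (k1E (k1A K o t) o) t x := by
  induction h with
  | refl => exact Relation.ReflTransGen.refl
  | @tail y y' hy hyy ih =>
    obtain ⟨e, h1, h2, h3, h4, h5⟩ := hyy
    exact ih.tail ⟨e, h1, h2, h3, k1_memA.2 hy,
      k1_memA.2 (hy.tail ⟨e, h1, h2, h3, h4, h5⟩)⟩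

/-- (b2) -/
theorem k1_b2 (hi : SIso) (hm : SMove) {d q : ℕ} (hd : 1 ≤ d) (hq : 1 ≤ q)
    (hE : Exact H 1 d q) (hno : ¬ GoodSol H 1 q) {K : Finset V}
    (hmin : ∀ (o : Orientation H) (u : V), K1Us o u → K.card ≤ (k1K o).card)
    {o : Orientation H} (hC : K1Cf K o) {t t' : V} (ht : t ∈ K) (ht' : t' ∈ K)
    (ht1 : indeg o t ≤ 1) (ht1' : indeg o t' ≤ 1) (hne : t ≠ t') {z' : V}
    (hz : z' ∈ k1A K o t) : ¬ Relation.ReflTransGen (k1E K o) t' z' := by
  intro hw
  have htB : t' ∉ k1A K o t := fun h =>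
    k1_b1 hi hm hd hq hE hno hmin hC ht ht1 ht1' hne (k1_memA.1 h)
  rcases k1_first htB hw with ⟨h1, _⟩ | ⟨z, hzB, hwz⟩
  · exact h1 hz
  · obtain ⟨o', hC', hU', hZ, hin⟩ := k1_move hm hmin hC ht ht1 (k1_A_sub ht)
      (k1_inside (k1_memA.1 hzB))
    have hzt : z ≠ t' := fun h => htB (by rw [← h]; exact hzB)
    have h1 : indeg o' t' ≤ 1 := by
      have h2 := hin t'
      rw [if_neg hzt.symm, if_neg hne.symm] at h2
      omega
    refine k1_b1 hi hm hd hq hE hno hmin hC' ht' h1 hU'.le1 hzt.symm ?_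
    refine k1_mono ?_ hwz
    rintro a b ⟨⟨e, h2, h3, h4, h5, h6⟩, h7⟩
    have h8 := hZ e (fun h => h7 (by rw [← h3]; exact ((k1_ends o e _).2 h).1))
    exact ⟨e, h2, by rw [h8.1, h3], by rw [h8.2, h4], h5, h6⟩

/-- ARB-K1 for given `H` -/
theorem k1_main (hi : SIso) (hm : SMove) {d q : ℕ} (hd : 1 ≤ d) (hq : 1 ≤ q)
    (hE : Exact H 1 d q) (hs : ∃ (o : Orientation H) (u : V), K1Us o u) : GoodSol H 1 q := by
  classical
  by_contra hno
  -- a minimal configuration
  have hex : ∃ m, ∃ (o : Orientation H) (u : V), K1Us o u ∧ (k1K o).card = m := by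
    obtain ⟨o, u, h⟩ := hs
    exact ⟨_, o, u, h, rfl⟩
  obtain ⟨o, u, hU, hcard⟩ := Nat.find_spec hex
  have hmin : ∀ (o' : Orientation H) (u' : V), K1Us o' u' → (k1K o).card ≤ (k1K o').card := by
    intro o' u' h
    rw [hcard]
    exact Nat.find_min' hex ⟨o', u', h, rfl⟩
  set K := k1K o with hK
  have hC : K1Cf K o := ⟨hU.le2, rfl⟩
  have huK : u ∈ K := k1_us_mem hU
  have hdnK : k1dn o K = 0 := k1_dnK o
  -- tokens
  have htok : ∀ t ∈ K, indeg o t ≤ 1 → indeg o t = 1 := by
    intro t ht ht1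
    by_contra hc
    exact hno (k1_good hi hd hq hE (k1_us hU.le2 ht ht1) (Or.inl ⟨rfl, by omega⟩))
  set T := K.filter (fun t => indeg o t ≤ 1) with hT
  have hTcard : 2 ≤ T.card := by
    have h1 := k1_sum o K
    rw [hdnK, zero_add] at h1
    have h2 := k1_inner hd hE ⟨u, huK⟩
    have h3 : ∑ y ∈ K, (indeg o y + (if indeg o y ≤ 1 then 1 else 0)) = 2 * K.card := by
      rw [mul_comm, ← smul_eq_mul, ← sum_const]
      refine sum_congr rfl fun y hy => ?_
      have h4 := hU.le2 y
      by_cases h5 : indeg o y ≤ 1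
      · rw [if_pos h5, htok y hy h5]
      · rw [if_neg h5]
        omega
    rw [sum_add_distrib, ← card_filter, ← h1] at h3
    rw [hT]
    omega
  have hb1 : ∀ t ∈ K, indeg o t ≤ 1 → ∀ t', indeg o t' ≤ 1 → t ≠ t' →
      ¬ Relation.ReflTransGen (k1E K o) t t' := fun t ht ht1 t' ht1' hne =>
    k1_b1 hi hm hd hq hE hno hmin hC ht ht1 ht1' hne
  -- (c)
  have hcov : ∀ y ∈ K, ∃ t ∈ K, indeg o t ≤ 1 ∧ Relation.ReflTransGen (k1E K o) t y := by
    by_contra hc
    push Not at hc
    obtain ⟨y₀, hy₀, hy₀'⟩ := hc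
    set Y := K.filter (fun y => ∀ t ∈ K, indeg o t ≤ 1 →
      ¬ Relation.ReflTransGen (k1E K o) t y) with hY
    have hYn : Y.Nonempty := ⟨y₀, mem_filter.2 ⟨hy₀, hy₀'⟩⟩
    have hY2 : ∀ y ∈ Y, indeg o y = 2 := by
      intro y hy
      rw [hY, mem_filter] at hy
      have h1 := hU.le2 y
      have h2 : ¬ indeg o y ≤ 1 := fun h => hy.2 y hy.1 h Relation.ReflTransGen.refl
      omega
    have hcaught : 2 * Y.card ≤ caught H Y := by
      have h1 : ∑ y ∈ Y, indeg o y = 2 * Y.card := by
        rw [mul_comm, ← smul_eq_mul, ← sum_const]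
        exact sum_congr rfl fun y hy => hY2 y hy
      rw [← h1, ← k1_sum]
      unfold k1dn din inner caught
      rw [← card_union_of_disjoint]
      · refine card_le_card ?_
        intro e he
        have hh : o.head e ∈ Y := by
          rcases mem_union.1 he with h | h
          · exact (mem_filter.1 h).2.2
          · exact ((k1_ends o e Y).2 (mem_filter.1 h).2).2
        rw [mem_filter]
        refine ⟨mem_univ _, ?_⟩
        by_cases hed : H.isEdge e = true
        · have ht : o.tail e ∈ Y := by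
            rw [hY, mem_filter] at hh
            have htK : o.tail e ∈ K := k1_dn_zero hdnK e hh.1
            rw [hY, mem_filter]
            refine ⟨htK, fun t ht ht1 hw => hh.2 t ht ht1 (hw.tail ?_)⟩
            exact ⟨e, hed, rfl, rfl, htK, hh.1⟩
          have h2 := (k1_ends o e Y).1 ⟨ht, hh⟩
          exact ⟨h2.2, fun _ => h2.1⟩
        · have h2 := k1_arc o e hed
          rw [h2.2] at hh
          exact ⟨hh, fun h => absurd h hed⟩
      · rw [disjoint_left]
        intro e he he'
        rw [mem_filter] at he he'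
        exact he.2.1 ((k1_ends o e Y).2 he'.2).1
    have hYT : Disjoint Y T := by
      rw [disjoint_left]
      intro y hy hyT
      have h1 := hY2 y hy
      have h2 := (mem_filter.1 hyT).2
      omega
    have hYc : Y.card + 2 ≤ Fintype.card V := by
      have h1 : (Y ∪ T).card ≤ Fintype.card V := card_le_univ _
      rw [card_union_of_disjoint hYT] at h1
      omega
    have h1 := hE.2.2.2 Y hYn hYc
    have h2 := Nat.mul_le_mul_left d hcaught
    have h3 : 1 ≤ Y.card := card_pos.2 hYn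
    have e : (1 + 1) * Y.card = 2 * Y.card := by ring
    rw [e] at h1
    omega
  -- (d)
  obtain ⟨t1, ht1T⟩ : T.Nonempty := card_pos.1 (by omega)
  obtain ⟨t2, ht2T, hne12⟩ := exists_mem_ne (by omega : 1 < T.card) t1
  rw [hT, mem_filter] at ht1T ht2T
  have hU1 : K1Us o t1 := k1_us hU.le2 ht1T.1 ht1T.2
  have hXn : (K \ k1A K o t1).Nonempty :=
    ⟨t2, mem_sdiff.2 ⟨ht2T.1, fun h => hb1 t1 ht1T.1 ht1T.2 t2 ht2T.2 hne12.symm (k1_memA.1 h)⟩⟩
  have ht1X : t1 ∉ K \ k1A K o t1 := fun h =>
    (mem_sdiff.1 h).2 (k1_memA.2 Relation.ReflTransGen.refl)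
  obtain ⟨e, he1, he2⟩ := k1_dn_pos (hU1.cut _ hXn ht1X)
  have hxK : o.head e ∈ K := (mem_sdiff.1 he2).1
  have hxA : o.head e ∉ k1A K o t1 := (mem_sdiff.1 he2).2
  have haK : o.tail e ∈ K := k1_dn_zero hdnK e hxK
  have haA : o.tail e ∈ k1A K o t1 := by
    by_contra hc
    exact he1 (mem_sdiff.2 ⟨haK, hc⟩)
  have harc : H.isEdge e ≠ true := by
    intro h
    refine hxA (k1_memA.2 ((k1_memA.1 haA).tail ?_))
    exact ⟨e, h, rfl, rfl, haK, hxK⟩
  obtain ⟨tj, htj, htj1, htjw⟩ := hcov _ hxK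
  have hne1j : t1 ≠ tj := by
    intro h
    rw [← h] at htjw
    exact hxA (k1_memA.2 htjw)
  -- first move
  obtain ⟨o', hC', hU', hZ', hin'⟩ := k1_move hm hmin hC htj htj1 (k1_A_sub htj)
    (k1_inside htjw)
  have hdisj : ∀ z, z ∈ k1A K o t1 → z ∉ k1A K o tj := by
    intro z h1 h2
    exact k1_b2 hi hm hd hq hE hno hmin hC ht1T.1 htj ht1T.2 htj1 hne1j h1 (k1_memA.1 h2)
  have ht1A : t1 ∈ k1A K o t1 := k1_memA.2 Relation.ReflTransGen.refl
  have hx1 : indeg o' (o.head e) = 1 := by
    have h1 := hin' (o.head e)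
    rw [if_pos rfl] at h1
    by_cases h2 : o.head e = tj
    · rw [if_pos h2] at h1
      have h3 := htok tj htj htj1
      rw [h2] at h1 ⊢
      omega
    · rw [if_neg h2] at h1
      have h3 := hU.le2 (o.head e)
      have h4 : ¬ indeg o (o.head e) ≤ 1 := fun h =>
        hb1 tj htj htj1 _ h (Ne.symm h2) htjw
      omega
  have ht1' : indeg o' t1 ≤ 1 := by
    have h1 := hin' t1
    have h2 : t1 ≠ o.head e := fun h => hxA (by rw [← h]; exact ht1A)
    rw [if_neg h2, if_neg hne1j] at h1
    have := ht1T.2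
    omega
  -- the walk from `t1` is unchanged
  have hw1 : Relation.ReflTransGen (k1E (k1A K o t1) o') t1 (o.tail e) := by
    refine k1_mono ?_ (k1_inside (k1_memA.1 haA))
    rintro a b ⟨e', h1, h2, h3, h4, h5⟩
    have h6 := hZ' e' (fun h => hdisj a h4 (by rw [← h2]; exact ((k1_ends o e' _).2 h).1))
    exact ⟨e', h1, by rw [h6.1, h2], by rw [h6.2, h3], h4, h5⟩
  -- second move
  obtain ⟨o'', _, hU'', _, hin''⟩ := k1_move hm hmin hC' ht1T.1 ht1'
    (k1_A_sub ht1T.1) hw1
  have hx2 : indeg o'' (o.head e) = 1 := by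
    have h1 := hin'' (o.head e)
    have h2 : o.head e ≠ o.tail e := (k1_loop o e).symm
    have h3 : o.head e ≠ t1 := fun h => hxA (by rw [h]; exact ht1A)
    rw [if_neg h2, if_neg h3] at h1
    omega
  refine hno (k1_good hi hd hq hE hU'' (v := o.head e) (Or.inr ⟨(k1_loop o e).symm, hx2, e, ?_, ?_⟩))
  · rw [(k1_arc o'' e harc).1, (k1_arc o e harc).1]
  · rw [(k1_arc o'' e harc).2, (k1_arc o e harc).2]

end KOne

/-- ARB-K1 -/
theorem sK1 (hi : SIso) (hm : SMove) : SK1 := by
  intro V I _ _ _ _ H d q hd hq hE hs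
  obtain ⟨o, r, F, R, hs, hR⟩ := hs
  obtain ⟨u, hu⟩ := k1_start hE hs hR
  exact k1_main hi hm hd hq hE ⟨o, u, hu⟩

end ARB
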