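import Pool.Agent.H22.ARB.Stm

/-!
# ARB-K0: the case `k = 0` of Q1 of MP_1cda34_co
-/

namespace ARB

open Finset

section K0

variable {V I : Type} [Fintype V] [DecidableEq V] [Fintype I] [DecidableEq I]

/-- `X` is closed: no arc enters it and no edge leaves it. -/
def Closed0 (H : MixedGraph V I) (X : Finset V) : Prop :=
  X.Nonempty ∧ (∀ e, H.isEdge e = false → H.snd e ∈ X → H.fst e ∈ X) ∧
    ∀ e, H.isEdge e = true → (H.fst e ∈ X ↔ H.snd e ∈ X)

omit [DecidableEq V] [Fintype I] [DecidableEq I] in
theorem closed0_univ (H : MixedGraph V I) (hn : 2 ≤ Fintype.card V) :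
    Closed0 H (univ : Finset V) := by
  refine ⟨?_, by simp, by simp⟩
  rw [← Finset.card_pos, Finset.card_univ]
  omega

omit [DecidableEq I] in
theorem closed0_meet (H : MixedGraph V I) (d : ℕ) (hd : 1 ≤ d) (hs : StrictCond H 0 d)
    {X Y : Finset V} (hX : Closed0 H X) (hY : Closed0 H Y) : (X ∩ Y).Nonempty := by
  by_contra hne
  rw [Finset.not_nonempty_iff_eq_empty, ← Finset.disjoint_iff_inter_eq_empty] at hne
  have hXY : X ≠ Y := by
    rintro rfl
    rw [disjoint_self] at hne
    exact hX.1.ne_empty hne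
  have hP : IsSubpartition ({X, Y} : Finset (Finset V)) := by
    constructor
    · intro Z hZ
      simp only [mem_insert, mem_singleton] at hZ
      rcases hZ with rfl | rfl
      · exact hX.1
      · exact hY.1
    · intro Z hZ W hW hZW
      simp only [mem_insert, mem_singleton] at hZ hW
      rcases hZ with rfl | rfl <;> rcases hW with rfl | rfl
      · exact absurd rfl hZW
      · exact hne
      · exact hne.symm
      · exact absurd rfl hZW
  have hcard : ({X, Y} : Finset (Finset V)).card = 2 := Finset.card_pair hXY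
  have h := hs {X, Y} hP (by rw [hcard])
  have hwt : wt H {X, Y} = 0 := by
    unfold wt
    rw [Finset.sum_pair hXY]
    have h1 : (arcsInto H X) = ∅ := by
      ext e
      simp only [arcsInto, mem_filter, mem_univ, true_and, notMem_empty, iff_false]
      rintro ⟨h1, h2, h3⟩
      exact h2 (hX.2.1 e h1 h3)
    have h2 : (arcsInto H Y) = ∅ := by
      ext e
      simp only [arcsInto, mem_filter, mem_univ, true_and, notMem_empty, iff_false]
      rintro ⟨h1, h2, h3⟩
      exact h2 (hY.2.1 e h1 h3)
    have h3 : edgesAcross H {X, Y} = ∅ := by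
      ext e
      simp only [edgesAcross, mem_filter, mem_univ, true_and, notMem_empty, iff_false]
      rintro ⟨he, hno⟩
      apply hno
      by_cases hx : H.fst e ∈ X
      · exact ⟨X, by simp, hx, (hX.2.2 e he).1 hx⟩
      · by_cases hy : H.fst e ∈ Y
        · exact ⟨Y, by simp, hy, (hY.2.2 e he).1 hy⟩
        · have hx' : H.snd e ∉ X := fun hh => hx ((hX.2.2 e he).2 hh)
          have hy' : H.snd e ∉ Y := fun hh => hy ((hY.2.2 e he).2 hh)
          refine ⟨univ \ ({X, Y} : Finset (Finset V)).sup id, Finset.mem_insert_self _ _, ?_, ?_⟩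
          · simp [hx, hy]
          · simp [hx', hy']
    rw [h1, h2, h3]
    simp
  rw [hwt, hcard] at h
  have hd' : (1 : ℚ) ≤ (d : ℚ) := by exact_mod_cast hd
  have h0 : (0 : ℚ) ≤ ((d : ℚ) - 1) / d := by
    apply div_nonneg <;> linarith
  norm_num at h
  linarith

omit [DecidableEq I] in
theorem closed0_inter (H : MixedGraph V I) (d : ℕ) (hd : 1 ≤ d) (hs : StrictCond H 0 d)
    {X Y : Finset V} (hX : Closed0 H X) (hY : Closed0 H Y) : Closed0 H (X ∩ Y) := by
  refine ⟨closed0_meet H d hd hs hX hY, ?_, ?_⟩
  · intro e he hm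
    rw [mem_inter] at hm ⊢
    exact ⟨hX.2.1 e he hm.1, hY.2.1 e he hm.2⟩
  · intro e he
    rw [mem_inter, mem_inter, hX.2.2 e he, hY.2.2 e he]

omit [DecidableEq I] in
theorem closed0_root (H : MixedGraph V I) (d : ℕ) (hd : 1 ≤ d) (hn : 2 ≤ Fintype.card V)
    (hs : StrictCond H 0 d) : ∃ t : V, ∀ X : Finset V, Closed0 H X → t ∈ X := by
  classical
  obtain ⟨M, hM, hmin⟩ := Finset.exists_min_image
    (univ.filter (fun X : Finset V => Closed0 H X)) Finset.card
    ⟨univ, by simpa using closed0_univ H hn⟩
  simp only [mem_filter, mem_univ, true_and] at hM hmin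
  obtain ⟨t, ht⟩ := hM.1
  refine ⟨t, fun X hX => ?_⟩
  have h1 := hmin _ (closed0_inter H d hd hs hM hX)
  have h2 : M ∩ X = M := Finset.eq_of_subset_of_card_le Finset.inter_subset_left h1
  rw [← h2, mem_inter] at ht
  exact ht.2

/-- turn the element `e` so that it goes from `a` to `b`. -/
def turn (H : MixedGraph V I) (o : Orientation H) (e : I) (a b : V)
    (h : (a = H.fst e ∧ b = H.snd e) ∨ (H.isEdge e = true ∧ a = H.snd e ∧ b = H.fst e)) :
    Orientation H where
  tail := fun f => if f = e then a else o.tail f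
  head := fun f => if f = e then b else o.head f
  ok := by
    intro f
    by_cases hf : f = e
    · subst hf
      simpa using h
    · simpa [hf] using o.ok f

omit [Fintype V] [Fintype I] in
theorem kz_grow_step (H : MixedGraph V I) (o : Orientation H) (F : Finset I) (t : V) (S : Finset V)
    (hbr : IsBr o.tail o.head F {t} S) (e : I) (a b : V)
    (h : (a = H.fst e ∧ b = H.snd e) ∨ (H.isEdge e = true ∧ a = H.snd e ∧ b = H.fst e))
    (ha : a ∈ S) (hb : b ∉ S) :
    ∃ (o' : Orientation H) (F' : Finset I), IsBr o'.tail o'.head F' {t} (insert b S) := by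
  obtain ⟨h1, h2, h3, h4⟩ := hbr
  have hends : ∀ f ∈ F, f ≠ e := by
    rintro f hf rfl
    obtain ⟨hf1, hf2, _⟩ := h2 f hf
    rcases o.ok f with ⟨p, q⟩ | ⟨_, p, q⟩ <;> rcases h with ⟨p', q'⟩ | ⟨_, p', q'⟩
    · exact hb (by rw [q', ← q]; exact hf2)
    · exact hb (by rw [q', ← p]; exact hf1)
    · exact hb (by rw [q', ← p]; exact hf1)
    · exact hb (by rw [q', ← q]; exact hf2)
  have htS : t ∈ S := h1 (mem_singleton_self t)
  have hbt : b ≠ t := by
    rintro rfl
    exact hb htS
  refine ⟨turn H o e a b h, insert e F, ?_, ?_, ?_, ?_⟩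
  · exact h1.trans (subset_insert _ _)
  · intro f hf
    rw [mem_insert] at hf
    by_cases hfe : f = e
    · subst hfe
      simp only [turn, if_true]
      exact ⟨mem_insert_of_mem ha, mem_insert_self _ _, by simpa using hbt⟩
    · have hfF : f ∈ F := by tauto
      simp only [turn, if_neg hfe]
      obtain ⟨q1, q2, q3⟩ := h2 f hfF
      exact ⟨mem_insert_of_mem q1, mem_insert_of_mem q2, q3⟩
  · intro f hf f' hf' hff
    rw [mem_insert] at hf hf'
    by_cases hfe : f = e <;> by_cases hfe' : f' = e
    · rw [hfe, hfe']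
    · exfalso
      have hfF : f' ∈ F := by tauto
      subst hfe
      simp only [turn, if_true, if_neg hfe'] at hff
      exact hb (by rw [hff]; exact (h2 f' hfF).2.1)
    · exfalso
      have hfF : f ∈ F := by tauto
      subst hfe'
      simp only [turn, if_true, if_neg hfe] at hff
      exact hb (by rw [← hff]; exact (h2 f hfF).2.1)
    · have hfF : f ∈ F := by tauto
      have hfF' : f' ∈ F := by tauto
      simp only [turn, if_neg hfe, if_neg hfe'] at hff
      exact h3 f hfF f' hfF' hff
  · have hmono : ∀ x y, Relation.ReflTransGen (stepRel o.tail o.head F) x y →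
        Relation.ReflTransGen
          (stepRel (turn H o e a b h).tail (turn H o e a b h).head (insert e F)) x y := by
      intro x y hxy
      induction hxy with
      | refl => exact Relation.ReflTransGen.refl
      | tail _ hlast ih =>
        obtain ⟨f, hf, hu, hw⟩ := hlast
        refine ih.tail ⟨f, mem_insert_of_mem hf, ?_, ?_⟩
        · simp only [turn, if_neg (hends f hf)]
          exact hu
        · simp only [turn, if_neg (hends f hf)]
          exact hw
    intro v hv
    rw [mem_insert] at hv
    rcases hv with rfl | hv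
    · obtain ⟨r, hr, hra⟩ := h4 a ha
      refine ⟨r, hr, (hmono _ _ hra).tail ⟨e, mem_insert_self _ _, ?_, ?_⟩⟩
      · simp [turn]
      · simp [turn]
    · obtain ⟨r, hr, hrv⟩ := h4 v hv
      exact ⟨r, hr, hmono _ _ hrv⟩

end K0

theorem sK0 (hc : SComp) : SK0 := by
  intro V I _ _ _ _ H d hd hn hs
  classical
  obtain ⟨t, ht⟩ := closed0_root H d hd hn hs
  -- the identity orientation
  let o0 : Orientation H := ⟨H.fst, H.snd, fun e => Or.inl ⟨rfl, rfl⟩⟩
  have hstart : ∃ (o : Orientation H) (F : Finset I), IsBr o.tail o.head F {t} {t} := by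
    refine ⟨o0, ∅, subset_rfl, by simp, by simp, ?_⟩
    intro v hv
    rw [mem_singleton] at hv
    subst hv
    exact ⟨v, mem_singleton_self v, Relation.ReflTransGen.refl⟩
  obtain ⟨S, hS, hmax⟩ := Finset.exists_max_image
    (univ.filter (fun S : Finset V => ∃ (o : Orientation H) (F : Finset I),
      IsBr o.tail o.head F {t} S)) Finset.card ⟨{t}, by simpa using hstart⟩
  simp only [mem_filter, mem_univ, true_and] at hS hmax
  obtain ⟨o, F, hbr⟩ := hS
  have htS : t ∈ S := hbr.1 (mem_singleton_self t)
  have hSu : S = univ := by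
    by_contra hne
    have hnc : ¬ Closed0 H (univ \ S) := by
      intro hcl
      have := ht _ hcl
      simp at this
      exact this htS
    have hex : ∃ (e : I) (a b : V),
        ((a = H.fst e ∧ b = H.snd e) ∨ (H.isEdge e = true ∧ a = H.snd e ∧ b = H.fst e)) ∧
        a ∈ S ∧ b ∉ S := by
      by_contra hno
      push Not at hno
      apply hnc
      refine ⟨?_, ?_, ?_⟩
      · rw [Finset.sdiff_nonempty]
        intro hsub
        exact hne (Finset.eq_univ_of_forall fun x => hsub (mem_univ x))
      · intro e he hm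
        simp only [mem_sdiff, mem_univ, true_and] at hm ⊢
        intro hf
        exact hm (hno e _ _ (Or.inl ⟨rfl, rfl⟩) hf)
      · intro e he
        simp only [mem_sdiff, mem_univ, true_and]
        refine not_congr ⟨fun hf => ?_, fun hf => ?_⟩
        · exact hno e _ _ (Or.inl ⟨rfl, rfl⟩) hf
        · exact hno e _ _ (Or.inr ⟨he, rfl, rfl⟩) hf
    obtain ⟨e, a, b, hab, ha, hb⟩ := hex
    obtain ⟨o', F', hbr'⟩ := kz_grow_step H o F t S hbr e a b hab ha hb
    have h := hmax (insert b S) ⟨o', F', hbr'⟩
    rw [card_insert_of_notMem hb] at h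
    omega
  subst hSu
  obtain ⟨hmb, hcard, _, _, hsp⟩ := hc V I H o F {t} hbr
  have hsp' : IsSpanningMixedArborescence H F := hsp (card_singleton t)
  rw [card_singleton] at hcard
  refine ⟨fun i => i.elim0, F, ⟨fun i => i.elim0, hmb, fun i => i.elim0, fun i => i.elim0⟩,
    ?_, fun h => absurd hsp' h⟩
  unfold SizeCond
  have hF : (F.card : ℚ) = (Fintype.card V : ℚ) - 1 := by
    rw [← hcard]
    push_cast
    ring
  rw [hF]
  have hn' : (2 : ℚ) ≤ (Fintype.card V : ℚ) := by exact_mod_cast hn
  have hd' : (1 : ℚ) ≤ (d : ℚ) := by exact_mod_cast hd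
  have h1 : ((d : ℚ) - 1) / d < 1 := by
    rw [div_lt_one (by linarith)]
    linarith
  nlinarith

end ARB
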