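import Pool.Agent.H22.ARB.Stm

/-!
# Packing mixed arborescences (MP_1cda34_co): a solution gives the arborescences
-/

namespace ARB

open Finset

/-- roots with prescribed multiplicities. -/
private theorem tPack_roots {V : Type} [Fintype V] [DecidableEq V] (r : V → ℕ) (k : ℕ)
    (h : ∑ v, r v = k) :
    ∃ t : Fin k → V, ∀ X : Finset V, (univ.filter (fun i => t i ∈ X)).card = ∑ v ∈ X, r v := by
  have hc : Fintype.card (Fin k) = Fintype.card (Σ v, Fin (r v)) := by
    simp [h]
  let e : Fin k ≃ Σ v, Fin (r v) := Fintype.equivOfCardEq hc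
  refine ⟨fun i => (e i).1, fun X => ?_⟩
  have h1 : (univ.filter (fun i => (e i).1 ∈ X)).card =
      (univ.filter (fun x : Σ v, Fin (r v) => x.1 ∈ X)).card := by
    refine Finset.card_bij (fun i _ => e i) ?_ ?_ ?_
    · intro i hi
      simpa using hi
    · intro i _ j _ hij
      exact e.injective hij
    · intro x hx
      exact ⟨e.symm x, by simpa using hx, by simp⟩
  rw [h1]
  have h2 : (univ.filter (fun x : Σ v, Fin (r v) => x.1 ∈ X)) =
      X.sigma (fun v => (univ : Finset (Fin (r v)))) := by
    ext x
    simp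
  rw [h2, Finset.card_sigma]
  simp

/-- **ARB-T.** -/
theorem sPackT (h : SEdm) (hc : SComp) : SPackT := by
  intro V I _ _ _ _ H k o r F R hS
  obtain ⟨hB, hsum, hcut⟩ := hS
  obtain ⟨t, ht⟩ := tPack_roots r k hsum
  obtain ⟨T, hTJ, hTd, hTB⟩ := h V I o.tail o.head (univ \ F) k (fun i => {t i})
    (fun i => Finset.singleton_nonempty _) (by
      intro X hX
      have h1 := hcut X hX
      have h2 := ht X
      have h3 : (univ.filter (fun i => Disjoint ({t i} : Finset V) X)) =
          univ.filter (fun i => ¬ (t i ∈ X)) := by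
        ext i
        simp
      rw [h3]
      have h4 := Finset.card_filter_add_card_filter_not (s := (univ : Finset (Fin k)))
        (fun i => t i ∈ X)
      rw [Finset.card_univ, Fintype.card_fin] at h4
      omega)
  refine ⟨T, fun i => ?_, (hc V I H o F R hB).1, hTd, fun i => ?_⟩
  · exact (hc V I H o (T i) {t i} (hTB i)).2.2.2.2 (Finset.card_singleton _)
  · rw [Finset.disjoint_left]
    intro x hx hxF
    have h5 := hTJ i hx
    rw [Finset.mem_sdiff] at h5
    exact h5.2 hxF

end ARB
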