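import Pool.Agent.H22.ARB.Stm

/-!
# ARB-A3: rounding
-/

namespace ARB

open Finset

section A3

/-! ### general lemmas -/

theorem a3_zadd {a b : ℝ} (ha : ∃ m : ℤ, a = m) (hb : ∃ m : ℤ, b = m) : ∃ m : ℤ, a + b = m := by
  obtain ⟨m, rfl⟩ := ha
  obtain ⟨n, rfl⟩ := hb
  exact ⟨m + n, by push_cast; ring⟩

theorem a3_zsub {a b : ℝ} (ha : ∃ m : ℤ, a = m) (hb : ∃ m : ℤ, b = m) : ∃ m : ℤ, a - b = m := by
  obtain ⟨m, rfl⟩ := ha
  obtain ⟨n, rfl⟩ := hb
  exact ⟨m - n, by push_cast; ring⟩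

theorem a3_zsum {D : Type} (s : Finset D) (g : D → ℝ) (h : ∀ d ∈ s, ∃ m : ℤ, g d = m) :
    ∃ m : ℤ, ∑ d ∈ s, g d = m := by
  classical
  induction s using Finset.induction_on with
  | empty => exact ⟨0, by simp⟩
  | insert a s ha ih =>
    rw [Finset.sum_insert ha]
    exact a3_zadd (h a (Finset.mem_insert_self _ _))
      (ih fun d hd => h d (Finset.mem_insert_of_mem hd))

theorem a3_one {D : Type} [Fintype D] [DecidableEq D] (g : D → ℝ) (d0 : D)
    (hg : ∀ d, d ≠ d0 → ∃ m : ℤ, g d = m) (hs : ∃ m : ℤ, ∑ d, g d = m) :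
    ∃ m : ℤ, g d0 = m := by
  have h1 := Finset.add_sum_erase univ g (mem_univ d0)
  have h2 : ∃ m : ℤ, ∑ d ∈ univ.erase d0, g d = m :=
    a3_zsum _ _ fun d hd => hg d (Finset.ne_of_mem_erase hd)
  have h3 : g d0 = ∑ d, g d - ∑ d ∈ univ.erase d0, g d := by rw [← h1]; ring
  rw [h3]
  exact a3_zsub hs h2

theorem a3_deg {D : Type} [Fintype D] [DecidableEq D] (p : D → ℝ) (A B : D → Prop)
    [DecidablePred A] [DecidablePred B] [Fintype {d : D // ¬ ∃ m : ℤ, p d = m}]
    (h : ∃ m : ℤ, ∑ d, ((if A d then p d else 0) - (if B d then p d else 0)) = m) :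
    (univ.filter (fun f : {d : D // ¬ ∃ m : ℤ, p d = m} => B f.1)).card +
      (univ.filter (fun f : {d : D // ¬ ∃ m : ℤ, p d = m} => A f.1)).card ≠ 1 := by
  intro h1
  rcases Nat.add_eq_one_iff.1 h1 with ⟨h2, h3⟩ | ⟨h2, h3⟩
  · rw [Finset.card_eq_zero] at h2
    obtain ⟨f0, h4⟩ := Finset.card_eq_one.1 h3
    have hB : ∀ f : {d : D // ¬ ∃ m : ℤ, p d = m}, ¬ B f.1 := by
      intro f hf
      have : f ∈ (univ.filter (fun f : {d : D // ¬ ∃ m : ℤ, p d = m} => B f.1)) := by
        simp [hf]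
      rw [h2] at this
      exact absurd this (Finset.notMem_empty _)
    have hA : ∀ f : {d : D // ¬ ∃ m : ℤ, p d = m}, A f.1 → f = f0 := by
      intro f hf
      have : f ∈ (univ.filter (fun f : {d : D // ¬ ∃ m : ℤ, p d = m} => A f.1)) := by
        simp [hf]
      rw [h4] at this
      exact Finset.mem_singleton.1 this
    have hA0 : A f0.1 := by
      have : f0 ∈ (univ.filter (fun f : {d : D // ¬ ∃ m : ℤ, p d = m} => A f.1)) := by
        rw [h4]; exact Finset.mem_singleton_self _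
      exact (Finset.mem_filter.1 this).2
    have h5 := a3_one _ f0.1 (fun d hd => by
      by_cases hp : ∃ m : ℤ, p d = m
      · refine a3_zsub ?_ ?_
        · split_ifs
          · exact hp
          · exact ⟨0, by simp⟩
        · split_ifs
          · exact hp
          · exact ⟨0, by simp⟩
      · have hb : ¬ B d := hB ⟨d, hp⟩
        have ha : ¬ A d := fun ha => hd (congrArg Subtype.val (hA ⟨d, hp⟩ ha))
        exact ⟨0, by rw [if_neg ha, if_neg hb]; simp⟩) h
    rw [if_pos hA0, if_neg (hB f0), sub_zero] at h5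
    exact f0.2 h5
  · rw [Finset.card_eq_zero] at h3
    obtain ⟨f0, h4⟩ := Finset.card_eq_one.1 h2
    have hA : ∀ f : {d : D // ¬ ∃ m : ℤ, p d = m}, ¬ A f.1 := by
      intro f hf
      have : f ∈ (univ.filter (fun f : {d : D // ¬ ∃ m : ℤ, p d = m} => A f.1)) := by
        simp [hf]
      rw [h3] at this
      exact absurd this (Finset.notMem_empty _)
    have hB : ∀ f : {d : D // ¬ ∃ m : ℤ, p d = m}, B f.1 → f = f0 := by
      intro f hf
      have : f ∈ (univ.filter (fun f : {d : D // ¬ ∃ m : ℤ, p d = m} => B f.1)) := by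
        simp [hf]
      rw [h4] at this
      exact Finset.mem_singleton.1 this
    have hB0 : B f0.1 := by
      have : f0 ∈ (univ.filter (fun f : {d : D // ¬ ∃ m : ℤ, p d = m} => B f.1)) := by
        rw [h4]; exact Finset.mem_singleton_self _
      exact (Finset.mem_filter.1 this).2
    have h5 := a3_one _ f0.1 (fun d hd => by
      by_cases hp : ∃ m : ℤ, p d = m
      · refine a3_zsub ?_ ?_
        · split_ifs
          · exact hp
          · exact ⟨0, by simp⟩
        · split_ifs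
          · exact hp
          · exact ⟨0, by simp⟩
      · have ha : ¬ A d := hA ⟨d, hp⟩
        have hb : ¬ B d := fun hb => hd (congrArg Subtype.val (hB ⟨d, hp⟩ hb))
        exact ⟨0, by rw [if_neg ha, if_neg hb]; simp⟩) h
    rw [if_neg (hA f0), if_pos hB0, zero_sub] at h5
    obtain ⟨m, hm⟩ := h5
    exact f0.2 ⟨-m, by push_cast; linarith⟩

theorem a3_ev (a b : ℝ) (h : 0 < a ∨ (0 ≤ a ∧ b = 0)) :
    ∀ᶠ ε in nhds (0 : ℝ), 0 ≤ a + ε * b := by
  rcases h with h | ⟨h, hb⟩
  · have hc : Continuous (fun ε : ℝ => a + ε * b) := by fun_prop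
    have h1 : (fun ε : ℝ => a + ε * b) 0 ∈ Set.Ioi (0 : ℝ) := by
      show 0 < a + 0 * b
      simpa using h
    filter_upwards [hc.continuousAt.eventually_mem (isOpen_Ioi.mem_nhds h1)] with ε hε
    exact le_of_lt hε
  · refine Filter.Eventually.of_forall fun ε => ?_
    rw [hb, mul_zero, add_zero]
    exact h

variable {V I : Type} [Fintype V] [DecidableEq V] [Fintype I] [DecidableEq I]

/-! ### the value of a set -/

/-- head node of a coordinate -/
def a3t (H : MixedGraph V I) : I ⊕ (V ⊕ V) → V ⊕ V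
  | .inl e => .inl (H.snd e)
  | .inr (.inl v) => .inl v
  | .inr (.inr v) => .inl v

/-- tail node of a coordinate -/
def a3s (H : MixedGraph V I) : I ⊕ (V ⊕ V) → Option (V ⊕ V)
  | .inl e => some (.inl (H.fst e))
  | .inr (.inl _) => none
  | .inr (.inr v) => some (.inr v)

/-- linear part of the load of `w` -/
noncomputable def a3dl (H : MixedGraph V I) (q : I ⊕ (V ⊕ V) → ℝ) (w : V ⊕ V) : ℝ :=
  ∑ d, ((if a3t H d = w then q d else 0) - (if a3s H d = some w then q d else 0))

/-- constant part of the load -/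
def a3cst (H : MixedGraph V I) : V ⊕ V → ℕ
  | .inl v => (univ.filter (fun e => H.fst e = v)).card
  | .inr _ => 0

/-- load of a set -/
noncomputable def a3val (H : MixedGraph V I) (p : I ⊕ (V ⊕ V) → ℝ) (S : Finset (V ⊕ V)) : ℝ :=
  ∑ w ∈ S, (a3dl H p w + a3cst H w)

/-- lower bound for the load -/
def a3bnd (H : MixedGraph V I) (k : ℕ) (S : Finset (V ⊕ V)) : ℕ :=
  k + inner H S.toLeft + (if S.toRight = ∅ then 1 else 0)

theorem a3dl_inr (H : MixedGraph V I) (p : I ⊕ (V ⊕ V) → ℝ) (v : V) :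
    a3dl H p (.inr v) = - p (.inr (.inr v)) := by
  unfold a3dl
  rw [Fintype.sum_sum_type, Fintype.sum_sum_type]
  simp [a3t, a3s]

theorem a3dl_inl (H : MixedGraph V I) (p : I ⊕ (V ⊕ V) → ℝ) (v : V) :
    a3dl H p (.inl v) = ∑ e, ((if H.snd e = v then p (.inl e) else 0) -
      (if H.fst e = v then p (.inl e) else 0)) + p (.inr (.inl v)) + p (.inr (.inr v)) := by
  unfold a3dl
  rw [Fintype.sum_sum_type, Fintype.sum_sum_type]
  simp [a3t, a3s, add_assoc]

theorem a3val_eq (H : MixedGraph V I) (p : I ⊕ (V ⊕ V) → ℝ) (Z W : Finset V) :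
    a3val H p (Z.disjSum W) = dinx H (fun e => p (.inl e)) Z + inner H Z +
      ∑ v ∈ Z, p (.inr (.inl v)) + ∑ v ∈ Z, p (.inr (.inr v)) - ∑ v ∈ W, p (.inr (.inr v)) := by
  have h1 : a3val H p (Z.disjSum W) =
      ∑ v ∈ Z, (a3dl H p (.inl v) + a3cst H (.inl v)) +
        ∑ v ∈ W, (a3dl H p (.inr v) + a3cst H (.inr v)) := Finset.sum_disjSum _ _ _
  have h2 : ∑ v ∈ W, (a3dl H p (.inr v) + a3cst H (.inr v)) = - ∑ v ∈ W, p (.inr (.inr v)) := by
    rw [← Finset.sum_neg_distrib]
    refine Finset.sum_congr rfl fun v _ => ?_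
    rw [a3dl_inr]
    simp [a3cst]
  have h3 : ∑ v ∈ Z, (a3dl H p (.inl v) + (a3cst H (.inl v) : ℝ)) =
      (∑ v ∈ Z, ∑ e, ((if H.snd e = v then p (.inl e) else 0) -
        (if H.fst e = v then p (.inl e) else 0) + (if H.fst e = v then 1 else 0))) +
      ∑ v ∈ Z, p (.inr (.inl v)) + ∑ v ∈ Z, p (.inr (.inr v)) := by
    rw [← Finset.sum_add_distrib, ← Finset.sum_add_distrib]
    refine Finset.sum_congr rfl fun v _ => ?_
    rw [a3dl_inl, Finset.sum_add_distrib]
    have h4 : ((a3cst H (.inl v) : ℕ) : ℝ) = ∑ e, (if H.fst e = v then (1 : ℝ) else 0) := by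
      rw [Finset.sum_boole]
      rfl
    rw [h4]
    ring
  have h5 : (∑ v ∈ Z, ∑ e, ((if H.snd e = v then p (.inl e) else 0) -
        (if H.fst e = v then p (.inl e) else 0) + (if H.fst e = v then (1 : ℝ) else 0))) =
      dinx H (fun e => p (.inl e)) Z + inner H Z := by
    rw [Finset.sum_comm]
    unfold dinx inner
    rw [← Finset.sum_boole, ← Finset.sum_add_distrib]
    refine Finset.sum_congr rfl fun e _ => ?_
    rw [Finset.sum_add_distrib, Finset.sum_sub_distrib, Finset.sum_ite_eq, Finset.sum_ite_eq,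
      Finset.sum_ite_eq]
    by_cases ha : H.snd e ∈ Z <;> by_cases hb : H.fst e ∈ Z <;> simp [ha, hb] <;> ring
  rw [h1, h2, h3, h5]
  ring

theorem a3val_eq' (H : MixedGraph V I) (p : I ⊕ (V ⊕ V) → ℝ) (S : Finset (V ⊕ V)) :
    a3val H p S = dinx H (fun e => p (.inl e)) S.toLeft + inner H S.toLeft +
      ∑ v ∈ S.toLeft, p (.inr (.inl v)) + ∑ v ∈ S.toLeft, p (.inr (.inr v)) -
      ∑ v ∈ S.toRight, p (.inr (.inr v)) := by
  rw [← a3val_eq, Finset.toLeft_disjSum_toRight]

theorem a3_inner (H : MixedGraph V I) (Z Z' : Finset V) :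
    inner H Z + inner H Z' ≤ inner H (Z ∩ Z') + inner H (Z ∪ Z') := by
  unfold inner
  have h1 := Finset.card_union_add_card_inter
    (univ.filter (fun e => H.fst e ∈ Z ∧ H.snd e ∈ Z))
    (univ.filter (fun e => H.fst e ∈ Z' ∧ H.snd e ∈ Z'))
  have h2 : (univ.filter (fun e => H.fst e ∈ Z ∧ H.snd e ∈ Z)) ∩
      (univ.filter (fun e => H.fst e ∈ Z' ∧ H.snd e ∈ Z')) =
      univ.filter (fun e => H.fst e ∈ Z ∩ Z' ∧ H.snd e ∈ Z ∩ Z') := by
    ext e
    simp only [Finset.mem_inter, Finset.mem_filter, Finset.mem_univ, true_and]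
    tauto
  have h3 : (univ.filter (fun e => H.fst e ∈ Z ∧ H.snd e ∈ Z)) ∪
      (univ.filter (fun e => H.fst e ∈ Z' ∧ H.snd e ∈ Z')) ⊆
      univ.filter (fun e => H.fst e ∈ Z ∪ Z' ∧ H.snd e ∈ Z ∪ Z') := by
    intro e he
    simp only [Finset.mem_union, Finset.mem_filter, Finset.mem_univ, true_and] at he ⊢
    tauto
  have h4 := Finset.card_le_card h3
  rw [h2] at h1
  omega

theorem a3bnd_super (H : MixedGraph V I) (k : ℕ) (S S' : Finset (V ⊕ V)) :
    a3bnd H k S + a3bnd H k S' ≤ a3bnd H k (S ∩ S') + a3bnd H k (S ∪ S') := by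
  unfold a3bnd
  rw [Finset.toLeft_inter, Finset.toLeft_union, Finset.toRight_inter, Finset.toRight_union]
  have h1 := a3_inner H S.toLeft S'.toLeft
  have h2 : (if S.toRight = ∅ then 1 else 0) + (if S'.toRight = ∅ then 1 else 0) ≤
      (if S.toRight ∩ S'.toRight = ∅ then 1 else 0) +
      (if S.toRight ∪ S'.toRight = ∅ then 1 else 0) := by
    by_cases ha : S.toRight = ∅ <;> by_cases hb : S'.toRight = ∅ <;> simp [ha, hb]
  omega

/-! ### feasible points -/

/-- feasible points -/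
structure A3Feas (H : MixedGraph V I) (k : ℕ) (p : I ⊕ (V ⊕ V) → ℝ) : Prop where
  xb : ∀ e, 0 ≤ p (.inl e) ∧ p (.inl e) ≤ 1
  xa : ∀ e, H.isEdge e = false → p (.inl e) = 1
  rb : ∀ v, 0 ≤ p (.inr (.inl v))
  rs : ∑ v, p (.inr (.inl v)) = k
  zb : ∀ v, 0 ≤ p (.inr (.inr v)) ∧ p (.inr (.inr v)) ≤ 1
  cut : ∀ S : Finset (V ⊕ V), S.toLeft.Nonempty → S.toRight ⊆ S.toLeft →
    (a3bnd H k S : ℝ) ≤ a3val H p S

theorem a3dl_add (H : MixedGraph V I) (p Y : I ⊕ (V ⊕ V) → ℝ) (ε : ℝ) (w : V ⊕ V) :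
    a3dl H (fun d => p d + ε * Y d) w = a3dl H p w + ε * a3dl H Y w := by
  unfold a3dl
  rw [Finset.mul_sum, ← Finset.sum_add_distrib]
  refine Finset.sum_congr rfl fun d _ => ?_
  split_ifs <;> ring

theorem a3val_add (H : MixedGraph V I) (p Y : I ⊕ (V ⊕ V) → ℝ) (ε : ℝ) (S : Finset (V ⊕ V)) :
    a3val H (fun d => p d + ε * Y d) S = a3val H p S + ε * ∑ w ∈ S, a3dl H Y w := by
  unfold a3val
  rw [Finset.mul_sum, ← Finset.sum_add_distrib]
  refine Finset.sum_congr rfl fun w _ => ?_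
  rw [a3dl_add]
  ring


/-- the point with smallest token sum and then largest norm is integral -/
theorem a3_int (hla : SLA) (hc : SCls) (H : MixedGraph V I) (k : ℕ) (p : I ⊕ (V ⊕ V) → ℝ)
    (hp : A3Feas H k p)
    (hmin : ∀ q, A3Feas H k q → ∑ v, p (.inr (.inr v)) ≤ ∑ v, q (.inr (.inr v)))
    (hmax : ∀ q, A3Feas H k q → ∑ v, q (.inr (.inr v)) = ∑ v, p (.inr (.inr v)) →
      ∑ d, q d ^ 2 ≤ ∑ d, p d ^ 2) :
    ∀ d, ∃ m : ℤ, p d = m := by
  classical
  by_contra hcon
  rw [not_forall] at hcon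
  obtain ⟨d0, hd0⟩ := hcon
  have : Nonempty {d : I ⊕ (V ⊕ V) // ¬ ∃ m : ℤ, p d = m} := ⟨⟨d0, hd0⟩⟩
  -- the tight family
  set T : Finset (Finset (V ⊕ V)) := univ.filter (fun S => S.toLeft.Nonempty ∧
    S.toRight ⊆ S.toLeft ∧ a3val H p S = a3bnd H k S) with hTdef
  have memT : ∀ S, S ∈ T ↔ S.toLeft.Nonempty ∧ S.toRight ⊆ S.toLeft ∧
      a3val H p S = a3bnd H k S := by
    intro S
    rw [hTdef, Finset.mem_filter]
    simp
  have hT : ∀ S ∈ T, ∀ S' ∈ T, (S ∩ S').Nonempty → S ∩ S' ∈ T ∧ S ∪ S' ∈ T := by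
    intro S hS S' hS' hne
    obtain ⟨a1, a2, a3⟩ := (memT S).1 hS
    obtain ⟨b1, b2, b3⟩ := (memT S').1 hS'
    have hn1 : (S ∩ S').toLeft.Nonempty := by
      obtain ⟨w, hw⟩ := hne
      obtain ⟨hw1, hw2⟩ := Finset.mem_inter.1 hw
      rcases w with v | v
      · exact ⟨v, Finset.mem_toLeft.2 hw⟩
      · refine ⟨v, ?_⟩
        rw [Finset.toLeft_inter]
        exact Finset.mem_inter.2 ⟨a2 (Finset.mem_toRight.2 hw1), b2 (Finset.mem_toRight.2 hw2)⟩
    have hn2 : (S ∪ S').toLeft.Nonempty := by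
      rw [Finset.toLeft_union]
      exact a1.mono Finset.subset_union_left
    have hs1 : (S ∩ S').toRight ⊆ (S ∩ S').toLeft := by
      rw [Finset.toLeft_inter, Finset.toRight_inter]
      exact Finset.inter_subset_inter a2 b2
    have hs2 : (S ∪ S').toRight ⊆ (S ∪ S').toLeft := by
      rw [Finset.toLeft_union, Finset.toRight_union]
      exact Finset.union_subset_union a2 b2
    have c1 := hp.cut _ hn1 hs1
    have c2 := hp.cut _ hn2 hs2
    have c3 : a3val H p (S ∪ S') + a3val H p (S ∩ S') = a3val H p S + a3val H p S' :=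
      Finset.sum_union_inter
    have c4 : ((a3bnd H k S : ℕ) : ℝ) + (a3bnd H k S' : ℕ) ≤
        (a3bnd H k (S ∩ S') : ℕ) + (a3bnd H k (S ∪ S') : ℕ) := by
      exact_mod_cast a3bnd_super H k S S'
    refine ⟨(memT _).2 ⟨hn1, hs1, ?_⟩, (memT _).2 ⟨hn2, hs2, ?_⟩⟩ <;> linarith
  have hTint : ∀ S ∈ T, ∃ m : ℤ, ∑ w ∈ S, (a3dl H p w + a3cst H w) = m := by
    intro S hS
    obtain ⟨-, -, h3⟩ := (memT S).1 hS
    refine ⟨(a3bnd H k S : ℤ), ?_⟩
    have : a3val H p S = a3bnd H k S := h3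
    rw [a3val] at this
    rw [this]
    push_cast
    rfl
  have hcls := hc (V ⊕ V) (fun w => a3dl H p w + a3cst H w) T hT hTint
  -- classes
  set cls : V ⊕ V → Finset (V ⊕ V) :=
    fun s => univ.filter (fun w => ∀ S ∈ T, s ∈ S ↔ w ∈ S) with hclsdef
  have memcls : ∀ s w, w ∈ cls s ↔ ∀ S ∈ T, s ∈ S ↔ w ∈ S := by
    intro s w
    rw [hclsdef]
    simp
  have clseq : ∀ s w, w ∈ cls s → cls w = cls s := by
    intro s w hw
    ext u
    rw [memcls, memcls]
    have h1 := (memcls s w).1 hw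
    constructor
    · intro h S hS
      rw [h1 S hS, h S hS]
    · intro h S hS
      rw [← h1 S hS, h S hS]
  have clsself : ∀ s, s ∈ cls s := fun s => (memcls s s).2 fun S _ => Iff.rfl
  set node : V ⊕ V → Option (Option (Finset (V ⊕ V))) :=
    fun w => if (∃ S ∈ T, w ∈ S) then some (some (cls w)) else none with hnode
  set sN : I ⊕ (V ⊕ V) → Option (Option (Finset (V ⊕ V))) :=
    fun d => (a3s H d).elim (some none) node with hsN
  have node_root : ∀ w, node w ≠ some none := by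
    intro w
    rw [hnode]
    dsimp only
    split_ifs <;> simp
  have node_iff : ∀ s, (∃ S ∈ T, s ∈ S) → ∀ w, node w = some (some (cls s)) ↔ w ∈ cls s := by
    intro s hs w
    constructor
    · intro h
      rw [hnode] at h
      dsimp only at h
      split_ifs at h with hw
      have h1 : cls w = cls s := by
        have := Option.some.inj h
        exact Option.some.inj this
      rw [← h1]
      exact clsself w
    · intro h
      have hw : ∃ S ∈ T, w ∈ S := by
        obtain ⟨S, hS, hsS⟩ := hs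
        exact ⟨S, hS, ((memcls s w).1 h S hS).1 hsS⟩
      rw [hnode]
      dsimp only
      rw [if_pos hw, clseq s w h]
  -- sum over a class
  have key : ∀ s, (∃ S ∈ T, s ∈ S) → ∀ q : I ⊕ (V ⊕ V) → ℝ,
      ∑ w ∈ cls s, a3dl H q w = ∑ d, ((if node (a3t H d) = some (some (cls s)) then q d else 0) -
        (if sN d = some (some (cls s)) then q d else 0)) := by
    intro s hs q
    unfold a3dl
    rw [Finset.sum_comm]
    refine Finset.sum_congr rfl fun d _ => ?_
    rw [Finset.sum_sub_distrib]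
    congr 1
    · rw [Finset.sum_ite_eq]
      by_cases h : a3t H d ∈ cls s
      · rw [if_pos h, if_pos ((node_iff s hs _).2 h)]
      · rw [if_neg h, if_neg (fun h' => h ((node_iff s hs _).1 h'))]
    · have hsNd : sN d = (a3s H d).elim (some none) node := rfl
      obtain hd | ⟨w0, hd⟩ : a3s H d = none ∨ ∃ w0, a3s H d = some w0 := by
        cases a3s H d <;> simp
      · have e0 : sN d = some none := by rw [hsNd, hd]; rfl
        rw [if_neg (by rw [e0]; simp), Finset.sum_eq_zero]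
        intro w _
        rw [if_neg (by rw [hd]; simp)]
      · have e0 : sN d = node w0 := by rw [hsNd, hd]; rfl
        have e1 : ∀ w : V ⊕ V, (if a3s H d = some w then q d else 0) =
            (if w0 = w then q d else 0) := by
          intro w
          by_cases h : w0 = w
          · rw [if_pos h, if_pos (by rw [hd, h])]
          · rw [if_neg h, if_neg (by rw [hd]; simpa using h)]
        simp only [e1]
        rw [Finset.sum_ite_eq]
        by_cases h : w0 ∈ cls s
        · rw [if_pos h, if_pos (by rw [e0]; exact (node_iff s hs _).2 h)]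
        · rw [if_neg h, if_neg (fun h' => h ((node_iff s hs _).1 (by rw [← e0]; exact h')))]
  have sN_root : ∀ q : I ⊕ (V ⊕ V) → ℝ,
      ∑ d, (if sN d = some none then q d else 0) = ∑ v, q (.inr (.inl v)) := by
    intro q
    rw [Fintype.sum_sum_type, Fintype.sum_sum_type]
    have e1 : ∀ e : I, sN (.inl e) ≠ some none := fun e => node_root _
    have e2 : ∀ v : V, sN (.inr (.inr v)) ≠ some none := fun v => node_root _
    have e3 : ∀ v : V, sN (.inr (.inl v)) = some none := fun v => rfl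
    simp [e1, e2, e3]
  -- the degree condition
  have hdeg : ∀ ν : Option (Finset (V ⊕ V)),
      (univ.filter (fun f : {d : I ⊕ (V ⊕ V) // ¬ ∃ m : ℤ, p d = m} =>
        sN f.1 = some ν)).card +
      (univ.filter (fun f : {d : I ⊕ (V ⊕ V) // ¬ ∃ m : ℤ, p d = m} =>
        node (a3t H f.1) = some ν)).card ≠ 1 := by
    intro ν h1
    rcases ν with _ | C
    · refine a3_deg p (fun d => node (a3t H d) = some none) (fun d => sN d = some none) ?_ h1
      refine ⟨-(k : ℤ), ?_⟩
      rw [Finset.sum_sub_distrib, sN_root p, hp.rs, Finset.sum_eq_zero]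
      · push_cast; ring
      · intro d _
        rw [if_neg (node_root _)]
    · have hC : ∃ s, (∃ S ∈ T, s ∈ S) ∧ C = cls s := by
        have h2 : ∃ w, node w = some (some C) := by
          rcases Nat.add_eq_one_iff.1 h1 with ⟨-, h3⟩ | ⟨h3, -⟩
          · obtain ⟨f0, h4⟩ := Finset.card_eq_one.1 h3
            have h5 := Finset.mem_singleton_self f0
            rw [← h4, Finset.mem_filter] at h5
            exact ⟨_, h5.2⟩
          · obtain ⟨f0, h4⟩ := Finset.card_eq_one.1 h3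
            have h5 := Finset.mem_singleton_self f0
            rw [← h4, Finset.mem_filter] at h5
            have h6 := h5.2
            rw [hsN] at h6
            dsimp only at h6
            rcases hd : a3s H f0.1 with _ | w0
            · rw [hd] at h6
              simp at h6
            · rw [hd] at h6
              exact ⟨w0, h6⟩
        obtain ⟨w, hw⟩ := h2
        rw [hnode] at hw
        dsimp only at hw
        split_ifs at hw with hw'
        refine ⟨w, hw', ?_⟩
        have := Option.some.inj hw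
        exact (Option.some.inj this).symm
      obtain ⟨s, hs, rfl⟩ := hC
      refine a3_deg p (fun d => node (a3t H d) = some (some (cls s)))
        (fun d => sN d = some (some (cls s))) ?_ h1
      rw [← key s hs p]
      obtain ⟨m, hm⟩ := hcls s hs
      have h7 : ∑ w ∈ cls s, (a3dl H p w + (a3cst H w : ℝ)) = m := hm
      rw [Finset.sum_add_distrib] at h7
      refine ⟨m - ∑ w ∈ cls s, (a3cst H w : ℤ), ?_⟩
      push_cast
      linarith
  obtain ⟨y, hy0, hy⟩ := hla {d : I ⊕ (V ⊕ V) // ¬ ∃ m : ℤ, p d = m} (Option (Finset (V ⊕ V)))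
    (fun f => sN f.1) (fun f => node (a3t H f.1)) hdeg
  -- extension by zero
  set Y : I ⊕ (V ⊕ V) → ℝ := fun d => if h : ¬ ∃ m : ℤ, p d = m then y ⟨d, h⟩ else 0 with hY
  have Y0 : ∀ d, (∃ m : ℤ, p d = m) → Y d = 0 := by
    intro d hd
    rw [hY]
    dsimp only
    rw [dif_neg (not_not.2 hd)]
  have Yf : ∀ f : {d : I ⊕ (V ⊕ V) // ¬ ∃ m : ℤ, p d = m}, Y f.1 = y f := by
    intro f
    rw [hY]
    dsimp only
    rw [dif_pos f.2]
  have hsum : ∀ (A : I ⊕ (V ⊕ V) → Prop) [DecidablePred A],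
      ∑ d, (if A d then Y d else 0) =
        ∑ f ∈ univ.filter (fun f : {d : I ⊕ (V ⊕ V) // ¬ ∃ m : ℤ, p d = m} => A f.1), y f := by
    intro A _
    rw [Finset.sum_filter]
    have e1 : ∑ d, (if A d then Y d else 0) =
        ∑ d ∈ univ.filter (fun d => ¬ ∃ m : ℤ, p d = m), (if A d then Y d else 0) := by
      rw [Finset.sum_filter]
      refine Finset.sum_congr rfl fun d _ => ?_
      by_cases hd : ∃ m : ℤ, p d = m
      · rw [if_neg (not_not.2 hd), Y0 d hd, ite_self]
      · rw [if_pos hd]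
    rw [e1, Finset.sum_subtype (p := fun d => ¬ ∃ m : ℤ, p d = m) _ (fun d => by simp)]
    refine Finset.sum_congr rfl fun f _ => ?_
    rw [Yf f]
  have hclsY : ∀ s, (∃ S ∈ T, s ∈ S) → ∑ w ∈ cls s, a3dl H Y w = 0 := by
    intro s hs
    rw [key s hs Y, Finset.sum_sub_distrib, hsum, hsum, sub_eq_zero]
    exact hy (some (cls s))
  have hTY : ∀ S ∈ T, ∑ w ∈ S, a3dl H Y w = 0 := by
    intro S hS
    rw [← Finset.sum_fiberwise_of_maps_to (g := cls) (t := S.image cls)
      (fun w hw => Finset.mem_image_of_mem cls hw)]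
    refine Finset.sum_eq_zero fun C hC => ?_
    obtain ⟨s, hs, rfl⟩ := Finset.mem_image.1 hC
    have e1 : S.filter (fun w => cls w = cls s) = cls s := by
      ext w
      rw [Finset.mem_filter]
      constructor
      · rintro ⟨-, h⟩
        rw [← h]
        exact clsself w
      · intro h
        exact ⟨((memcls s w).1 h S hS).1 hs, clseq s w h⟩
    rw [e1]
    exact hclsY s ⟨S, hS, hs⟩
  have hrY : ∑ v, Y (.inr (.inl v)) = 0 := by
    rw [← sN_root Y, hsum]
    have h1 := hy none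
    rw [← h1]
    refine Finset.sum_eq_zero fun f hf => ?_
    exact absurd (Finset.mem_filter.1 hf).2 (node_root _)
  -- feasibility of the perturbed points
  have hev : ∀ᶠ ε in nhds (0 : ℝ), A3Feas H k (fun d => p d + ε * Y d) := by
    have f1 : ∀ᶠ ε in nhds (0 : ℝ), ∀ e : I, 0 ≤ p (.inl e) + ε * Y (.inl e) := by
      rw [Filter.eventually_all]
      intro e
      refine a3_ev _ _ ?_
      by_cases h : ∃ m : ℤ, p (.inl e) = m
      · exact Or.inr ⟨(hp.xb e).1, Y0 _ h⟩
      · refine Or.inl (lt_of_le_of_ne (hp.xb e).1 fun h' => h ⟨0, ?_⟩)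
        rw [← h']; simp
    have f2 : ∀ᶠ ε in nhds (0 : ℝ), ∀ e : I, 0 ≤ (1 - p (.inl e)) + ε * (-Y (.inl e)) := by
      rw [Filter.eventually_all]
      intro e
      refine a3_ev _ _ ?_
      by_cases h : ∃ m : ℤ, p (.inl e) = m
      · exact Or.inr ⟨by linarith [(hp.xb e).2], by rw [Y0 _ h, neg_zero]⟩
      · refine Or.inl (sub_pos.2 (lt_of_le_of_ne (hp.xb e).2 fun h' => h ⟨1, ?_⟩))
        rw [h']; simp
    have f3 : ∀ᶠ ε in nhds (0 : ℝ), ∀ v : V, 0 ≤ p (.inr (.inl v)) + ε * Y (.inr (.inl v)) := by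
      rw [Filter.eventually_all]
      intro v
      refine a3_ev _ _ ?_
      by_cases h : ∃ m : ℤ, p (.inr (.inl v)) = m
      · exact Or.inr ⟨hp.rb v, Y0 _ h⟩
      · refine Or.inl (lt_of_le_of_ne (hp.rb v) fun h' => h ⟨0, ?_⟩)
        rw [← h']; simp
    have f4 : ∀ᶠ ε in nhds (0 : ℝ), ∀ v : V, 0 ≤ p (.inr (.inr v)) + ε * Y (.inr (.inr v)) := by
      rw [Filter.eventually_all]
      intro v
      refine a3_ev _ _ ?_
      by_cases h : ∃ m : ℤ, p (.inr (.inr v)) = m
      · exact Or.inr ⟨(hp.zb v).1, Y0 _ h⟩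
      · refine Or.inl (lt_of_le_of_ne (hp.zb v).1 fun h' => h ⟨0, ?_⟩)
        rw [← h']; simp
    have f5 : ∀ᶠ ε in nhds (0 : ℝ), ∀ v : V,
        0 ≤ (1 - p (.inr (.inr v))) + ε * (-Y (.inr (.inr v))) := by
      rw [Filter.eventually_all]
      intro v
      refine a3_ev _ _ ?_
      by_cases h : ∃ m : ℤ, p (.inr (.inr v)) = m
      · exact Or.inr ⟨by linarith [(hp.zb v).2], by rw [Y0 _ h, neg_zero]⟩
      · refine Or.inl (sub_pos.2 (lt_of_le_of_ne (hp.zb v).2 fun h' => h ⟨1, ?_⟩))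
        rw [h']; simp
    have f6 : ∀ᶠ ε in nhds (0 : ℝ), ∀ S : Finset (V ⊕ V), S.toLeft.Nonempty →
        S.toRight ⊆ S.toLeft →
        0 ≤ (a3val H p S - a3bnd H k S) + ε * ∑ w ∈ S, a3dl H Y w := by
      rw [Filter.eventually_all]
      intro S
      by_cases hS1 : S.toLeft.Nonempty
      · by_cases hS2 : S.toRight ⊆ S.toLeft
        · have h1 := hp.cut S hS1 hS2
          have h2 := a3_ev (a3val H p S - a3bnd H k S) (∑ w ∈ S, a3dl H Y w) (by
            by_cases h3 : a3val H p S = a3bnd H k S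
            · exact Or.inr ⟨by linarith, hTY S ((memT S).2 ⟨hS1, hS2, h3⟩)⟩
            · exact Or.inl (sub_pos.2 (lt_of_le_of_ne h1 (Ne.symm h3))))
          filter_upwards [h2] with ε hε _ _
          exact hε
        · exact Filter.Eventually.of_forall fun ε _ h => absurd h hS2
      · exact Filter.Eventually.of_forall fun ε h => absurd h hS1
    filter_upwards [f1, f2, f3, f4, f5, f6] with ε g1 g2 g3 g4 g5 g6
    refine ⟨fun e => ⟨g1 e, ?_⟩, fun e he => ?_, g3, ?_, fun v => ⟨g4 v, ?_⟩,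
      fun S hS1 hS2 => ?_⟩
    · have := g2 e
      show p (.inl e) + ε * Y (.inl e) ≤ 1
      linarith
    · show p (.inl e) + ε * Y (.inl e) = 1
      rw [Y0 _ ⟨1, by rw [hp.xa e he]; simp⟩, hp.xa e he]
      ring
    · show ∑ v, (p (.inr (.inl v)) + ε * Y (.inr (.inl v))) = k
      rw [Finset.sum_add_distrib, ← Finset.mul_sum, hrY, hp.rs]
      ring
    · have := g5 v
      show p (.inr (.inr v)) + ε * Y (.inr (.inr v)) ≤ 1
      linarith
    · have h1 := g6 S hS1 hS2
      rw [a3val_add]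
      linarith
  rw [Metric.eventually_nhds_iff] at hev
  obtain ⟨δ, hδ, hev⟩ := hev
  have hq1 : A3Feas H k (fun d => p d + (δ / 2) * Y d) := hev (by
    rw [Real.dist_eq, sub_zero, abs_of_pos (by linarith)]; linarith)
  have hq2 : A3Feas H k (fun d => p d + (-(δ / 2)) * Y d) := hev (by
    rw [Real.dist_eq, sub_zero, abs_neg, abs_of_pos (by linarith)]; linarith)
  have m1 := hmin _ hq1
  have m2 := hmin _ hq2
  have s1 : ∑ v, (p (.inr (.inr v)) + (δ / 2) * Y (.inr (.inr v))) =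
      ∑ v, p (.inr (.inr v)) + (δ / 2) * ∑ v, Y (.inr (.inr v)) := by
    rw [Finset.sum_add_distrib, ← Finset.mul_sum]
  have s2 : ∑ v, (p (.inr (.inr v)) + (-(δ / 2)) * Y (.inr (.inr v))) =
      ∑ v, p (.inr (.inr v)) + (-(δ / 2)) * ∑ v, Y (.inr (.inr v)) := by
    rw [Finset.sum_add_distrib, ← Finset.mul_sum]
  have m1' : ∑ v, p (.inr (.inr v)) ≤
      ∑ v, (p (.inr (.inr v)) + (δ / 2) * Y (.inr (.inr v))) := m1
  have m2' : ∑ v, p (.inr (.inr v)) ≤
      ∑ v, (p (.inr (.inr v)) + (-(δ / 2)) * Y (.inr (.inr v))) := m2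
  rw [s1] at m1'
  rw [s2] at m2'
  have hz : (δ / 2) * ∑ v, Y (.inr (.inr v)) = 0 := by linarith
  have t1 := hmax _ hq1 (by
    show ∑ v, (p (.inr (.inr v)) + (δ / 2) * Y (.inr (.inr v))) = _
    rw [s1, hz, add_zero])
  have t2 := hmax _ hq2 (by
    show ∑ v, (p (.inr (.inr v)) + (-(δ / 2)) * Y (.inr (.inr v))) = _
    rw [s2]
    linarith)
  have t3 : ∑ d, (p d + (δ / 2) * Y d) ^ 2 + ∑ d, (p d + (-(δ / 2)) * Y d) ^ 2 =
      2 * ∑ d, p d ^ 2 + 2 * (δ / 2) ^ 2 * ∑ d, Y d ^ 2 := by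
    rw [Finset.mul_sum, Finset.mul_sum, ← Finset.sum_add_distrib, ← Finset.sum_add_distrib]
    refine Finset.sum_congr rfl fun d _ => ?_
    ring
  have t1' : ∑ d, (p d + (δ / 2) * Y d) ^ 2 ≤ ∑ d, p d ^ 2 := t1
  have t2' : ∑ d, (p d + (-(δ / 2)) * Y d) ^ 2 ≤ ∑ d, p d ^ 2 := t2
  have hpos : 0 < ∑ d, Y d ^ 2 := by
    obtain ⟨f, hf⟩ := Function.ne_iff.1 hy0
    refine Finset.sum_pos' (fun d _ => sq_nonneg _) ⟨f.1, mem_univ _, ?_⟩
    rw [Yf f]
    exact pow_pos (lt_of_le_of_ne (abs_nonneg _) (by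
      intro h; exact hf (abs_eq_zero.1 h.symm))) 2 |>.trans_eq (sq_abs _)
  have hd2 : 0 < 2 * (δ / 2) ^ 2 := by positivity
  nlinarith [mul_pos hd2 hpos]


theorem a3val_cont (H : MixedGraph V I) (S : Finset (V ⊕ V)) :
    Continuous (fun p : I ⊕ (V ⊕ V) → ℝ => a3val H p S) := by
  unfold a3val a3dl
  refine continuous_finset_sum _ fun w _ => Continuous.add ?_ continuous_const
  refine continuous_finset_sum _ fun d _ => Continuous.sub ?_ ?_
  · by_cases h : a3t H d = w
    · simp only [if_pos h]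
      exact continuous_apply d
    · simp only [if_neg h]
      exact continuous_const
  · by_cases h : a3s H d = some w
    · simp only [if_pos h]
      exact continuous_apply d
    · simp only [if_neg h]
      exact continuous_const

theorem a3_closed (H : MixedGraph V I) (k : ℕ) : IsClosed {p | A3Feas H k p} := by
  refine IsSeqClosed.isClosed ?_
  intro u p hu hp
  have hpt : ∀ d, Filter.Tendsto (fun n => u n d) Filter.atTop (nhds (p d)) :=
    tendsto_pi_nhds.1 hp
  have hu' : ∀ n, A3Feas H k (u n) := hu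
  refine ⟨fun e => ⟨ge_of_tendsto' (hpt _) fun n => ((hu' n).xb e).1,
    le_of_tendsto' (hpt _) fun n => ((hu' n).xb e).2⟩, fun e he => ?_,
    fun v => ge_of_tendsto' (hpt _) fun n => (hu' n).rb v, ?_,
    fun v => ⟨ge_of_tendsto' (hpt _) fun n => ((hu' n).zb v).1,
      le_of_tendsto' (hpt _) fun n => ((hu' n).zb v).2⟩, fun S hS1 hS2 => ?_⟩
  · refine tendsto_nhds_unique (hpt _) ?_
    have : (fun n => u n (.inl e)) = fun _ => (1 : ℝ) := funext fun n => (hu' n).xa e he
    rw [this]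
    exact tendsto_const_nhds
  · have h1 : Filter.Tendsto (fun n => ∑ v, u n (.inr (.inl v))) Filter.atTop
        (nhds (∑ v, p (.inr (.inl v)))) := tendsto_finset_sum _ fun v _ => hpt _
    refine tendsto_nhds_unique h1 ?_
    have : (fun n => ∑ v, u n (.inr (.inl v))) = fun _ => (k : ℝ) := funext fun n => (hu' n).rs
    rw [this]
    exact tendsto_const_nhds
  · have h1 : Filter.Tendsto (fun n => a3val H (u n) S) Filter.atTop (nhds (a3val H p S)) :=
      ((a3val_cont H S).tendsto p).comp hp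
    exact ge_of_tendsto' h1 fun n => (hu' n).cut S hS1 hS2

theorem a3_compact (H : MixedGraph V I) (k : ℕ) : IsCompact {p | A3Feas H k p} := by
  have hb : IsCompact (Set.univ.pi (fun _ : I ⊕ (V ⊕ V) => Set.Icc (0 : ℝ) (k + 1))) :=
    isCompact_univ_pi fun _ => isCompact_Icc
  refine hb.of_isClosed_subset (a3_closed H k) ?_
  intro p hp
  have hp' : A3Feas H k p := hp
  have hk : (0 : ℝ) ≤ k := Nat.cast_nonneg k
  intro d _
  rcases d with e | v | v
  · exact ⟨(hp'.xb e).1, by linarith [(hp'.xb e).2]⟩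
  · refine ⟨hp'.rb v, ?_⟩
    have h1 : p (.inr (.inl v)) ≤ ∑ w, p (.inr (.inl w)) :=
      Finset.single_le_sum (f := fun w => p (.inr (.inl w))) (fun w _ => hp'.rb w) (mem_univ v)
    rw [hp'.rs] at h1
    linarith
  · exact ⟨(hp'.zb v).1, by linarith [(hp'.zb v).2]⟩

theorem sA3 (hla : SLA) (hc : SCls) : SA3 := by
  intro V I _ _ _ _ H k x r z hx hr hrs hz h1 h2
  classical
  set p0 : I ⊕ (V ⊕ V) → ℝ := fun d => d.elim x (fun w => w.elim r z) with hp0
  have hF0 : A3Feas H k p0 := by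
    refine ⟨fun e => ⟨(hx e).1, (hx e).2.1⟩, fun e he => (hx e).2.2 he, hr, hrs, hz,
      fun S hS1 hS2 => ?_⟩
    rw [a3val_eq']
    have e1 : dinx H (fun e => p0 (.inl e)) S.toLeft = dinx H x S.toLeft := rfl
    have e2 : ∑ v ∈ S.toLeft, p0 (.inr (.inl v)) = ∑ v ∈ S.toLeft, r v := rfl
    have e3 : ∑ v ∈ S.toLeft, p0 (.inr (.inr v)) = ∑ v ∈ S.toLeft, z v := rfl
    have e4 : ∑ v ∈ S.toRight, p0 (.inr (.inr v)) = ∑ v ∈ S.toRight, z v := rfl
    rw [e1, e2, e3, e4, a3bnd]
    by_cases hW : S.toRight = ∅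
    · rw [if_pos hW, hW, Finset.sum_empty]
      have := h2 S.toLeft hS1
      push_cast
      linarith
    · rw [if_neg hW]
      have h3 := h1 S.toLeft hS1
      have h4 : ∑ v ∈ S.toRight, z v ≤ ∑ v ∈ S.toLeft, z v :=
        Finset.sum_le_sum_of_subset_of_nonneg hS2 fun v _ _ => (hz v).1
      push_cast
      linarith
  -- the extreme point
  have hK := a3_compact H k
  have hcz : Continuous (fun p : I ⊕ (V ⊕ V) → ℝ => ∑ v, p (.inr (.inr v))) :=
    continuous_finset_sum _ fun v _ => continuous_apply _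
  have hcn : Continuous (fun p : I ⊕ (V ⊕ V) → ℝ => ∑ d, p d ^ 2) :=
    continuous_finset_sum _ fun d _ => (continuous_apply d).pow 2
  obtain ⟨p1, hp1, hmin1⟩ := hK.exists_isMinOn ⟨p0, hF0⟩ hcz.continuousOn
  have hK2 : IsCompact ({p | A3Feas H k p} ∩
      {p : I ⊕ (V ⊕ V) → ℝ | ∑ v, p (.inr (.inr v)) = ∑ v, p1 (.inr (.inr v))}) :=
    hK.inter_right (isClosed_eq hcz continuous_const)
  obtain ⟨p, hp, hmax⟩ := hK2.exists_isMaxOn ⟨p1, hp1, rfl⟩ hcn.continuousOn
  have hpF : A3Feas H k p := hp.1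
  have hpz : ∑ v, p (.inr (.inr v)) = ∑ v, p1 (.inr (.inr v)) := hp.2
  have hint := a3_int hla hc H k p hpF
    (fun q hq => by rw [hpz]; exact hmin1 hq)
    (fun q hq hqz => hmax ⟨hq, hqz.trans hpz⟩)
  have hle : ∑ v, p (.inr (.inr v)) ≤ ∑ v, z v := by
    rw [hpz]
    exact hmin1 hF0
  -- integral data
  have hx01 : ∀ e, p (.inl e) = 0 ∨ p (.inl e) = 1 := by
    intro e
    obtain ⟨m, hm⟩ := hint (.inl e)
    have h3 := hpF.xb e
    rw [hm] at h3
    have h4 : (0 : ℤ) ≤ m := by exact_mod_cast h3.1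
    have h5 : m ≤ 1 := by exact_mod_cast h3.2
    rcases (by omega : m = 0 ∨ m = 1) with h | h
    · left; rw [hm, h]; simp
    · right; rw [hm, h]; simp
  have hz01 : ∀ v, p (.inr (.inr v)) = 0 ∨ p (.inr (.inr v)) = 1 := by
    intro v
    obtain ⟨m, hm⟩ := hint (.inr (.inr v))
    have h3 := hpF.zb v
    rw [hm] at h3
    have h4 : (0 : ℤ) ≤ m := by exact_mod_cast h3.1
    have h5 : m ≤ 1 := by exact_mod_cast h3.2
    rcases (by omega : m = 0 ∨ m = 1) with h | h
    · left; rw [hm, h]; simp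
    · right; rw [hm, h]; simp
  have hrn : ∀ v, ∃ m : ℕ, p (.inr (.inl v)) = m := by
    intro v
    obtain ⟨m, hm⟩ := hint (.inr (.inl v))
    have h3 := hpF.rb v
    rw [hm] at h3
    have h4 : (0 : ℤ) ≤ m := by exact_mod_cast h3
    refine ⟨m.toNat, ?_⟩
    rw [hm]
    have : ((m.toNat : ℤ) : ℝ) = (m : ℝ) := by rw [Int.toNat_of_nonneg h4]
    rw [← this]
    push_cast
    rfl
  choose r' hr' using hrn
  let o : Orientation H :=
    { tail := fun e => if p (.inl e) = 1 then H.fst e else H.snd e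
      head := fun e => if p (.inl e) = 1 then H.snd e else H.fst e
      ok := by
        intro e
        by_cases h : p (.inl e) = 1
        · left; rw [if_pos h, if_pos h]; exact ⟨rfl, rfl⟩
        · right
          rw [if_neg h, if_neg h]
          refine ⟨?_, rfl, rfl⟩
          by_contra he
          exact h (hpF.xa e (by simpa using he)) }
  let R : Finset V := univ.filter (fun v => p (.inr (.inr v)) = 1)
  have hdin : ∀ X : Finset V, ((din o.tail o.head univ X : ℕ) : ℝ) =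
      dinx H (fun e => p (.inl e)) X := by
    intro X
    unfold din dinx
    rw [← Finset.sum_boole]
    refine Finset.sum_congr rfl fun e _ => ?_
    have ht : o.tail e = if p (.inl e) = 1 then H.fst e else H.snd e := rfl
    have hh : o.head e = if p (.inl e) = 1 then H.snd e else H.fst e := rfl
    rw [ht, hh]
    rcases hx01 e with h | h
    · simp [h]
    · simp [h]
  have hR : ∀ X : Finset V, (((R ∩ X).card : ℕ) : ℝ) = ∑ v ∈ X, p (.inr (.inr v)) := by
    intro X
    have e1 : R ∩ X = X.filter (fun v => p (.inr (.inr v)) = 1) := by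
      ext v
      simp only [R, Finset.mem_inter, Finset.mem_filter, Finset.mem_univ, true_and]
      tauto
    rw [e1, ← Finset.sum_boole]
    refine Finset.sum_congr rfl fun v _ => ?_
    rcases hz01 v with h | h <;> rw [h] <;> simp
  have hrX : ∀ X : Finset V, ((∑ v ∈ X, r' v : ℕ) : ℝ) = ∑ v ∈ X, p (.inr (.inl v)) := by
    intro X
    push_cast
    exact Finset.sum_congr rfl fun v _ => (hr' v).symm
  refine ⟨o, r', R, ?_, ?_, fun X hX => ?_, fun X hX => ?_⟩
  · have h3 := hrX univ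
    rw [hpF.rs] at h3
    exact_mod_cast h3
  · have h3 := hR univ
    rw [Finset.inter_univ] at h3
    rw [h3]
    exact hle
  · have h3 := hpF.cut (X.disjSum X) (by rw [Finset.toLeft_disjSum]; exact hX)
      (by rw [Finset.toLeft_disjSum, Finset.toRight_disjSum])
    rw [a3val_eq, a3bnd, Finset.toLeft_disjSum, Finset.toRight_disjSum,
      if_neg hX.ne_empty, ← hdin, ← hrX] at h3
    push_cast at h3
    have h4 : (k : ℝ) ≤ (din o.tail o.head univ X : ℕ) + (∑ v ∈ X, r' v : ℕ) := by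
      push_cast
      linarith
    exact_mod_cast h4
  · have h3 := hpF.cut (X.disjSum ∅) (by rw [Finset.toLeft_disjSum]; exact hX)
      (by rw [Finset.toLeft_disjSum, Finset.toRight_disjSum]; exact Finset.empty_subset _)
    rw [a3val_eq, a3bnd, Finset.toLeft_disjSum, Finset.toRight_disjSum,
      if_pos rfl, ← hdin, ← hrX, ← hR, Finset.sum_empty] at h3
    push_cast at h3
    have h4 : ((k : ℝ) + 1) ≤ (din o.tail o.head univ X : ℕ) + (∑ v ∈ X, r' v : ℕ) +
        ((R ∩ X).card : ℕ) := by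
      push_cast
      linarith
    exact_mod_cast h4

end A3

end ARB
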