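import Pool.Agent.H22.ARB.Stm

/-!
# Packing mixed arborescences (MP_1cda34_co), row ARB-S: the size theorem
-/

set_option autoImplicit false

namespace ARB

open Finset

section

variable {V I : Type} [Fintype V] [DecidableEq V] [Fintype I] [DecidableEq I]

omit [Fintype V] [Fintype I] [DecidableEq I] in
/-- a walk that enters `X` contains an element that enters `X` -/
private theorem size_enter (tl hd : I → V) (F : Finset I) (X : Finset V) {a b : V}
    (h : Relation.ReflTransGen (stepRel tl hd F) a b) (ha : a ∉ X) (hb : b ∈ X) :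
    ∃ e ∈ F, tl e ∉ X ∧ hd e ∈ X := by
  induction h with
  | refl => exact absurd hb ha
  | tail _ hs ih =>
    rename_i c d _
    obtain ⟨e, he, rfl, rfl⟩ := hs
    by_cases hc : tl e ∈ X
    · exact ih hc
    · exact ⟨e, he, hc, hb⟩

omit [Fintype V] in
/-- a map with prescribed fibres -/
private theorem size_fib [Fintype V] (k : ℕ) (r : V → ℕ) (h : ∑ v, r v = k) :
    ∃ t : Fin k → V, ∀ X : Finset V,
      (univ.filter (fun i => t i ∉ X)).card + ∑ v ∈ X, r v = k := by
  have hc : Fintype.card (Σ v : V, Fin (r v)) = k := by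
    rw [Fintype.card_sigma, ← h]
    exact Finset.sum_congr rfl fun v _ => Fintype.card_fin _
  have e : (Σ v : V, Fin (r v)) ≃ Fin k := Fintype.equivFinOfCardEq hc
  refine ⟨fun i => (e.symm i).1, fun X => ?_⟩
  have h1 : (univ.filter (fun i : Fin k => (e.symm i).1 ∈ X)).card = ∑ v ∈ X, r v := by
    have h2 : (univ.filter (fun i : Fin k => (e.symm i).1 ∈ X)).card =
        (univ.filter (fun p : (Σ v : V, Fin (r v)) => p.1 ∈ X)).card := by
      apply Finset.card_bij (fun i _ => e.symm i)
      · intro i hi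
        simpa only [mem_filter, mem_univ, true_and] using hi
      · intro i _ j _ hij
        exact e.symm.injective hij
      · intro p hp
        refine ⟨e p, ?_, e.symm_apply_apply p⟩
        simpa only [mem_filter, mem_univ, true_and, Equiv.symm_apply_apply] using hp
    have h3 : (univ.filter (fun p : (Σ v : V, Fin (r v)) => p.1 ∈ X)) =
        X.sigma (fun v => (univ : Finset (Fin (r v)))) := by
      ext p
      simp only [mem_filter, mem_univ, true_and, mem_sigma, and_true]
    rw [h2, h3, Finset.card_sigma]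
    exact Finset.sum_congr rfl fun v _ => by rw [Finset.card_univ, Fintype.card_fin]
  change (univ.filter (fun i : Fin k => (e.symm i).1 ∉ X)).card + ∑ v ∈ X, r v = k
  rw [← h1]
  have h4 := Finset.card_filter_add_card_filter_not (s := (univ : Finset (Fin k)))
    (fun i : Fin k => (e.symm i).1 ∈ X)
  rw [Finset.card_univ, Fintype.card_fin] at h4
  omega

omit [Fintype V] [DecidableEq I] in
private theorem size_dinx_nonneg [Fintype V] (H : MixedGraph V I) (x : I → ℝ) (hx : FracOr H x)
    (X : Finset V) : 0 ≤ dinx H x X := by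
  unfold dinx
  apply Finset.sum_nonneg
  intro e _
  obtain ⟨h0, h1, -⟩ := hx e
  have h2 : 0 ≤ 1 - x e := sub_nonneg.2 h1
  apply add_nonneg
  · split_ifs
    · exact h0
    · exact le_refl _
  · split_ifs
    · exact h2
    · exact le_refl _

end

/-- **Row ARB-S.** The size theorem. -/
theorem sSize (h1 : SA1) (h3 : SA3) (he : SEdm) : SSize := by
  classical
  intro V I _ _ _ _ _ H k θ hθ0 hθ1 hlam hP
  obtain ⟨x, ρ, hx, hρ0, hρs, hρ⟩ := h1 V I H ((k : ℝ) + 1 - θ) hlam hP
  have hk0 : (0 : ℝ) ≤ (k : ℝ) := Nat.cast_nonneg k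
  have hkl : (k : ℝ) / ((k : ℝ) + 1 - θ) ≤ 1 := by
    rw [div_le_one hlam]
    linarith
  have hkl0 : 0 ≤ (k : ℝ) / ((k : ℝ) + 1 - θ) := div_nonneg hk0 hlam.le
  have hθl0 : 0 ≤ (1 - θ) / ((k : ℝ) + 1 - θ) := div_nonneg (sub_nonneg.2 hθ1) hlam.le
  have hsum1 : ∑ v, (k : ℝ) / ((k : ℝ) + 1 - θ) * ρ v = k := by
    rw [← Finset.mul_sum, hρs, div_mul_cancel₀ _ hlam.ne']
  have hle : ∀ v, ρ v ≤ (k : ℝ) + 1 - θ := by
    intro v
    rw [← hρs]
    exact Finset.single_le_sum (fun w _ => hρ0 w) (mem_univ v)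
  have hz : ∀ v, 0 ≤ θ + (1 - θ) / ((k : ℝ) + 1 - θ) * ρ v ∧
      θ + (1 - θ) / ((k : ℝ) + 1 - θ) * ρ v ≤ 1 := by
    intro v
    refine ⟨add_nonneg hθ0 (mul_nonneg hθl0 (hρ0 v)), ?_⟩
    have h4 := mul_le_mul_of_nonneg_left (hle v) hθl0
    rw [div_mul_cancel₀ _ hlam.ne'] at h4
    linarith
  have hsz : ∑ v, (θ + (1 - θ) / ((k : ℝ) + 1 - θ) * ρ v) =
      1 + θ * ((Fintype.card V : ℝ) - 1) := by
    rw [Finset.sum_add_distrib, ← Finset.mul_sum, hρs, div_mul_cancel₀ _ hlam.ne',
      Finset.sum_const, Finset.card_univ, nsmul_eq_mul]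
    ring
  obtain ⟨o, r, R, hrk, hRc, hcut, hcut1⟩ := h3 V I H k x
    (fun v => (k : ℝ) / ((k : ℝ) + 1 - θ) * ρ v)
    (fun v => θ + (1 - θ) / ((k : ℝ) + 1 - θ) * ρ v) hx
    (fun v => mul_nonneg hkl0 (hρ0 v)) hsum1 hz
    (by
      intro X hX
      have h4 := hρ X hX
      have h5 := size_dinx_nonneg H x hx X
      rw [← Finset.mul_sum]
      have h6 := mul_le_mul_of_nonneg_left h4 hkl0
      rw [div_mul_cancel₀ _ hlam.ne', mul_add] at h6
      have h7 : (k : ℝ) / ((k : ℝ) + 1 - θ) * dinx H x X ≤ dinx H x X :=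
        mul_le_of_le_one_left h5 hkl
      linarith)
    (by
      intro X hX
      have h4 := hρ X hX
      rw [Finset.sum_add_distrib, ← Finset.mul_sum, ← Finset.mul_sum, Finset.sum_const,
        nsmul_eq_mul]
      have h5 : (k : ℝ) / ((k : ℝ) + 1 - θ) * ∑ v ∈ X, ρ v +
          (1 - θ) / ((k : ℝ) + 1 - θ) * ∑ v ∈ X, ρ v = ∑ v ∈ X, ρ v := by
        rw [← add_mul, ← add_div]
        have h6 : (k : ℝ) + (1 - θ) = (k : ℝ) + 1 - θ := by ring
        rw [h6, div_self hlam.ne', one_mul]
      have h7 : (1 : ℝ) ≤ (X.card : ℝ) := by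
        exact_mod_cast Finset.card_pos.2 hX
      have h8 : θ ≤ (X.card : ℝ) * θ := le_mul_of_one_le_left hθ0 h7
      linarith)
  rw [hsz] at hRc
  have hRne : R.Nonempty := by
    have h4 := hcut1 univ ⟨Classical.arbitrary V, mem_univ _⟩
    have h5 : din o.tail o.head univ (univ : Finset V) = 0 := by
      unfold din
      rw [Finset.card_eq_zero]
      apply Finset.filter_eq_empty_iff.2
      intro e _ h
      exact h.1 (mem_univ _)
    rw [h5, hrk, Finset.inter_univ] at h4
    apply Finset.card_pos.1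
    omega
  obtain ⟨t, ht⟩ := size_fib k r hrk
  obtain ⟨F, -, hFd, hFb⟩ := he V I o.tail o.head univ (k + 1)
    (Fin.cons R fun i => {t i})
    (by
      intro i
      refine Fin.cases ?_ (fun j => ?_) i
      · exact hRne
      · rw [Fin.cons_succ]
        exact Finset.singleton_nonempty _)
    (by
      intro X hX
      have h4 := ht X
      have h5 : (univ.filter (fun i : Fin (k + 1) =>
          Disjoint ((Fin.cons R fun i => {t i} : Fin (k + 1) → Finset V) i) X)).card =
          (if Disjoint R X then 1 else 0) + (univ.filter (fun i => t i ∉ X)).card := by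
        rw [Finset.card_filter, Fin.sum_univ_succ, Finset.card_filter]
        congr 1
        refine Finset.sum_congr rfl fun j _ => ?_
        rw [Fin.cons_succ]
        simp only [Finset.disjoint_singleton_left]
      rw [h5]
      split_ifs with hd
      · have h6 := hcut1 X hX
        rw [Finset.disjoint_iff_inter_eq_empty.1 hd, Finset.card_empty] at h6
        omega
      · have h6 := hcut X hX
        omega)
  refine ⟨o, r, F 0, R, ⟨hFb 0, hrk, ?_⟩, hRc⟩
  intro X hX
  obtain ⟨v, hv⟩ := hX
  have h4 := ht X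
  have h5 : (univ.filter (fun i => t i ∉ X)).card ≤ din o.tail o.head (univ \ F 0) X := by
    have h6 : ∀ i : Fin k, t i ∉ X → ∃ e ∈ F i.succ, o.tail e ∉ X ∧ o.head e ∈ X := by
      intro i hi
      obtain ⟨a, ha, hw⟩ := (hFb i.succ).2.2.2 v (mem_univ v)
      rw [Fin.cons_succ, mem_singleton] at ha
      rw [ha] at hw
      exact size_enter o.tail o.head (F i.succ) X hw hi hv
    have hI : ∀ i : Fin k, ∃ e : Option I, t i ∉ X → ∃ e', e = some e' ∧ e' ∈ F i.succ ∧
        o.tail e' ∉ X ∧ o.head e' ∈ X := by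
      intro i
      by_cases hi : t i ∉ X
      · obtain ⟨e, he1, he2⟩ := h6 i hi
        exact ⟨some e, fun _ => ⟨e, rfl, he1, he2⟩⟩
      · exact ⟨none, fun h => absurd h hi⟩
    choose g hg using hI
    have h7 : (univ.filter (fun i => t i ∉ X)).card ≤
        (((univ \ F 0).filter (fun e => o.tail e ∉ X ∧ o.head e ∈ X)).image some).card := by
      apply Finset.card_le_card_of_injOn g
      · intro i hi
        have hi' : t i ∉ X := (mem_filter.1 (Finset.mem_coe.1 hi)).2
        obtain ⟨e, he1, he2, he3⟩ := hg i hi'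
        rw [Finset.mem_coe, mem_image]
        refine ⟨e, ?_, he1.symm⟩
        rw [mem_filter, mem_sdiff]
        refine ⟨⟨mem_univ _, fun h0 => ?_⟩, he3⟩
        exact Finset.disjoint_left.1 (hFd 0 i.succ (Fin.succ_ne_zero i).symm) h0 he2
      · intro i hi j hj hij
        have hi' : t i ∉ X := (mem_filter.1 (Finset.mem_coe.1 hi)).2
        have hj' : t j ∉ X := (mem_filter.1 (Finset.mem_coe.1 hj)).2
        obtain ⟨e, he1, he2, -⟩ := hg i hi'
        obtain ⟨e', he1', he2', -⟩ := hg j hj'
        by_contra hne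
        have h8 : e = e' := by
          have h9 : some e = some e' := by
            rw [← he1, ← he1']
            exact hij
          exact Option.some.inj h9
        rw [h8] at he2
        exact Finset.disjoint_left.1 (hFd i.succ j.succ fun h => hne (Fin.succ_injective _ h))
          he2 he2'
    rw [Finset.card_image_of_injective _ (Option.some_injective I)] at h7
    exact h7
  omega

end ARB
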