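import Pool.Agent.H22.ARB.Defs

/-!
# Packing mixed arborescences (MP_1cda34_co): statement layer

Every `def S… : Prop` below is one row (or the hypothesis of another row).
-/

namespace ARB

open Finset

section Internal

variable {V I : Type} [Fintype V] [DecidableEq V] [Fintype I] [DecidableEq I]

/-- number of elements of `J` that enter `X`. -/
def din (tl hd : I → V) (J : Finset I) (X : Finset V) : ℕ :=
  (J.filter (fun e => tl e ∉ X ∧ hd e ∈ X)).card

/-- one step along an element of `F`. -/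
def stepRel (tl hd : I → V) (F : Finset I) (x y : V) : Prop := ∃ e ∈ F, tl e = x ∧ hd e = y

/-- `F` is a branching with vertex set `U` and root set `R`. -/
def IsBr (tl hd : I → V) (F : Finset I) (R U : Finset V) : Prop :=
  R ⊆ U ∧ (∀ e ∈ F, tl e ∈ U ∧ hd e ∈ U ∧ hd e ∉ R) ∧
  (∀ e ∈ F, ∀ e' ∈ F, hd e = hd e' → e = e') ∧
  ∀ v ∈ U, ∃ r ∈ R, Relation.ReflTransGen (stepRel tl hd F) r v

/-- `(o, r, F, R)` is a solution: `F` is a spanning branching with root set `R` (in the orientation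
`o`), `r` is the root vector of `k` arborescences and the remaining elements satisfy the cut
condition for them. -/
def IsSol (H : MixedGraph V I) (k : ℕ) (o : Orientation H) (r : V → ℕ) (F : Finset I)
    (R : Finset V) : Prop :=
  IsBr o.tail o.head F R univ ∧ ∑ v, r v = k ∧
  ∀ X : Finset V, X.Nonempty → k ≤ din o.tail o.head (univ \ F) X + ∑ v ∈ X, r v

/-- number of elements with both ends in `X`. -/
def inner (H : MixedGraph V I) (X : Finset V) : ℕ :=
  (univ.filter (fun e => H.fst e ∈ X ∧ H.snd e ∈ X)).card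

/-- number of elements all of whose possible heads lie in `Y` (edges with both ends in `Y`, arcs
with head in `Y`). -/
def caught (H : MixedGraph V I) (Y : Finset V) : ℕ :=
  (univ.filter (fun e => H.snd e ∈ Y ∧ (H.isEdge e = true → H.fst e ∈ Y))).card

/-- The exact case `|V| = q d + 2`, `|I| = (k+1)(|V|-1) - q`, with the two consequences
`β(X) ≥ (|X|-1)/d`, `σ(Y) ≥ |Y|/d` of the strict condition. -/
def Exact (H : MixedGraph V I) (k d q : ℕ) : Prop :=
  Fintype.card V = q * d + 2 ∧ Fintype.card I + q = (k + 1) * (Fintype.card V - 1) ∧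
  (∀ X : Finset V, X.Nonempty → X ≠ univ →
    d * inner H X + (X.card - 1) ≤ d * ((k + 1) * (X.card - 1))) ∧
  (∀ Y : Finset V, Y.Nonempty → Y.card + 2 ≤ Fintype.card V →
    d * caught H Y + Y.card ≤ d * ((k + 1) * Y.card))

/-- A solution with `q + 1` components one of which is an isolated vertex. -/
def GoodSol (H : MixedGraph V I) (k q : ℕ) : Prop :=
  ∃ (o : Orientation H) (r : V → ℕ) (F : Finset I) (R : Finset V) (v : V),
    IsSol H k o r F R ∧ R.card = q + 1 ∧ v ∈ R ∧ ∀ e ∈ F, H.fst e ≠ v ∧ H.snd e ≠ v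

/-- indegree of `y` in the orientation `o`. -/
def indeg {H : MixedGraph V I} (o : Orientation H) (y : V) : ℕ :=
  (univ.filter (fun e => o.head e = y)).card

/-- fractional orientation: `x e` is the weight of the direction `fst e → snd e`. -/
def FracOr (H : MixedGraph V I) (x : I → ℝ) : Prop :=
  ∀ e, 0 ≤ x e ∧ x e ≤ 1 ∧ (H.isEdge e = false → x e = 1)

/-- `d_x^-(X)`. -/
noncomputable def dinx (H : MixedGraph V I) (x : I → ℝ) (X : Finset V) : ℝ :=
  ∑ e, ((if H.fst e ∉ X ∧ H.snd e ∈ X then x e else 0) +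
    (if H.snd e ∉ X ∧ H.fst e ∈ X then 1 - x e else 0))

end Internal

/-! ### Rows -/

/-- ARB-G: growth lemma (Lovász).  `p` intersecting supermodular, `p ≤ din`; `F` is grown from `Q`
to `U`. -/
def SGrow : Prop :=
  ∀ (V I : Type) [Fintype V] [DecidableEq V] [Fintype I] [DecidableEq I]
    (tl hd : I → V) (J : Finset I) (p : Finset V → ℤ) (Q U : Finset V),
    Q ⊆ U →
    (∀ X Y : Finset V, (X ∩ Y).Nonempty → p X + p Y ≤ p (X ∩ Y) + p (X ∪ Y)) →
    (∀ X : Finset V, X.Nonempty → p X ≤ (din tl hd J X : ℤ)) →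
    (∀ S : Finset V, Q ⊆ S → S ⊂ U → ∃ e ∈ J, tl e ∈ S ∧ hd e ∈ U \ S) →
    (∀ (S X : Finset V) (F : Finset I), Q ⊆ S → S ⊂ U → F ⊆ J →
      (∀ e ∈ F, tl e ∈ S ∧ hd e ∈ S) → (X ∩ (U \ S)).Nonempty →
      (din tl hd (J \ F) X : ℤ) = p X → ∃ e ∈ J, tl e ∈ X ∩ S ∧ hd e ∈ X ∩ (U \ S)) →
    ∃ F ⊆ J, IsBr tl hd F Q U ∧ ∀ X : Finset V, X.Nonempty → p X ≤ (din tl hd (J \ F) X : ℤ)

/-- ARB-E: Edmonds' theorem on disjoint branchings with prescribed root sets. -/
def SEdm : Prop :=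
  ∀ (V I : Type) [Fintype V] [DecidableEq V] [Fintype I] [DecidableEq I]
    (tl hd : I → V) (J : Finset I) (m : ℕ) (R : Fin m → Finset V),
    (∀ i, (R i).Nonempty) →
    (∀ X : Finset V, X.Nonempty →
      (univ.filter (fun i => Disjoint (R i) X)).card ≤ din tl hd J X) →
    ∃ F : Fin m → Finset I, (∀ i, F i ⊆ J) ∧ (∀ i j, i ≠ j → Disjoint (F i) (F j)) ∧
      ∀ i, IsBr tl hd (F i) (R i) univ

/-- ARB-I: isolation lemma (digraph form). -/
def SIso : Prop :=
  ∀ (V I : Type) [Fintype V] [DecidableEq V] [Fintype I] [DecidableEq I]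
    (tl hd : I → V) (k : ℕ) (r : V → ℕ) (R : Finset V) (v : V),
    (∀ e, tl e ≠ hd e) →
    (∀ x, (univ.filter (fun e => hd e = x)).card + r x + (if x ∈ R then 1 else 0) = k + 1) →
    ∑ x, r x = k → v ∈ R → (R.erase v).Nonempty →
    (∀ X : Finset V, X.Nonempty →
      k + (if Disjoint R X then 1 else 0) ≤ din tl hd univ X + ∑ x ∈ X, r x) →
    (∀ X : Finset V, v ∈ X → 2 ≤ X.card → X ≠ univ →
      (univ.filter (fun e => tl e ∈ X ∧ hd e ∈ X)).card + 1 ≤ (k + 1) * (X.card - 1)) →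
    (∀ u, u ≠ v → (univ.filter (fun e => tl e = u ∧ hd e = v)).card = r u) →
    ∃ F : Finset I, IsBr tl hd F (R.erase v) (univ.erase v) ∧
      ∀ X : Finset V, X.Nonempty → k ≤ din tl hd (univ \ F) X + ∑ x ∈ X, r x

/-- ARB-C: a branching in the internal sense is a mixed branching in the official sense; its
components belong to its roots. -/
def SComp : Prop :=
  ∀ (V I : Type) [Fintype V] [DecidableEq V] [Fintype I] [DecidableEq I]
    (H : MixedGraph V I) (o : Orientation H) (F : Finset I) (R : Finset V),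
    IsBr o.tail o.head F R univ →
    IsMixedBranching H F ∧ F.card + R.card = Fintype.card V ∧
    (∀ v, ∃ r ∈ R, v ∈ compVerts H F r) ∧
    (∀ r, (compElems H F r).card + 1 = (compVerts H F r).card) ∧
    (R.card = 1 → IsSpanningMixedArborescence H F)

/-- ARB-T: a solution gives the `k` arborescences. -/
def SPackT : Prop :=
  ∀ (V I : Type) [Fintype V] [DecidableEq V] [Fintype I] [DecidableEq I]
    (H : MixedGraph V I) (k : ℕ) (o : Orientation H) (r : V → ℕ) (F : Finset I) (R : Finset V),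
    IsSol H k o r F R → ∃ T : Fin k → Finset I, IsPacking H T F

/-- ARB-A1: fractional version of Frank's orientation theorem. -/
def SA1 : Prop :=
  ∀ (V I : Type) [Fintype V] [DecidableEq V] [Fintype I] [DecidableEq I] [Nonempty V]
    (H : MixedGraph V I) (lam : ℝ), 0 < lam →
    (∀ P : Finset (Finset V), IsSubpartition P → P.Nonempty →
      lam * ((P.card : ℝ) - 1) ≤ (wt H P : ℝ)) →
    ∃ (x : I → ℝ) (ρ : V → ℝ), FracOr H x ∧ (∀ v, 0 ≤ ρ v) ∧ ∑ v, ρ v = lam ∧
      ∀ X : Finset V, X.Nonempty → lam ≤ dinx H x X + ∑ v ∈ X, ρ v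

/-- ARB-LA: the cycle space of a graph in which no constrained node has degree one is nonzero. -/
def SLA : Prop :=
  ∀ (F N : Type) [Fintype F] [DecidableEq F] [Fintype N] [DecidableEq N] [Nonempty F]
    (s t : F → Option N),
    (∀ ν : N, (univ.filter (fun f => s f = some ν)).card +
      (univ.filter (fun f => t f = some ν)).card ≠ 1) →
    ∃ y : F → ℝ, y ≠ 0 ∧ ∀ ν : N,
      ∑ f ∈ univ.filter (fun f => t f = some ν), y f =
      ∑ f ∈ univ.filter (fun f => s f = some ν), y f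

/-- ARB-CLS: the sum over a class of a family closed under intersecting unions and intersections is
an integer if the sum over every member is. -/
def SCls : Prop :=
  ∀ (Ω : Type) [Fintype Ω] [DecidableEq Ω] (c : Ω → ℝ) (T : Finset (Finset Ω)),
    (∀ S ∈ T, ∀ S' ∈ T, (S ∩ S').Nonempty → S ∩ S' ∈ T ∧ S ∪ S' ∈ T) →
    (∀ S ∈ T, ∃ m : ℤ, ∑ w ∈ S, c w = m) →
    ∀ s : Ω, (∃ S ∈ T, s ∈ S) →
      ∃ m : ℤ, ∑ w ∈ univ.filter (fun w => ∀ S ∈ T, s ∈ S ↔ w ∈ S), c w = m

/-- ARB-A3: rounding. -/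
def SA3 : Prop :=
  ∀ (V I : Type) [Fintype V] [DecidableEq V] [Fintype I] [DecidableEq I]
    (H : MixedGraph V I) (k : ℕ) (x : I → ℝ) (r z : V → ℝ),
    FracOr H x → (∀ v, 0 ≤ r v) → ∑ v, r v = k → (∀ v, 0 ≤ z v ∧ z v ≤ 1) →
    (∀ X : Finset V, X.Nonempty → (k : ℝ) ≤ dinx H x X + ∑ v ∈ X, r v) →
    (∀ X : Finset V, X.Nonempty → (k : ℝ) + 1 ≤ dinx H x X + ∑ v ∈ X, r v + ∑ v ∈ X, z v) →
    ∃ (o : Orientation H) (r' : V → ℕ) (R : Finset V), ∑ v, r' v = k ∧
      (R.card : ℝ) ≤ ∑ v, z v ∧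
      (∀ X : Finset V, X.Nonempty → k ≤ din o.tail o.head univ X + ∑ v ∈ X, r' v) ∧
      (∀ X : Finset V, X.Nonempty →
        k + 1 ≤ din o.tail o.head univ X + ∑ v ∈ X, r' v + (R ∩ X).card)

/-- ARB-S: the size theorem. -/
def SSize : Prop :=
  ∀ (V I : Type) [Fintype V] [DecidableEq V] [Fintype I] [DecidableEq I] [Nonempty V]
    (H : MixedGraph V I) (k : ℕ) (θ : ℝ), 0 ≤ θ → θ ≤ 1 → 0 < (k : ℝ) + 1 - θ →
    (∀ P : Finset (Finset V), IsSubpartition P → P.Nonempty →
      ((k : ℝ) + 1 - θ) * ((P.card : ℝ) - 1) ≤ (wt H P : ℝ)) →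
    ∃ (o : Orientation H) (r : V → ℕ) (F : Finset I) (R : Finset V), IsSol H k o r F R ∧
      (R.card : ℝ) ≤ 1 + θ * ((Fintype.card V : ℝ) - 1)

/-- ARB-X: reduction to the exact case for `|V| = q d + 2`. -/
def SExact : Prop :=
  ∀ (V I : Type) [Fintype V] [DecidableEq V] [Fintype I] [DecidableEq I]
    (H : MixedGraph V I) (k d q : ℕ), 1 ≤ d → 1 ≤ q → Fintype.card V = q * d + 2 →
    StrictCond H k d →
    (∃ (o : Orientation H) (r : V → ℕ) (F : Finset I) (R : Finset V),
      IsSol H k o r F R ∧ R.card ≤ q) ∨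
    (Exact H k d q ∧ ∃ (o : Orientation H) (r : V → ℕ) (F : Finset I) (R : Finset V),
      IsSol H k o r F R ∧ R.card = q + 1)

/-- ARB-H: orientations with prescribed indegrees (Hakimi, for mixed graphs; by Hall's theorem). -/
def SHak : Prop :=
  ∀ (V I : Type) [Fintype V] [DecidableEq V] [Fintype I] [DecidableEq I]
    (H : MixedGraph V I) (m : V → ℕ), ∑ v, m v = Fintype.card I →
    (∀ Y : Finset V, caught H Y ≤ ∑ v ∈ Y, m v) →
    ∃ o : Orientation H, ∀ y, indeg o y = m y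

/-- ARB-M: moving a token along a directed path of undirected edges (not in `Z`). -/
def SMove : Prop :=
  ∀ (V I : Type) [Fintype V] [DecidableEq V] [Fintype I] [DecidableEq I]
    (H : MixedGraph V I) (Z : Finset I) (o : Orientation H) (u x : V),
    Relation.ReflTransGen
      (fun a b => ∃ e, e ∉ Z ∧ H.isEdge e = true ∧ o.tail e = a ∧ o.head e = b) u x →
    ∃ o' : Orientation H, (∀ e ∈ Z, o'.tail e = o.tail e ∧ o'.head e = o.head e) ∧
      ∀ y, indeg o' y + (if y = x then 1 else 0) = indeg o y + (if y = u then 1 else 0)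

/-- ARB-K1: `k = 1`, exact case: there is a solution with an isolated vertex. -/
def SK1 : Prop :=
  ∀ (V I : Type) [Fintype V] [DecidableEq V] [Fintype I] [DecidableEq I]
    (H : MixedGraph V I) (d q : ℕ), 1 ≤ d → 1 ≤ q → Exact H 1 d q →
    (∃ (o : Orientation H) (r : V → ℕ) (F : Finset I) (R : Finset V),
      IsSol H 1 o r F R ∧ R.card = q + 1) → GoodSol H 1 q

/-- ARB-D2: `d = 2`, exact case, all `k ≥ 1`: there is a solution with an isolated vertex. -/
def SD2 : Prop :=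
  ∀ (V I : Type) [Fintype V] [DecidableEq V] [Fintype I] [DecidableEq I]
    (H : MixedGraph V I) (k q : ℕ), 1 ≤ k → 1 ≤ q → Exact H k 2 q →
    (∃ (o : Orientation H) (r : V → ℕ) (F : Finset I) (R : Finset V),
      IsSol H k o r F R ∧ R.card = q + 1) → GoodSol H k q

/-- ARB-K0: `k = 0`. -/
def SK0 : Prop :=
  ∀ (V I : Type) [Fintype V] [DecidableEq V] [Fintype I] [DecidableEq I]
    (H : MixedGraph V I) (d : ℕ), 1 ≤ d → 2 ≤ Fintype.card V → StrictCond H 0 d →
    HasPacking H 0 d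

end ARB
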